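import Pool.Agent.Lib.MP_b525bf_ag_R.ABS

/-!
# Row R18: the first element
-/

set_option autoImplicit false

namespace Pool.Agent.MP_b525bf_ag_R

open Pool.Agent.LU2

variable {k K : Type} [Field k] [Field K] [Algebra k K]

private theorem abo_const (V : ValuationSubring K) (hk : ∀ c : k, algebraMap k K c ∈ V) (c : k)
    (hc : c ≠ 0) : V.valuation (algebraMap k K c) = 1 := by
  have h1 : V.valuation (algebraMap k K c) ≤ 1 := (V.valuation_le_one_iff _).2 (hk c)
  have h2 : V.valuation (algebraMap k K c⁻¹) ≤ 1 := (V.valuation_le_one_iff _).2 (hk c⁻¹)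
  have h3 : V.valuation (algebraMap k K c) * V.valuation (algebraMap k K c⁻¹) = 1 := by
    rw [← map_mul, ← map_mul, mul_inv_cancel₀ hc, map_one, map_one]
  refine le_antisymm h1 ?_
  calc (1 : V.ValueGroup) = V.valuation (algebraMap k K c) * V.valuation (algebraMap k K c⁻¹) :=
        h3.symm
    _ ≤ V.valuation (algebraMap k K c) * 1 := mul_le_mul_right h2 _
    _ = V.valuation (algebraMap k K c) := mul_one _

private theorem abo_res (V : ValuationSubring K) (hk : ∀ c : k, algebraMap k K c ∈ V)
    (z : Fin 0 → K) : IndRes k V z := by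
  refine ⟨fun i => i.elim0, fun P hP => ?_⟩
  obtain ⟨c, rfl⟩ := MvPolynomial.C_surjective (R := k) (Fin 0) P
  by_contra hc
  have hc' : c ≠ 0 := by
    rintro rfl
    exact hc (map_zero _)
  rw [MvPolynomial.aeval_C, abo_const V hk c hc'] at hP
  exact lt_irrefl _ hP

private theorem abo_val (V : ValuationSubring K) (x : Fin 0 → K) : IndVal V x :=
  ⟨fun i => i.elim0, fun _ _ => Subsingleton.elim _ _⟩

/-- Row R18. A subfield that is not algebraic over `k` contains an element `z` such that `k(z)`
is of this kind: `z` with a value different from `1`, if there is one; otherwise each transcendental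
element will do. -/
theorem exists_ab_one (V : ValuationSubring K) (hk : ∀ c : k, algebraMap k K c ∈ V)
    (M : IntermediateField k K) (hM : ¬ Algebra.IsAlgebraic k M) :
    ∃ z ∈ M, Ab V (IntermediateField.adjoin k {z}) 1 := by
  classical
  by_cases h : ∃ z ∈ M, z ≠ 0 ∧ V.valuation z ≠ 1
  · obtain ⟨z, hzM, hz0, hz1⟩ := h
    refine ⟨z, hzM, 1, 0, rfl, ⟨fun _ => z, fun _ =>
      IntermediateField.mem_adjoin_simple_self k z, fun _ => hz0, fun e he => ?_⟩,
      Fin.elim0, fun i => i.elim0, abo_res V hk _⟩
    have h1 : (e.prod fun (_ : Fin 1) (n : ℤ) => z ^ n) = z ^ (e 0) := by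
      rw [Finsupp.prod_fintype _ _ (fun _ => zpow_zero _)]
      simp
    rw [h1, map_zpow₀] at he
    have h2 : e 0 = 0 := by
      by_contra hne
      have h3 : V.valuation z ^ (e 0).natAbs = 1 := by
        rcases Int.natAbs_eq (e 0) with h4 | h4
        · rw [h4, zpow_natCast] at he
          simpa using he
        · rw [h4, zpow_neg, zpow_natCast, inv_eq_one] at he
          simpa using he
      exact hz1 ((pow_eq_one_iff.1 h3).resolve_right (Int.natAbs_ne_zero.2 hne))
    refine Finsupp.ext fun i => ?_
    rw [Subsingleton.elim i 0, h2]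
    rfl
  · push Not at h
    have h1 : ∃ z : M, Transcendental k z := by
      by_contra hne
      refine hM ⟨fun z => ?_⟩
      by_contra hz
      exact hne ⟨z, hz⟩
    obtain ⟨z, hz⟩ := h1
    have hz0 : (z : K) ≠ 0 := by
      intro h0
      have h00 : z = 0 := Subtype.ext h0
      rw [h00] at hz
      exact hz (isAlgebraic_zero)
    refine ⟨z, z.2, 0, 1, rfl, ⟨Fin.elim0, fun i => i.elim0, abo_val V _⟩, fun _ => (z : K),
      fun _ => IntermediateField.mem_adjoin_simple_self k _, fun _ => ?_, fun P hP => ?_⟩
    · rw [← V.valuation_le_one_iff, h z z.2 hz0]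
    · have h2 : MvPolynomial.aeval (fun _ : Fin 1 => (z : K)) P =
          algebraMap M K (MvPolynomial.aeval (fun _ : Fin 1 => z) P) :=
        MvPolynomial.aeval_algebraMap_apply K (fun _ : Fin 1 => z) P
      have h3 : AlgebraicIndependent k (fun _ : Fin 1 => z) :=
        (algebraicIndependent_unique_type_iff (x := fun _ : Fin 1 => z)).2 hz
      by_contra hP0
      have h4 : MvPolynomial.aeval (fun _ : Fin 1 => z) P ≠ 0 := by
        intro h5
        exact hP0 (h3 (by rw [h5, map_zero]))
      have h5 : algebraMap M K (MvPolynomial.aeval (fun _ : Fin 1 => z) P) ≠ 0 := by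
        intro h6
        exact h4 ((map_eq_zero _).1 h6)
      have h6 := h _ (MvPolynomial.aeval (fun _ : Fin 1 => z) P).2 h5
      rw [h2] at hP
      have h7 : V.valuation (algebraMap M K (MvPolynomial.aeval (fun _ : Fin 1 => z) P)) = 1 := h6
      rw [h7] at hP
      exact lt_irrefl _ hP

end Pool.Agent.MP_b525bf_ag_R
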