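import Pool.Agent.Lib.MP_b525bf_ag_R.Basic

/-!
# Row R20: dual vectors
-/

set_option autoImplicit false

namespace Pool.Agent.MP_b525bf_ag_R

/-- the dual vector over the rational numbers -/
private theorem dua_rat {ι : Type} [Fintype ι] {n : ℕ} (l : Fin n → ι → ℤ)
    (hl : LinearIndependent ℤ l) (j : Fin n) :
    ∃ μ : ι → ℚ, (∀ j', j' ≠ j → ∑ i, μ i * l j' i = 0) ∧ ∑ i, μ i * l j i ≠ 0 := by
  classical
  set L : Fin n → ι → ℚ := fun a i => (l a i : ℚ) with hL
  have h1 : LinearIndependent ℤ L := by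
    have hinj : LinearMap.ker ((Int.castAddHom ℚ).toIntLinearMap.compLeft ι) = ⊥ := by
      rw [LinearMap.ker_eq_bot]
      intro x y hxy
      ext i
      have h : ((x i : ℤ) : ℚ) = ((y i : ℤ) : ℚ) := congrFun hxy i
      exact_mod_cast h
    exact hl.map' _ hinj
  have h2 : LinearIndependent ℚ L := by
    rw [LinearIndependent.iff_fractionRing ℤ ℚ] at h1
    exact h1
  obtain ⟨f, hf⟩ : ∃ f : (ι → ℚ) →ₗ[ℚ] ℚ, ∀ a, f (L a) = if a = j then 1 else 0 := by
    obtain ⟨f, hf⟩ := (Module.Basis.span h2).constr ℚ (fun a => if a = j then (1 : ℚ) else 0) |>.exists_extend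
    refine ⟨f, fun a => ?_⟩
    have h3 : f ((Module.Basis.span h2 a : Submodule.span ℚ (Set.range L)) : ι → ℚ) =
        if a = j then (1 : ℚ) else 0 := by
      rw [← Module.Basis.constr_basis (Module.Basis.span h2) ℚ
        (fun a => if a = j then (1 : ℚ) else 0) a, ← hf]
      rfl
    rw [Module.Basis.span_apply] at h3
    exact h3
  have hfs : ∀ x : ι → ℚ, f x = ∑ i, f (Pi.single i 1) * x i := by
    intro x
    conv_lhs => rw [pi_eq_sum_univ' x]
    rw [map_sum]
    refine Finset.sum_congr rfl fun i _ => ?_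
    rw [map_smul, smul_eq_mul, mul_comm]
  refine ⟨fun i => f (Pi.single i 1), fun j' hj' => ?_, ?_⟩
  · have h := hf j'
    rw [if_neg hj', hfs] at h
    exact h
  · have h := hf j
    rw [if_pos rfl, hfs] at h
    have h' : ∑ i, f (Pi.single i 1) * (l j i : ℚ) = 1 := h
    rw [h']
    exact one_ne_zero

/-- Row R20. Dual vectors up to multiples: extend scalars to `ℚ` (`LinearIndependent` over `ℤ` of
integer vectors implies it over `ℚ`), take a linear functional on `ι → ℚ` which is `1` on `l j` and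
`0` on the other `l j'`, and clear denominators. -/
theorem exists_dual {ι : Type} [Fintype ι] {n : ℕ} (l : Fin n → ι → ℤ)
    (hl : LinearIndependent ℤ l) (j : Fin n) :
    ∃ μ : ι → ℤ, (∀ j', j' ≠ j → ∑ i, μ i * l j' i = 0) ∧ ∑ i, μ i * l j i ≠ 0 := by
  classical
  obtain ⟨μ, h1, h2⟩ := dua_rat l hl j
  set D : ℕ := ∏ i, (μ i).den with hD
  have hD0 : (D : ℚ) ≠ 0 := by
    rw [hD]
    exact_mod_cast Finset.prod_ne_zero_iff.2 fun i _ => (μ i).den_nz
  have hex : ∀ i, ∃ z : ℤ, (z : ℚ) = D * μ i := by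
    intro i
    obtain ⟨c, hc⟩ : (μ i).den ∣ D := Finset.dvd_prod_of_mem _ (Finset.mem_univ i)
    refine ⟨c * (μ i).num, ?_⟩
    push_cast
    rw [hc]
    push_cast
    have h3 : ((μ i).den : ℚ) * μ i = (μ i).num := Rat.den_mul_eq_num _
    calc (c : ℚ) * (μ i).num = c * ((μ i).den * μ i) := by rw [h3]
      _ = (μ i).den * c * μ i := by ring
  choose ν hν using hex
  have key : ∀ a : Fin n, ((∑ i, ν i * l a i : ℤ) : ℚ) = D * ∑ i, μ i * l a i := by
    intro a
    push_cast
    rw [Finset.mul_sum]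
    refine Finset.sum_congr rfl fun i _ => ?_
    rw [hν i]
    ring
  refine ⟨ν, fun j' hj' => ?_, fun h => ?_⟩
  · have h := key j'
    rw [h1 j' hj', mul_zero] at h
    exact_mod_cast h
  · have h' := key j
    rw [h] at h'
    push_cast at h'
    exact (mul_ne_zero hD0 h2) h'.symm

/-- The character `l` on the one-parameter group `μ`. -/
theorem chi_zpow {k : Type} [Field k] {ι : Type} [Fintype ι] (l μ : ι → ℤ) (t : kˣ) :
    chi l (fun i => t ^ μ i) = t ^ (∑ i, μ i * l i) := by
  classical
  unfold chi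
  have h : ∀ s : Finset ι, ∏ i ∈ s, (t ^ μ i) ^ l i = t ^ (∑ i ∈ s, μ i * l i) := by
    intro s
    induction s using Finset.induction_on with
    | empty => simp
    | insert a s ha ih => rw [Finset.prod_insert ha, Finset.sum_insert ha, zpow_add, ih, zpow_mul]
  exact h Finset.univ

/-- Units whose `N`-th powers are different. -/
theorem exists_units_zpow {k : Type} [Field k] [Infinite k] (N : ℤ) (hN : N ≠ 0) (n : ℕ) :
    ∃ t : Fin n → kˣ, ∀ i j, i ≠ j → (t i) ^ N ≠ (t j) ^ N := by
  classical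
  -- the power map has infinite image
  have hinf : (Set.range fun t : kˣ => t ^ N).Infinite := by
    intro hfin
    have hu : Infinite kˣ := by
      by_contra hcon
      rw [not_infinite_iff_finite] at hcon
      have h1 : (Set.range fun u : kˣ => (u : k)).Finite := Set.finite_range _
      have h2 : (Set.univ : Set k) ⊆ insert 0 (Set.range fun u : kˣ => (u : k)) := by
        intro x _
        by_cases hx : x = 0
        · exact Or.inl hx
        · exact Or.inr ⟨Units.mk0 x hx, rfl⟩
      exact Set.infinite_univ ((h1.insert 0).subset h2)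
    refine (Set.infinite_univ (α := kˣ)) ?_
    have hcov : (Set.univ : Set kˣ) ⊆
        ⋃ y ∈ (Set.range fun t : kˣ => t ^ N), {t : kˣ | t ^ N = y} := by
      intro t _
      exact Set.mem_biUnion ⟨t, rfl⟩ rfl
    refine (hfin.biUnion fun y _ => ?_).subset hcov
    -- finitely many roots
    have hP : (Polynomial.X ^ N.natAbs - Polynomial.C ((if 0 ≤ N then y else y⁻¹ : kˣ) : k)) ≠ 0 :=
      Polynomial.X_pow_sub_C_ne_zero (Int.natAbs_pos.2 hN) _
    have hroots := (Polynomial.X ^ N.natAbs -
      Polynomial.C ((if 0 ≤ N then y else y⁻¹ : kˣ) : k)).roots.toFinset.finite_toSet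
    refine Set.Finite.of_finite_image (f := fun u : kˣ => (u : k)) (hroots.subset ?_)
      (fun a _ b _ hab => Units.ext hab)
    rintro _ ⟨t, ht, rfl⟩
    rw [Finset.mem_coe, Multiset.mem_toFinset, Polynomial.mem_roots hP, Polynomial.IsRoot.def,
      Polynomial.eval_sub, Polynomial.eval_pow, Polynomial.eval_X, Polynomial.eval_C, sub_eq_zero]
    have ht' : t ^ N = y := ht
    have h3 : t ^ N.natAbs = if 0 ≤ N then y else y⁻¹ := by
      split_ifs with h0
      · rw [← ht', ← zpow_natCast, Int.natAbs_of_nonneg h0]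
      · rw [← ht', ← zpow_neg, ← zpow_natCast]
        congr 1
        omega
    rw [← Units.val_pow_eq_pow_val, h3]
  obtain ⟨e⟩ := (hinf.natEmbedding _ : ℕ ↪ _)
  rename_i hinj
  choose t ht using fun i : ℕ => (e i).2
  refine ⟨fun i => t i, fun i j hij h => hij ?_⟩
  have h4 : e i = e j := by
    apply Subtype.ext
    rw [← ht i, ← ht j]
    exact h
  exact Fin.ext (hinj h4)

end Pool.Agent.MP_b525bf_ag_R
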