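import Pool.Agent.Lib.MP_b525bf_ag_R.TWT

/-!
# Row R24: a moved element
-/

set_option autoImplicit false

namespace Pool.Agent.MP_b525bf_ag_R

open Matrix.SpecialLinearGroup
open scoped MatrixGroups

private theorem transvection01 {k : Type} [Field k] (s : k) :
    (Matrix.SpecialLinearGroup.transvection zero_ne_one s : SL(2, k)) = up s := by
  refine ext4 ?_ ?_ ?_ ?_ <;> simp [Matrix.SpecialLinearGroup.transvection_coe]

private theorem transvection10 {k : Type} [Field k] (s : k) :
    (Matrix.SpecialLinearGroup.transvection one_ne_zero s : SL(2, k)) = lo s := by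
  refine ext4 ?_ ?_ ?_ ?_ <;> simp [Matrix.SpecialLinearGroup.transvection_coe]

private theorem ind_up_lo {k : Type} [Field k] (P : SL(2, k) → Prop) (hu : ∀ s, P (up s))
    (hl : ∀ s, P (lo s)) (hmul : ∀ a b, P a → P b → P (a * b)) (g : SL(2, k)) : P g := by
  refine Matrix.SL2.transvection_induction P ?_ hmul g
  intro i j h c
  fin_cases i
  · obtain rfl : j = 1 := by fin_cases j <;> tauto
    have := hu c
    rw [← transvection01] at this
    exact this
  · obtain rfl : j = 0 := by fin_cases j <;> tauto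
    have := hl c
    rw [← transvection10] at this
    exact this

/-- The matrix `!![0, 1; -1, 0]`. -/
private def wy (k : Type) [Field k] : SL(2, k) :=
  ⟨!![0, 1; -1, 0], by simp [Matrix.det_fin_two_of]⟩

private theorem lo_mul_wy {k : Type} [Field k] (s : k) : lo s * wy k = wy k * up (-s) := by
  refine ext4 ?_ ?_ ?_ ?_ <;> simp [mul00, mul01, mul10, mul11, wy]

private theorem exists_pow_ne {k : Type} [Field k] [Infinite k] (N : ℕ) (hN : 0 < N) :
    ∃ t : kˣ, (t : k) ^ N ≠ 1 := by
  by_contra hcon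
  push Not at hcon
  have h : (Polynomial.X ^ (N + 1) : Polynomial k) = Polynomial.X := by
    refine Polynomial.funext fun a => ?_
    rw [Polynomial.eval_pow, Polynomial.eval_X, pow_succ]
    by_cases ha : a = 0
    · rw [ha, mul_zero]
    · have h1 : a ^ N = 1 := hcon (Units.mk0 a ha)
      rw [h1, one_mul]
  have h2 := congrArg Polynomial.natDegree h
  rw [Polynomial.natDegree_X_pow, Polynomial.natDegree_X] at h2
  omega

/-- Row R24. For an invariant valuation, some element which is invariant under the unitriangular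
matrices of the other factors is moved, for the valuation, by those of the factor `i`.

Proof. Let `h` be a highest weight vector as in R23, `E = {b | v b < v h}`, a stable subspace with
`h ∉ E`, `O` the span of the `ρ (sl i g) h`. The elements of `O` are invariant under the unitriangular
matrices of the other factors (`sl_comm`), and `v b ≤ v h` for `b ∈ O`. Suppose that
`ρ (sl i (up s)) f - f ∈ E` for all `f ∈ O` and all `s`. `lo s` is conjugate to `up (-s)` by the
matrix `!![0, 1; -1, 0]`, which preserves `O` and `E`; so `ρ (sl i (lo s)) f - f ∈ E` too, and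
`ρ (sl i g) f - f ∈ E` for all `g` (`Matrix.SL2.transvection_induction`), in particular
`(t ^ n - 1) h ∈ E` for all `t : kˣ`, `n = l i > 0`, so `h ∈ E`: contradiction. So for some `f ∈ O`
and `s`: `v h ≤ v (ρ (sl i (up s)) f - f) ≤ v f ≤ v h`. -/
theorem exists_moved {k : Type} [Field k] [Infinite k] {m r : ℕ} {A : Type} [CommRing A]
    [Algebra k A] (ρ : SLT k m r →* (A ≃ₐ[k] A)) {Γ : Type}
    [LinearOrderedCommGroupWithZero Γ] (v : Valuation A Γ)
    (hk : ∀ c : k, v (algebraMap k A c) ≤ 1) (hv : ∀ g a, v (ρ g a) = v a) (i : Fin m) (h : A)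
    (hh : v h ≠ 0) (hU : IsU ρ h) (l : Fin m ⊕ Fin r → ℤ) (hl : IsWt ρ l h)
    (hpos : 0 < l (Sum.inl i)) :
    ∃ f : A, v f ≠ 0 ∧ (∀ i', i' ≠ i → ∀ s, ρ (sl i' (up s)) f = f) ∧
      ∃ s, v (ρ (sl i (up s)) f - f) = v f := by
  classical
  by_contra hcon
  have hup : ∀ (s : k) (g : SL(2, k)),
      v (ρ (sl i (up s)) (ρ (sl i g) h) - ρ (sl i g) h) < v h := by
    intro s g
    have h1 : v (ρ (sl i (up s)) (ρ (sl i g) h) - ρ (sl i g) h) ≤ v h := by
      refine (v.map_sub _ _).trans ?_
      rw [hv, hv, max_self]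
    refine lt_of_le_of_ne h1 fun h2 => hcon ⟨ρ (sl i g) h, ?_, ?_, s, ?_⟩
    · rw [hv]
      exact hh
    · intro i' hi' s'
      rw [sl_comm ρ hi', hU i' s']
    · rw [h2, hv]
  have hall : ∀ g' g : SL(2, k), v (ρ (sl i g') (ρ (sl i g) h) - ρ (sl i g) h) < v h := by
    refine fun g' => ind_up_lo
      (fun g' => ∀ g : SL(2, k), v (ρ (sl i g') (ρ (sl i g) h) - ρ (sl i g) h) < v h)
      hup ?_ ?_ g'
    · intro s g
      have h1 : ρ (sl i (lo s)) (ρ (sl i g) h) - ρ (sl i g) h =
          ρ (sl i (wy k)) (ρ (sl i (up (-s))) (ρ (sl i ((wy k)⁻¹ * g)) h) -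
            ρ (sl i ((wy k)⁻¹ * g)) h) := by
        rw [map_sub]
        simp only [← AlgEquiv.mul_apply, ← map_mul]
        rw [mul_inv_cancel_left, ← mul_assoc, ← lo_mul_wy, mul_assoc, mul_inv_cancel_left]
      rw [h1, hv]
      exact hup _ _
    · intro a b ha hb g
      have h1 : ρ (sl i (a * b)) (ρ (sl i g) h) - ρ (sl i g) h =
          (ρ (sl i a) (ρ (sl i (b * g)) h) - ρ (sl i (b * g)) h) +
            (ρ (sl i b) (ρ (sl i g) h) - ρ (sl i g) h) := by
        simp only [← AlgEquiv.mul_apply, ← map_mul]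
        rw [mul_assoc]
        abel
      rw [h1]
      exact v.map_add_lt (ha _) (hb _)
  obtain ⟨N, hN⟩ := Int.eq_ofNat_of_zero_le hpos.le
  have hN0 : 0 < N := by omega
  obtain ⟨t, ht⟩ := exists_pow_ne (k := k) N hN0
  have h1 := hall (dg t) 1
  have h2 : ρ (sl i (dg t)) h = ((t : k) ^ N) • h := by
    rw [← tor_single, hl, chi_single, hN]
    simp
  rw [map_one, map_one, AlgEquiv.one_apply, h2] at h1
  have h3 : ((t : k) ^ N) • h - h = algebraMap k A ((t : k) ^ N - 1) * h := by
    rw [← Algebra.smul_def, sub_smul, one_smul]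
  rw [h3, map_mul] at h1
  have hc : (t : k) ^ N - 1 ≠ 0 := sub_ne_zero.2 ht
  have h4 : v (algebraMap k A ((t : k) ^ N - 1)) = 1 := by
    refine le_antisymm (hk _) ?_
    have h5 : v (algebraMap k A ((t : k) ^ N - 1)) * v (algebraMap k A ((t : k) ^ N - 1)⁻¹) = 1 := by
      rw [← map_mul, ← map_mul, mul_inv_cancel₀ hc, map_one, map_one]
    calc (1 : Γ) = v (algebraMap k A ((t : k) ^ N - 1)) *
          v (algebraMap k A ((t : k) ^ N - 1)⁻¹) := h5.symm
      _ ≤ v (algebraMap k A ((t : k) ^ N - 1)) * 1 := mul_le_mul' le_rfl (hk _)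
      _ = _ := mul_one _
  rw [h4, one_mul] at h1
  exact lt_irrefl _ h1

end Pool.Agent.MP_b525bf_ag_R
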