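import Pool.Agent.Lib.MP_b525bf_ag_R.SPN

/-!
# Row R07: the orbit map of a vector fixed by the unitriangular matrices modulo a stable subspace
-/

set_option autoImplicit false
set_option linter.unusedSimpArgs false

namespace Pool.Agent.MP_b525bf_ag_R

open Matrix.SpecialLinearGroup
open scoped MatrixGroups

section Aux

variable {k : Type} [Field k] {A : Type} [CommRing A] [Algebra k A]

/-- The values of a polynomial function along a polynomial family of matrices. -/
private theorem ev_family (P : MvPolynomial (Fin 2 × Fin 2) A)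
    (q : Matrix (Fin 2) (Fin 2) (Polynomial k)) :
    ∃ (D : ℕ) (d : ℕ → A), ∀ D', D ≤ D' → ∀ (a : k) (g : SL(2, k)),
      (∀ i j, g.1 i j = (q i j).eval a) →
      ev P g = ∑ j ∈ Finset.range (D' + 1), a ^ j • d j := by
  let Q : Polynomial A :=
    MvPolynomial.eval₂ Polynomial.C (fun c => (q c.1 c.2).map (algebraMap k A)) P
  refine ⟨Q.natDegree, Q.coeff, ?_⟩
  intro D' hD a g hg
  have h1 : Q.eval (algebraMap k A a) = ev P g := by
    have h2 := MvPolynomial.eval₂_comp_left (Polynomial.evalRingHom (algebraMap k A a))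
      Polynomial.C (fun c : Fin 2 × Fin 2 => (q c.1 c.2).map (algebraMap k A)) P
    have h3 : (Polynomial.evalRingHom (algebraMap k A a)).comp Polynomial.C = RingHom.id A := by
      ext x
      simp
    rw [h3, MvPolynomial.eval₂_id, Polynomial.coe_evalRingHom] at h2
    change Polynomial.eval (algebraMap k A a) (MvPolynomial.eval₂ Polynomial.C
      (fun c => (q c.1 c.2).map (algebraMap k A)) P) = _
    rw [h2, ev]
    congr 2
    funext c
    rw [Function.comp_apply, Polynomial.eval_map_apply, hg]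
  rw [← h1, Polynomial.eval_eq_sum_range' (Nat.lt_succ_of_le hD)]
  refine Finset.sum_congr rfl fun j _ => ?_
  rw [← map_pow, mul_comm, ← Algebra.smul_def]

private theorem sum_pick {ι : Type} (I : Finset ι) (e : ι → ℤ) (x : ι → A) (S : Finset ℤ)
    (m₀ : ℤ) (b : kˣ →₀ k)
    (hb : ∀ i ∈ S, (b.sum fun t c => c * ((t ^ i : kˣ) : k)) = if i = m₀ then 1 else 0)
    (he : ∀ i ∈ I, e i ∈ S) :
    (b.sum fun t c => c • ∑ i ∈ I, ((t ^ e i : kˣ) : k) • x i) =
      ∑ i ∈ I, if e i = m₀ then x i else 0 := by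
  simp only [Finsupp.sum, Finset.smul_sum, smul_smul]
  rw [Finset.sum_comm]
  refine Finset.sum_congr rfl fun i hi => ?_
  rw [← Finset.sum_smul]
  have := hb (e i) (he i hi)
  rw [Finsupp.sum] at this
  rw [this]
  split_ifs <;> simp

/-- If the values of a Laurent polynomial are in `E`, then so are its coefficients. -/
private theorem coeff_mem [Infinite k] {ι κ : Type} (E : Submodule k A) (J : Finset ι)
    (I : Finset κ) (e : ι → ℤ) (f : κ → ℤ) (x : ι → A) (y : κ → A)
    (h : ∀ a : kˣ, ∑ j ∈ J, ((a ^ e j : kˣ) : k) • x j - ∑ i ∈ I, ((a ^ f i : kˣ) : k) • y i ∈ E)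
    (m₀ : ℤ) :
    (∑ j ∈ J, if e j = m₀ then x j else 0) - (∑ i ∈ I, if f i = m₀ then y i else 0) ∈ E := by
  classical
  obtain ⟨b, hb⟩ := exists_coeff_zpow k (J.image e ∪ I.image f) m₀
  rw [← sum_pick J e x _ m₀ b hb fun i hi => Finset.mem_union_left _ (Finset.mem_image_of_mem e hi),
    ← sum_pick I f y _ m₀ b hb fun i hi => Finset.mem_union_right _ (Finset.mem_image_of_mem f hi)]
  rw [Finsupp.sum, Finsupp.sum, ← Finset.sum_sub_distrib]
  refine Submodule.sum_mem _ fun a _ => ?_
  rw [← smul_sub]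
  exact E.smul_mem _ (h a)

private theorem factor (g : SL(2, k)) (t : kˣ) (ht : g.1 0 0 = t) :
    g = lo (g.1 1 0 / t) * dg t * up (g.1 0 1 / t) := by
  have h0 : (t : k) ≠ 0 := t.ne_zero
  have hd := det_eq g
  rw [ht] at hd
  refine ext4 ?_ ?_ ?_ ?_
  · simp [mul00, mul01, mul10, mul11, ht]
  · simp [mul00, mul01, mul10, mul11]
    field_simp
  · simp [mul00, mul01, mul10, mul11]
  · simp [mul00, mul01, mul10, mul11]
    field_simp
    linear_combination hd

end Aux

/-- Let `SL_2` act rationally on `A`, let `E` be a stable subspace, `w ∉ E` of weight `n` under the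
diagonal torus and fixed by the upper unitriangular matrices modulo `E`. Then `n ≥ 0`, and modulo
`E` the orbit map is `g w = ∑_{i ≤ n} g00^(n-i) g10^i c i`, where the `c i` are the coefficients of
`lo(s) w = ∑ s^i c i`.

Proof. Let `ρ g w = ev P g`. `ev P (lo s)` is a polynomial in `s`; the coefficients `c i` are
`(b i).sum fun s a => a • ρ (lo s) w` for the `b i` of `exists_coeff_pow` (choose `M` at least the
total degree of `P` and at least `n`), and `c i = 0` for `i > M`, `b i = 0`. If `g00 ≠ 0` then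
`g = lo(g10/g00) dg(g00) up(g01/g00)`, so `ρ g w ≡ g00^n ∑_{i ≤ M} (g10/g00)^i c i` modulo `E`
(`E` is stable, so `ρ g w ≡ ρ (lo _ * dg _) w`). Apply this to `g = !![a, -1; 1, 0]`, `a ≠ 0`:
`ev P g = ∑ a^j d j` is a polynomial in `a`, so `∑_j a^j d j - ∑_{i ≤ M} a^(n-i) c i ∈ E` for all
`a : kˣ`; by `exists_coeff_zpow` the coefficient of `a^(n-i)` is in `E`, that is `c i ∈ E` whenever
`n - i < 0` (in that case only the second sum contributes). With `i = 0`, `c 0 = w ∉ E` this gives
`n ≥ 0`. So the formula holds if `g00 ≠ 0`. If `g00 = 0` then `g10 ≠ 0`; consider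
`g_a = !![a, (a * d - 1) / c; c, d]` with `c = g10`, `d = g11`: `ρ (g_a) w - ∑_{i ≤ n} a^(n-i) c^i c i`
is a polynomial in `a` with values in `E` for all `a ≠ 0`, so its coefficients are in `E`
(`exists_coeff_zpow` again), and the value at `a = 0` is in `E`. -/
theorem exists_orbit_formula {k : Type} [Field k] [Infinite k] {A : Type} [CommRing A]
    [Algebra k A] (ρ : SL(2, k) →* (A ≃ₐ[k] A)) (hρ : IsRat ρ) (E : Submodule k A)
    (hE : ∀ g, ∀ e ∈ E, ρ g e ∈ E) (w : A) (hw : w ∉ E) (n : ℤ)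
    (hn : ∀ t : kˣ, ρ (dg t) w = ((t ^ n : kˣ) : k) • w) (hu : ∀ s, ρ (up s) w - w ∈ E) :
    ∃ (n' M : ℕ) (c : ℕ → A) (b : ℕ → (k →₀ k)), n = n' ∧ n' ≤ M ∧
      (∀ i, c i = (b i).sum fun s a => a • ρ (lo s) w) ∧ c 0 = w ∧
      (∀ s, ρ (lo s) w = ∑ i ∈ Finset.range (M + 1), s ^ i • c i) ∧
      ∀ g, ρ g w - ∑ i ∈ Finset.range (n' + 1), (g.1 0 0 ^ (n' - i) * g.1 1 0 ^ i) • c i ∈ E := by
  classical
  obtain ⟨P, hP⟩ := hρ w
  -- the coefficients
  obtain ⟨D, d, hd⟩ := ev_family P (!![1, 0; Polynomial.X, 1] : Matrix (Fin 2) (Fin 2) (Polynomial k))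
  set M : ℕ := max D n.toNat with hM
  have hb : ∀ i, ∃ b : k →₀ k, i ≤ M →
      ∀ i' ≤ M, (b.sum fun s c => c * s ^ i') = if i' = i then 1 else 0 := by
    intro i
    by_cases hi : i ≤ M
    · obtain ⟨b, hb⟩ := exists_coeff_pow k M i hi
      exact ⟨b, fun _ => hb⟩
    · exact ⟨0, fun h => absurd h hi⟩
  choose b hb using hb
  set c : ℕ → A := fun i => (b i).sum fun s a => a • ρ (lo s) w with hc
  have hlo' : ∀ s, ρ (lo s) w = ∑ i ∈ Finset.range (M + 1), s ^ i • d i := by
    intro s
    rw [hP]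
    refine hd M (le_max_left _ _) s (lo s) ?_
    intro i j
    fin_cases i <;> fin_cases j <;> simp
  have hcd : ∀ i ∈ Finset.range (M + 1), c i = d i := by
    intro i hi
    have hi' : i ≤ M := Nat.lt_succ_iff.1 (Finset.mem_range.1 hi)
    exact sum_smul_eq_coeff (fun (i : ℕ) (s : k) => s ^ i) (Finset.range (M + 1)) i hi (b i)
      (fun i' h' => hb i hi' i' (Nat.lt_succ_iff.1 (Finset.mem_range.1 h')))
      (fun s => ρ (lo s) w) d hlo'
  have hlo : ∀ s, ρ (lo s) w = ∑ i ∈ Finset.range (M + 1), s ^ i • c i := by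
    intro s
    rw [hlo']
    exact Finset.sum_congr rfl fun i hi => by rw [hcd i hi]
  have hc0 : c 0 = w := by
    have h1 := hlo 0
    rw [lo_zero, map_one, AlgEquiv.one_apply, Finset.sum_range_succ'] at h1
    simpa using h1.symm
  -- the formula on the big cell
  have hcell : ∀ (g : SL(2, k)) (t : kˣ), g.1 0 0 = t →
      ρ g w - ∑ i ∈ Finset.range (M + 1), (((t ^ (n - i) : kˣ) : k) * g.1 1 0 ^ i) • c i ∈ E := by
    intro g t ht
    have h1 : ρ g w = ρ (lo (g.1 1 0 / t) * dg t) (ρ (up (g.1 0 1 / t)) w - w) +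
        ((t ^ n : kˣ) : k) • ρ (lo (g.1 1 0 / t)) w := by
      have h2 : ρ g w = ρ (lo (g.1 1 0 / t) * dg t) (ρ (up (g.1 0 1 / t)) w) := by
        conv_lhs => rw [factor g t ht]
        rw [map_mul, AlgEquiv.mul_apply]
      rw [h2, map_sub, map_mul ρ (lo (g.1 1 0 / t)), AlgEquiv.mul_apply, AlgEquiv.mul_apply, hn,
        map_smul]
      abel
    have h3 : ((t ^ n : kˣ) : k) • ρ (lo (g.1 1 0 / t)) w =
        ∑ i ∈ Finset.range (M + 1), (((t ^ (n - i) : kˣ) : k) * g.1 1 0 ^ i) • c i := by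
      rw [hlo, Finset.smul_sum]
      refine Finset.sum_congr rfl fun i _ => ?_
      rw [smul_smul]
      congr 1
      rw [zpow_sub, zpow_natCast, Units.val_mul, div_pow, ← Units.val_pow_eq_pow_val]
      simp only [Units.val_inv_eq_inv_val]
      ring
    rw [h1, h3, add_sub_cancel_right]
    exact hE _ _ (hu _)
  -- the coefficients with negative exponents are in `E`
  have hneg : ∀ i₀ ∈ Finset.range (M + 1), n < i₀ → c i₀ ∈ E := by
    intro i₀ hi₀ hlt
    obtain ⟨D₂, d₂, hd₂⟩ := ev_family P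
      (!![Polynomial.X, -1; 1, 0] : Matrix (Fin 2) (Fin 2) (Polynomial k))
    have h1 := coeff_mem E (Finset.range (D₂ + 1)) (Finset.range (M + 1)) (fun j => (j : ℤ))
      (fun i => n - i) d₂ c (by
        intro a
        have h2 := hcell ⟨!![(a : k), -1; 1, 0], by simp [Matrix.det_fin_two_of]⟩ a rfl
        rw [hP, hd₂ D₂ le_rfl (a : k) _ (by
          intro i j
          fin_cases i <;> fin_cases j <;> simp)] at h2
        convert h2 using 3
        · rw [zpow_natCast, Units.val_pow_eq_pow_val]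
        · simp) (n - i₀)
    have h2 : (∑ j ∈ Finset.range (D₂ + 1), if (j : ℤ) = n - i₀ then d₂ j else 0) = 0 := by
      refine Finset.sum_eq_zero fun j _ => ?_
      rw [if_neg]
      omega
    have h3 : (∑ i ∈ Finset.range (M + 1), if n - (i : ℤ) = n - i₀ then c i else 0) = c i₀ := by
      rw [Finset.sum_eq_single_of_mem i₀ hi₀]
      · rw [if_pos rfl]
      · intro i _ hi
        rw [if_neg]
        omega
    rw [h2, h3, zero_sub] at h1
    simpa using E.neg_mem h1
  have hn0 : 0 ≤ n := by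
    by_contra hcon
    exact hw (hc0 ▸ hneg 0 (Finset.mem_range.2 (Nat.succ_pos M)) (by simpa using hcon))
  obtain ⟨n', rfl⟩ := Int.eq_ofNat_of_zero_le hn0
  have hn'M : n' ≤ M := le_trans (by simp) (le_max_right _ _)
  -- the formula on the big cell, with nonnegative exponents
  have hcell' : ∀ (g : SL(2, k)) (t : kˣ), g.1 0 0 = t →
      ρ g w - ∑ i ∈ Finset.range (n' + 1), ((t : k) ^ (n' - i) * g.1 1 0 ^ i) • c i ∈ E := by
    intro g t ht
    have h1 := hcell g t ht
    have h2 : ∑ i ∈ Finset.range (M + 1), (((t ^ ((n' : ℤ) - i) : kˣ) : k) * g.1 1 0 ^ i) • c i =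
        ∑ i ∈ Finset.range (n' + 1), ((t : k) ^ (n' - i) * g.1 1 0 ^ i) • c i +
        ∑ i ∈ Finset.Ico (n' + 1) (M + 1),
          (((t ^ ((n' : ℤ) - i) : kˣ) : k) * g.1 1 0 ^ i) • c i := by
      rw [Finset.range_eq_Ico, ← Finset.sum_Ico_consecutive _ (Nat.zero_le (n' + 1))
        (Nat.succ_le_succ hn'M)]
      congr 1
      rw [Finset.range_eq_Ico]
      refine Finset.sum_congr rfl fun i hi => ?_
      have hi' : i ≤ n' := by
        have := (Finset.mem_Ico.1 hi).2
        omega
      have h3 : (n' : ℤ) - i = ((n' - i : ℕ) : ℤ) := by omega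
      rw [h3, zpow_natCast, Units.val_pow_eq_pow_val]
    rw [h2, ← sub_sub] at h1
    have h3 : ∑ i ∈ Finset.Ico (n' + 1) (M + 1),
        (((t ^ ((n' : ℤ) - i) : kˣ) : k) * g.1 1 0 ^ i) • c i ∈ E := by
      refine Submodule.sum_mem _ fun i hi => E.smul_mem _ (hneg i ?_ ?_)
      · have := (Finset.mem_Ico.1 hi).2
        exact Finset.mem_range.2 this
      · have := (Finset.mem_Ico.1 hi).1
        exact_mod_cast this
    have h4 := E.add_mem h1 h3
    rwa [sub_add_cancel] at h4
  refine ⟨n', M, c, b, rfl, hn'M, fun i => rfl, hc0, hlo, ?_⟩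
  intro g
  by_cases h0 : g.1 0 0 = 0
  · have hdet := det_eq g
    rw [h0, zero_mul, zero_sub] at hdet
    have h10 : g.1 1 0 ≠ 0 := by
      intro h
      rw [h, mul_zero, neg_zero] at hdet
      exact zero_ne_one hdet
    obtain ⟨D₃, d₃, hd₃⟩ := ev_family P
      (!![Polynomial.X, (Polynomial.X * Polynomial.C (g.1 1 1) - 1) * Polynomial.C (g.1 1 0)⁻¹;
        Polynomial.C (g.1 1 0), Polynomial.C (g.1 1 1)] :
        Matrix (Fin 2) (Fin 2) (Polynomial k))
    have h1 := coeff_mem E (Finset.range (D₃ + 1)) (Finset.range (n' + 1)) (fun j => (j : ℤ))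
      (fun i => (n' : ℤ) - i) d₃ (fun i => g.1 1 0 ^ i • c i) (by
        intro a
        have h2 := hcell' ⟨!![(a : k), (a * g.1 1 1 - 1) * (g.1 1 0)⁻¹; g.1 1 0, g.1 1 1], by
          rw [Matrix.det_fin_two_of]
          field_simp
          ring⟩ a rfl
        rw [hP, hd₃ D₃ le_rfl (a : k) _ (by
          intro i j
          fin_cases i <;> fin_cases j
          · simp
          · simp [Polynomial.eval_mul, Polynomial.eval_sub]
            try exact Or.inl (mul_comm _ _)
          · simp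
          · simp)] at h2
        have e1 : ∑ j ∈ Finset.range (D₃ + 1), ((a ^ (j : ℤ) : kˣ) : k) • d₃ j =
            ∑ j ∈ Finset.range (D₃ + 1), (a : k) ^ j • d₃ j :=
          Finset.sum_congr rfl fun j _ => by rw [zpow_natCast, Units.val_pow_eq_pow_val]
        have e2 : ∑ i ∈ Finset.range (n' + 1), ((a ^ ((n' : ℤ) - i) : kˣ) : k) •
            (g.1 1 0 ^ i • c i) =
            ∑ i ∈ Finset.range (n' + 1), ((a : k) ^ (n' - i) * g.1 1 0 ^ i) • c i := by
          refine Finset.sum_congr rfl fun i hi => ?_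
          have hi' : i ≤ n' := Nat.lt_succ_iff.1 (Finset.mem_range.1 hi)
          have h3 : (n' : ℤ) - i = ((n' - i : ℕ) : ℤ) := by omega
          rw [h3, zpow_natCast, Units.val_pow_eq_pow_val, smul_smul]
        rw [e1, e2]
        exact h2) 0
    have h2 : ρ g w = ∑ j ∈ Finset.range (D₃ + 1), if (j : ℤ) = 0 then d₃ j else 0 := by
      rw [hP, hd₃ D₃ le_rfl 0 g (by
        intro i j
        fin_cases i <;> fin_cases j
        · simpa using h0
        · simp
          field_simp
          linear_combination -hdet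
        · simp
        · simp)]
      refine Finset.sum_congr rfl fun j _ => ?_
      by_cases hj : j = 0
      · subst hj
        simp
      · rw [if_neg (by exact_mod_cast hj), zero_pow hj, zero_smul]
    have h3 : ∑ i ∈ Finset.range (n' + 1), (g.1 0 0 ^ (n' - i) * g.1 1 0 ^ i) • c i =
        ∑ i ∈ Finset.range (n' + 1), if (n' : ℤ) - i = 0 then g.1 1 0 ^ i • c i else 0 := by
      refine Finset.sum_congr rfl fun i hi => ?_
      have hi' : i ≤ n' := Nat.lt_succ_iff.1 (Finset.mem_range.1 hi)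
      rw [h0]
      by_cases hi2 : i = n'
      · subst hi2
        simp
      · rw [if_neg (by omega), zero_pow (by omega), zero_mul, zero_smul]
    rw [h2, h3]
    exact h1
  · exact hcell' g (Units.mk0 _ h0) rfl

end Pool.Agent.MP_b525bf_ag_R
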