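import Pool.Agent.Lib.MP_b525bf_ag_R.FIX
import Pool.Agent.Lib.MP_b525bf_ag_R.STA

/-!
# Row R23: highest weight vectors
-/

set_option autoImplicit false

namespace Pool.Agent.MP_b525bf_ag_R

open Matrix.SpecialLinearGroup
open scoped MatrixGroups

/-- There is an element which is not a root of unity of a given order. -/
private theorem exists_pow_ne {k : Type} [Field k] [Infinite k] (N : ℕ) (hN : 0 < N) :
    ∃ t : k, t ≠ 0 ∧ t ^ N ≠ 1 := by
  by_contra hcon
  push Not at hcon
  have h1 : (Polynomial.X ^ (N + 1) - Polynomial.X : Polynomial k) = 0 := by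
    refine Polynomial.funext fun t => ?_
    rw [Polynomial.eval_sub, Polynomial.eval_pow, Polynomial.eval_X, Polynomial.eval_zero]
    by_cases ht : t = 0
    · subst ht
      simp
    · rw [pow_succ, hcon t ht, one_mul, sub_self]
  have h2 := congrArg (fun P => Polynomial.coeff P (N + 1)) h1
  simp only [Polynomial.coeff_sub, Polynomial.coeff_X_pow, Polynomial.coeff_X,
    Polynomial.coeff_zero] at h2
  rw [if_neg (show ¬ (1 = N + 1) by omega)] at h2
  simp at h2

/-- Row R23. If the factor `i` acts nontrivially, there is a weight vector, invariant under all the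
unitriangular matrices, with positive weight under the torus of the factor `i`.

Proof. `E = {a | ∀ g, ρ (sl i g) a = a}` is a stable subspace (`sl_normal`), `E ≠ A`. Take `w ∉ E`
from `exists_fixed_mod`, of weight `l`, `n = l i`. `exists_orbit_formula` for the factor `i`, `E`:
`n ≥ 0`. If `n = 0` the formula says `ρ (sl i g) w - w ∈ E` for all `g`; the map
`g ↦ ρ (sl i g) w - w` is a homomorphism from `SL_2(k)` to the additive group `A` (the elements of
`E` are fixed by the factor `i`), so it is trivial (`Matrix.SL2.commutator_eq_top`) and `w ∈ E`,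
contradiction. So `n > 0`. `w` is invariant: for the factor `i' ≠ i`,
`x = ρ (sl i' (up s)) w - w ∈ E` has weight `n` under `sl i (dg t)` (`sl_comm`), and as an element of
`E` it is fixed by it, so `(t ^ n - 1) x = 0` for all `t` and `x = 0`. For the factor `i`:
`ρ (sl i (up s)) w = ∑ s ^ j c j` (`exists_up`), `c 0 = w`; the `c j`, `j ≥ 1`, are in `E`
(coefficients of `ρ (sl i (up s)) w - w ∈ E`), and have weight `n + 2 j` under `sl i (dg t)`
(`dg_mul_up`, compare coefficients), so they are `0`. -/
theorem exists_highest {k : Type} [Field k] [Infinite k] {m r : ℕ} {A : Type} [CommRing A]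
    [IsDomain A] [Algebra k A] (ρ : SLT k m r →* (A ≃ₐ[k] A)) (hρ : IsRational ρ) (i : Fin m)
    (hi : ∃ g a, ρ (sl i g) a ≠ a) :
    ∃ h : A, h ≠ 0 ∧ IsU ρ h ∧ ∃ l, IsWt ρ l h ∧ 0 < l (Sum.inl i) := by
  classical
  have hρmul : ∀ (g h : SLT k m r) (a : A), ρ g (ρ h a) = ρ (g * h) a := by
    intro g h a
    rw [map_mul]
    rfl
  -- the invariants of the factor
  let E : Submodule k A :=
    { carrier := {a | ∀ g, ρ (sl i g) a = a}
      add_mem' := by
        intro a b ha hb g
        rw [map_add, ha g, hb g]
      zero_mem' := by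
        intro g
        exact map_zero _
      smul_mem' := by
        intro c a ha g
        rw [map_smul, ha g] }
  have hEmem : ∀ a, a ∈ E ↔ ∀ g, ρ (sl i g) a = a := fun a => Iff.rfl
  have hE : ∀ g, ∀ e ∈ E, ρ g e ∈ E := by
    intro x e he
    rw [hEmem]
    intro g
    rw [hρmul, sl_normal, ← hρmul, he]
  obtain ⟨g0, a0, hg0⟩ := hi
  have ha0 : a0 ∉ E := fun h => hg0 (h g0)
  obtain ⟨w, -, hwE, hwu, l, hwl⟩ := exists_fixed_mod ρ hρ E hE a0 ha0
  set n : ℤ := l (Sum.inl i) with hn
  have hwt : ∀ t : kˣ, ρ (sl i (dg t)) w = ((t ^ n : kˣ) : k) • w := by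
    intro t
    rw [← tor_single (m := m) (r := r) t i, hwl, chi_single]
  obtain ⟨n', M, c, b, hn', hM, hc, hc0, hlo, hform⟩ :=
    exists_orbit_formula (ρ.comp (sl i)) (isRat_sl ρ hρ i) E (fun g e he => hE _ e he) w hwE n
      hwt (fun s => hwu i s)
  have hpos : 0 < n' := by
    rcases Nat.eq_zero_or_pos n' with h0 | h0
    · exfalso
      subst h0
      have hmem : ∀ g, ρ (sl i g) w - w ∈ E := by
        intro g
        have := hform g
        simpa [hc0] using this
      let f : SL(2, k) →* Multiplicative A :=
        { toFun := fun g => Multiplicative.ofAdd (ρ (sl i g) w - w)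
          map_one' := by
            simp
          map_mul' := by
            intro g h
            rw [← ofAdd_add]
            congr 1
            have h1 := (hEmem _).1 (hmem h) g
            rw [map_sub, hρmul, ← map_mul] at h1
            calc ρ (sl i (g * h)) w - w
                = (ρ (sl i (g * h)) w - ρ (sl i g) w) + (ρ (sl i g) w - w) := by ring
              _ = (ρ (sl i h) w - w) + (ρ (sl i g) w - w) := by rw [h1]
              _ = _ := by ring }
      obtain ⟨t, ht, ht2⟩ := exists_pow_ne (k := k) 2 (by norm_num)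
      have hcomm : commutator (SL(2, k)) = ⊤ :=
        Matrix.SL2.commutator_eq_top ht ht2
      have hker : commutator (SL(2, k)) ≤ f.ker := Abelianization.commutator_subset_ker f
      rw [hcomm, top_le_iff] at hker
      refine hwE ((hEmem _).2 fun g => ?_)
      have h1 : f g = 1 := by
        rw [← MonoidHom.mem_ker, hker]
        exact Subgroup.mem_top _
      have h2 : ρ (sl i g) w - w = 0 := by
        have := congrArg Multiplicative.toAdd h1
        simpa [f] using this
      exact sub_eq_zero.mp h2
    · exact h0
  -- elements of `E` of positive weight are zero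
  have hzero : ∀ (N : ℕ) (x : A), 0 < N → x ∈ E →
      (∀ t : kˣ, ρ (sl i (dg t)) x = ((t : k) ^ N) • x) → x = 0 := by
    intro N x hN hx hxt
    obtain ⟨t, ht, htN⟩ := exists_pow_ne (k := k) N hN
    have h1 := hxt (Units.mk0 t ht)
    rw [(hEmem x).1 hx (dg (Units.mk0 t ht)), Units.val_mk0] at h1
    have h2 : (t ^ N - 1) • x = 0 := by
      rw [sub_smul, one_smul, ← h1, sub_self]
    rcases smul_eq_zero.mp h2 with h3 | h3
    · exact absurd (sub_eq_zero.mp h3) htN
    · exact h3
  have hwt' : ∀ t : kˣ, ρ (sl i (dg t)) w = ((t : k) ^ n') • w := by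
    intro t
    rw [hwt, hn']
    simp
  have hU : IsU ρ w := by
    intro j s
    by_cases hj : j = i
    · subst hj
      obtain ⟨N, d, b', hd, hd0, hds⟩ := exists_up (ρ.comp (sl j)) (isRat_sl ρ hρ j) w
      have hds' : ∀ s, ρ (sl j (up s)) w = ∑ i ∈ Finset.range (N + 1), s ^ i • d i := hds
      have hdz : ∀ q ∈ Finset.range (N + 1), q ≠ 0 → d q = 0 := by
        intro q hq hq0
        have hqN : q ≤ N := by
          have := Finset.mem_range.mp hq
          omega
        obtain ⟨β, hβ⟩ := exists_coeff_pow k N q hqN
        have hβ' : ∀ i ∈ Finset.range (N + 1),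
            (β.sum fun x c => c * (fun (i : ℕ) (x : k) => x ^ i) i x) = if i = q then 1 else 0 :=
          fun i hi => hβ i (by have := Finset.mem_range.mp hi; omega)
        have h1 : (β.sum fun x a => a • ρ (sl j (up x)) w) = d q :=
          sum_smul_eq_coeff (fun (i : ℕ) (x : k) => x ^ i) (Finset.range (N + 1)) q hq β hβ'
            (fun x => ρ (sl j (up x)) w) d hds'
        have hdE : d q ∈ E := by
          have h2 : (β.sum fun x c => c * x ^ 0) = 0 := by
            rw [hβ 0 (Nat.zero_le _), if_neg (Ne.symm hq0)]
          have h3 : d q = β.sum fun x a => a • (ρ (sl j (up x)) w - w) := by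
            rw [← h1]
            simp only [Finsupp.sum, smul_sub, Finset.sum_sub_distrib]
            rw [← Finset.sum_smul]
            have h4 : (∑ x ∈ β.support, β x) = 0 := by
              rw [← h2]
              simp [Finsupp.sum]
            rw [h4, zero_smul, sub_zero]
          rw [h3]
          exact Submodule.sum_mem _ fun x _ => E.smul_mem _ (hwu j x)
        refine hzero (n' + 2 * q) (d q) (by omega) hdE ?_
        intro t
        have h5 : ∀ x : k, ρ (sl j (dg t)) (ρ (sl j (up x)) w) =
            ∑ i ∈ Finset.range (N + 1), x ^ i • ((((t : k) ^ n') * ((t : k) ^ 2) ^ i) • d i) := by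
          intro x
          have h6 : ρ (sl j (dg t)) (ρ (sl j (up x)) w) =
              ρ (sl j (up ((t : k) ^ 2 * x))) (ρ (sl j (dg t)) w) := by
            rw [hρmul, hρmul, ← map_mul, ← map_mul, dg_mul_up]
          rw [h6, hwt', map_smul, hds', Finset.smul_sum]
          refine Finset.sum_congr rfl fun i _ => ?_
          rw [smul_smul, smul_smul]
          congr 1
          ring
        have h7 := sum_smul_eq_coeff (fun (i : ℕ) (x : k) => x ^ i) (Finset.range (N + 1)) q hq β
          hβ' (fun x => ρ (sl j (dg t)) (ρ (sl j (up x)) w))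
          (fun i => (((t : k) ^ n') * ((t : k) ^ 2) ^ i) • d i) h5
        have h8 : (β.sum fun x a => a • ρ (sl j (dg t)) (ρ (sl j (up x)) w)) =
            ρ (sl j (dg t)) (d q) := by
          rw [← h1]
          simp only [Finsupp.sum, map_sum, map_smul]
        rw [← h8, h7]
        congr 1
        ring
      rw [hds' s, Finset.sum_eq_single 0]
      · rw [pow_zero, one_smul, hd0]
      · intro q hq hq0
        rw [hdz q hq hq0, smul_zero]
      · intro h
        exact absurd (Finset.mem_range.mpr (Nat.succ_pos N)) h
    · have h1 : ρ (sl j (up s)) w - w = 0 := by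
        refine hzero n' _ hpos (hwu j s) ?_
        intro t
        rw [map_sub, sl_comm ρ (Ne.symm hj), hwt', map_smul, smul_sub]
      exact sub_eq_zero.mp h1
  refine ⟨w, fun h => hwE (h ▸ E.zero_mem), hU, l, hwl, ?_⟩
  rw [← hn, hn']
  exact_mod_cast hpos

end Pool.Agent.MP_b525bf_ag_R
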