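import Pool.Agent.Lib.MP_b525bf_ag_R.TWT

/-!
# Row R19: many conjugates
-/

set_option autoImplicit false

namespace Pool.Agent.MP_b525bf_ag_R

open Matrix.SpecialLinearGroup
open scoped MatrixGroups

namespace R19

private theorem smul_le {k A Γ : Type} [Field k] [CommRing A] [Algebra k A]
    [LinearOrderedCommGroupWithZero Γ] (v : Valuation A Γ)
    (hk : ∀ c : k, v (algebraMap k A c) ≤ 1) (c : k) (a : A) : v (c • a) ≤ v a := by
  rw [Algebra.smul_def, map_mul]
  exact mul_le_of_le_one_left' (hk c)

end R19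

/-- Row R19. If one element of the group of the `up s` moves `f` (for the valuation), many pairs of
elements do.

Proof. `ρ (up s) f = Q(s) = ∑_{j ≤ N} s ^ j • c j` (`exists_up`), `c 0 = f`, `v (c j) ≤ v f` since
`c j` is a linear combination of the `ρ (up s) f`. For a given `s₁` the set `T` of the `s` with
`v (Q(s) - Q(s₁)) < v f` is finite: otherwise `exists_coeff_pow_on` for `T` shows that all `c j`,
`j ≥ 1`, are linear combinations of the `Q(s) - Q(s₁)`, `s ∈ T` (the coefficient `j ≥ 1` of the
constant `Q(s₁)` is `0`), so `v (c j) < v f` for `j ≥ 1`, and then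
`v (Q(s₀) - f) = v (∑_{j ≥ 1} s₀ ^ j • c j) < v f`, against `h₀`. So the `s i` can be chosen one after
the other (induction on `n`, `Fin.snoc`); the field is infinite; `v (Q(s) - Q(s₁)) ≤ v f` always. -/
theorem exists_many_up {k : Type} [Field k] [Infinite k] {A : Type} [CommRing A] [Algebra k A]
    (ρ : SL(2, k) →* (A ≃ₐ[k] A)) (hρ : IsRat ρ) {Γ : Type} [LinearOrderedCommGroupWithZero Γ]
    (v : Valuation A Γ) (hk : ∀ c : k, v (algebraMap k A c) ≤ 1) (hv : ∀ g a, v (ρ g a) = v a)
    (f : A) (hf : v f ≠ 0) (s₀ : k) (h₀ : v (ρ (up s₀) f - f) = v f) (n : ℕ) :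
    ∃ s : Fin n → k, ∀ i j, i ≠ j → v (ρ (up (s i)) f - ρ (up (s j)) f) = v f := by
  classical
  obtain ⟨N, c, b, -, hc0, hc⟩ := exists_up ρ hρ f
  -- the set of parameters which do not move much is finite
  have hfin : ∀ s₁ : k, {s : k | v (ρ (up s) f - ρ (up s₁) f) < v f}.Finite := by
    intro s₁
    by_contra hT
    have hj : ∀ j ∈ Finset.range (N + 1), j ≠ 0 → v (c j) < v f := by
      intro j hjN hj0
      obtain ⟨b', hb'T, hb'⟩ := exists_coeff_pow_on {s : k | v (ρ (up s) f - ρ (up s₁) f) < v f}
        hT N j (by rw [Finset.mem_range] at hjN; omega)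
      have h1 : (b'.sum fun s x => x • ρ (up s) f) = c j := by
        refine sum_smul_eq_coeff (fun (i : ℕ) (s : k) => s ^ i) (Finset.range (N + 1)) j hjN b' ?_ _ c hc
        intro i hi
        rw [Finset.mem_range] at hi
        exact hb' i (by omega)
      have h2 : (b'.sum fun _ x => x) = 0 := by
        have h3 := hb' 0 (Nat.zero_le _)
        rw [if_neg (Ne.symm hj0)] at h3
        simpa using h3
      have h4 : c j = ∑ s ∈ b'.support, b' s • (ρ (up s) f - ρ (up s₁) f) := by
        have h5 : ∑ s ∈ b'.support, b' s • ρ (up s₁) f = 0 := by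
          rw [← Finset.sum_smul]
          have h6 : ∑ s ∈ b'.support, b' s = 0 := h2
          rw [h6, zero_smul]
        rw [← h1]
        simp only [smul_sub, Finset.sum_sub_distrib]
        rw [h5, sub_zero]
        rfl
      rw [h4]
      refine v.map_sum_lt hf fun s hs => ?_
      exact lt_of_le_of_lt (R19.smul_le v hk _ _) (hb'T (Finset.mem_coe.2 hs))
    have h7 : ρ (up s₀) f - f = ∑ i ∈ Finset.range N, s₀ ^ (i + 1) • c (i + 1) := by
      rw [hc s₀, Finset.sum_range_succ', pow_zero, one_smul, hc0, add_sub_cancel_right]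
    have h8 : v (ρ (up s₀) f - f) < v f := by
      rw [h7]
      refine v.map_sum_lt hf fun i hi => ?_
      rw [Finset.mem_range] at hi
      exact lt_of_le_of_lt (R19.smul_le v hk _ _)
        (hj (i + 1) (Finset.mem_range.2 (by omega)) (by omega))
    exact absurd h₀ h8.ne
  have hle : ∀ s s₁ : k, v (ρ (up s) f - ρ (up s₁) f) ≤ v f := by
    intro s s₁
    refine (v.map_sub _ _).trans (max_le ?_ ?_)
    · rw [hv]
    · rw [hv]
  induction n with
  | zero => exact ⟨Fin.elim0, fun i => i.elim0⟩
  | succ n ih =>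
    obtain ⟨s, hs⟩ := ih
    have hU : (⋃ i : Fin n, {x : k | v (ρ (up x) f - ρ (up (s i)) f) < v f}).Finite :=
      Set.finite_iUnion fun i => hfin (s i)
    obtain ⟨x, hx⟩ := hU.infinite_compl.nonempty
    have hx' : ∀ i, v (ρ (up x) f - ρ (up (s i)) f) = v f := by
      intro i
      refine le_antisymm (hle _ _) (not_lt.1 fun h => hx (Set.mem_iUnion.2 ⟨i, h⟩))
    refine ⟨Fin.snoc s x, ?_⟩
    intro i j
    refine Fin.lastCases ?_ (fun i => ?_) i
    · refine Fin.lastCases ?_ (fun j => ?_) j
      · intro h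
        exact absurd rfl h
      · intro _
        rw [Fin.snoc_last, Fin.snoc_castSucc]
        exact hx' j
    · refine Fin.lastCases ?_ (fun j => ?_) j
      · intro _
        rw [Fin.snoc_last, Fin.snoc_castSucc, v.map_sub_swap]
        exact hx' i
      · intro h
        rw [Fin.snoc_castSucc, Fin.snoc_castSucc]
        exact hs i j (fun e => h (by rw [e]))

end Pool.Agent.MP_b525bf_ag_R
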