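import Pool.Agent.Lib.MP_b525bf_ag_R.SPN

/-!
# Row R21: the transcendence degree over the invariants of the additive group is at most one
-/

set_option autoImplicit false

namespace Pool.Agent.MP_b525bf_ag_R

variable {k : Type} [Field k] {A : Type} [CommRing A] [Algebra k A]

private def PdL (u : k → (A ≃ₐ[k] A)) (d : ℕ) (x : A) : Prop :=
  ∃ P : Polynomial A, P.natDegree ≤ d ∧ ∀ s, u s x = P.eval (algebraMap k A s)

private theorem PdL.mono {u : k → (A ≃ₐ[k] A)} {d e : ℕ} (hde : d ≤ e) {x : A} (h : PdL u d x) :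
    PdL u e x := by
  obtain ⟨P, hP, h⟩ := h
  exact ⟨P, hP.trans hde, h⟩

private theorem PdL.mul {u : k → (A ≃ₐ[k] A)} {d e : ℕ} {x y : A} (hx : PdL u d x)
    (hy : PdL u e y) : PdL u (d + e) (x * y) := by
  obtain ⟨P, hP, h⟩ := hx
  obtain ⟨Q, hQ, h'⟩ := hy
  refine ⟨P * Q, Polynomial.natDegree_mul_le.trans (add_le_add hP hQ), fun s => ?_⟩
  rw [map_mul, h, h', Polynomial.eval_mul]

private theorem PdL.pow {u : k → (A ≃ₐ[k] A)} {d : ℕ} {x : A} (hx : PdL u d x) (n : ℕ) :
    PdL u (n * d) (x ^ n) := by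
  induction n with
  | zero => exact ⟨1, by simp, fun s => by simp⟩
  | succ n ih =>
    rw [pow_succ, Nat.succ_mul]
    exact ih.mul hx

section Main

variable [Infinite k] [IsDomain A] (u : k → (A ≃ₐ[k] A))
  (hadd : ∀ s s' a, u (s + s') a = u s (u s' a)) (D D' : Subalgebra k A)
  (hD : ∀ s, ∀ a ∈ D, u s a ∈ D) (hD' : ∀ a, a ∈ D' ↔ a ∈ D ∧ ∀ s, u s a = a)

omit [Infinite k] [IsDomain A] in
include hadd in
private theorem u_zeroL (a : A) : u 0 a = a := by
  have h := hadd 0 0 a
  rw [add_zero] at h
  exact ((u 0).injective h).symm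

omit [Infinite k] in
private theorem algebraMap_injL : Function.Injective (algebraMap k A) :=
  (algebraMap k A).injective

private theorem poly_extL {P Q : Polynomial A}
    (h : ∀ s : k, P.eval (algebraMap k A s) = Q.eval (algebraMap k A s)) : P = Q := by
  refine Polynomial.eq_of_infinite_eval_eq P Q ?_
  refine Set.Infinite.mono ?_ (Set.infinite_range_of_injective (algebraMap_injL (k := k) (A := A)))
  rintro _ ⟨s, rfl⟩
  exact h s

include hadd hD hD' in
private theorem coeff_memL {d : ℕ} {x : A} (hx : x ∈ D) (P : Polynomial A) (hP : P.natDegree ≤ d)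
    (h : ∀ s, u s x = P.eval (algebraMap k A s)) : P.coeff d ∈ D' := by
  rw [hD']
  constructor
  · obtain ⟨b, hb⟩ := exists_coeff_pow k d d le_rfl
    have h1 := sum_smul_eq_coeff (fun (i : ℕ) (s : k) => s ^ i) (Finset.range (d + 1)) d
      (Finset.self_mem_range_succ d) b (fun i hi => hb i (Nat.lt_succ_iff.1 (Finset.mem_range.1 hi)))
      (fun s => u s x) (fun i => P.coeff i) (fun s => by
        rw [h, Polynomial.eval_eq_sum_range' (Nat.lt_succ_of_le hP)]
        refine Finset.sum_congr rfl fun i _ => ?_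
        rw [Algebra.smul_def, map_pow, mul_comm])
    rw [← h1]
    exact Subalgebra.sum_mem _ fun s _ => Subalgebra.smul_mem _ (hD s x hx) _
  · intro s'
    have h1 : P.map (u s' : A →+* A) = Polynomial.taylor (algebraMap k A s') P := by
      refine poly_extL (k := k) fun s => ?_
      have h2 : (u s' : A →+* A) (algebraMap k A s) = algebraMap k A s := (u s').commutes s
      conv_lhs => rw [← h2]
      rw [Polynomial.eval_map, Polynomial.eval₂_hom, Polynomial.taylor_eval, ← map_add, add_comm,
        ← h]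
      exact (hadd s' s x).symm.trans (h _)
    rcases hP.lt_or_eq with hlt | rfl
    · rw [Polynomial.coeff_eq_zero_of_natDegree_lt hlt, map_zero]
    · have h4 := congrArg (fun Q : Polynomial A => Q.coeff P.natDegree) h1
      simp only [Polynomial.coeff_map] at h4
      rw [Polynomial.coeff_taylor_natDegree] at h4
      exact h4

include hadd hD hD' in
private theorem exists_relL (d : ℕ) : ∀ x : Fin (d + 2) → A, (∀ i, x i ∈ D ∧ PdL u d (x i)) →
    ∃ a : Fin (d + 2) → A, (∀ i, a i ∈ D') ∧ (∃ i, a i ≠ 0) ∧ ∑ i, a i * x i = 0 := by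
  have hle : D' ≤ D := fun a ha => ((hD' a).1 ha).1
  induction d with
  | zero =>
    intro x hx
    have h1 : ∀ i, x i ∈ D' := by
      intro i
      obtain ⟨hi, P, hP, h⟩ := hx i
      rw [hD']
      refine ⟨hi, fun s => ?_⟩
      have h0 := h 0
      rw [u_zeroL u hadd] at h0
      rw [h s, h0, Polynomial.eq_C_of_natDegree_le_zero hP, Polynomial.eval_C, Polynomial.eval_C]
    by_cases h0 : x 0 = 0
    · refine ⟨![1, 0], ?_, ⟨0, by simp⟩, ?_⟩
      · intro i
        fin_cases i
        · exact D'.one_mem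
        · exact D'.zero_mem
      · simp [Fin.sum_univ_two, h0]
    · refine ⟨![x 1, -x 0], ?_, ⟨1, by simpa using h0⟩, ?_⟩
      · intro i
        fin_cases i
        · exact h1 1
        · exact D'.neg_mem (h1 0)
      · simp [Fin.sum_univ_two]
        ring
  | succ d ih =>
    intro x hx
    choose hxD P hP h using hx
    have hc : ∀ i, (P i).coeff (d + 1) ∈ D' := fun i =>
      coeff_memL u hadd D D' hD hD' (hxD i) (P i) (hP i) (h i)
    by_cases hall : ∀ i, (P i).coeff (d + 1) = 0
    · obtain ⟨a, haD, ⟨i₀, ha0⟩, hsum⟩ := ih (fun i => x i.castSucc) (fun i => ⟨hxD _, P _, by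
        refine Nat.le_of_lt_succ (lt_of_le_of_ne (hP _) fun hne => ?_)
        have h1 := hall i.castSucc
        have hne : (P i.castSucc).natDegree = d + 1 := hne
        rw [← hne] at h1
        have h2 : P i.castSucc = 0 := Polynomial.leadingCoeff_eq_zero.1 h1
        rw [h2, Polynomial.natDegree_zero] at hne
        exact absurd hne (Nat.succ_ne_zero d).symm, h _⟩)
      refine ⟨Fin.snoc (α := fun _ => A) a 0, ?_, ⟨i₀.castSucc, by rwa [Fin.snoc_castSucc]⟩, ?_⟩
      · intro i
        refine Fin.lastCases ?_ (fun i => ?_) i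
        · rw [Fin.snoc_last]
          exact D'.zero_mem
        · rw [Fin.snoc_castSucc]
          exact haD i
      · rw [Fin.sum_univ_castSucc, Fin.snoc_last, zero_mul, add_zero]
        refine Eq.trans (Finset.sum_congr rfl fun i _ => ?_) hsum
        rw [Fin.snoc_castSucc]
    · obtain ⟨i₀, hi₀⟩ := not_forall.1 hall
      have hy : ∀ j : Fin (d + 2), (P i₀).coeff (d + 1) * x (i₀.succAbove j) -
          (P (i₀.succAbove j)).coeff (d + 1) * x i₀ ∈ D ∧ PdL u d ((P i₀).coeff (d + 1) *
            x (i₀.succAbove j) - (P (i₀.succAbove j)).coeff (d + 1) * x i₀) := by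
        intro j
        refine ⟨D.sub_mem (D.mul_mem (hle (hc _)) (hxD _)) (D.mul_mem (hle (hc _)) (hxD _)), ?_⟩
        refine ⟨Polynomial.C ((P i₀).coeff (d + 1)) * P (i₀.succAbove j) -
          Polynomial.C ((P (i₀.succAbove j)).coeff (d + 1)) * P i₀, ?_, fun s => ?_⟩
        · rw [Polynomial.natDegree_le_iff_coeff_eq_zero]
          intro N hN
          rw [Polynomial.coeff_sub, Polynomial.coeff_C_mul, Polynomial.coeff_C_mul]
          rcases (Nat.succ_le_of_lt hN).eq_or_lt with hN | hN
          · rw [← hN]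
            change (P i₀).coeff (d + 1) * (P (i₀.succAbove j)).coeff (d + 1) -
              (P (i₀.succAbove j)).coeff (d + 1) * (P i₀).coeff (d + 1) = 0
            ring
          · rw [Polynomial.coeff_eq_zero_of_natDegree_lt ((hP _).trans_lt hN),
              Polynomial.coeff_eq_zero_of_natDegree_lt ((hP _).trans_lt hN), mul_zero, mul_zero,
              sub_zero]
        · rw [map_sub, map_mul, map_mul, h, h, ((hD' _).1 (hc i₀)).2,
            ((hD' _).1 (hc (i₀.succAbove j))).2, Polynomial.eval_sub, Polynomial.eval_C_mul,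
            Polynomial.eval_C_mul]
      obtain ⟨b, hbD, ⟨j₀, hb0⟩, hsum⟩ := ih
        (fun j => (P i₀).coeff (d + 1) * x (i₀.succAbove j) -
          (P (i₀.succAbove j)).coeff (d + 1) * x i₀) hy
      · refine ⟨i₀.insertNth (α := fun _ => A)
          (-∑ j, b j * (P (i₀.succAbove j)).coeff (d + 1))
          (fun j => b j * (P i₀).coeff (d + 1)), ?_, ⟨i₀.succAbove j₀, ?_⟩, ?_⟩
        · intro i
          refine Fin.succAboveCases i₀ ?_ (fun j => ?_) i
          · rw [Fin.insertNth_apply_same]
            exact D'.neg_mem (Subalgebra.sum_mem _ fun j _ => D'.mul_mem (hbD j) (hc _))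
          · rw [Fin.insertNth_apply_succAbove]
            exact D'.mul_mem (hbD j) (hc _)
        · rw [Fin.insertNth_apply_succAbove]
          exact mul_ne_zero hb0 hi₀
        · rw [Fin.sum_univ_succAbove _ i₀, Fin.insertNth_apply_same]
          simp only [Fin.insertNth_apply_succAbove]
          rw [← hsum, neg_mul, Finset.sum_mul, neg_add_eq_sub, ← Finset.sum_sub_distrib]
          refine Finset.sum_congr rfl fun j _ => ?_
          ring

end Main

/-- Let the additive group act rationally on the domain `A`, by `u`, let `D` be a stable subalgebra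
and `D'` the algebra of the invariant elements of `D`. The transcendence degree of `D` is at most
one more than that of `D'`. -/
theorem trdeg_le_of_unipotent {k : Type} [Field k] [Infinite k] {A : Type} [CommRing A]
    [IsDomain A] [Algebra k A] (u : k → (A ≃ₐ[k] A)) (hadd : ∀ s s' a, u (s + s') a = u s (u s' a))
    (hrat : ∀ a, ∃ (N : ℕ) (c : ℕ → A), ∀ s, u s a = ∑ i ∈ Finset.range (N + 1), s ^ i • c i)
    (D D' : Subalgebra k A) (hD : ∀ s, ∀ a ∈ D, u s a ∈ D)
    (hD' : ∀ a, a ∈ D' ↔ a ∈ D ∧ ∀ s, u s a = a) :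
    Algebra.trdeg k D ≤ Algebra.trdeg k D' + 1 := by
  classical
  have hle : D' ≤ D := fun a ha => ((hD' a).1 ha).1
  let _ : Algebra D' D := (Subalgebra.inclusion hle).toRingHom.toAlgebra
  have hst : IsScalarTower k D' D := IsScalarTower.of_algebraMap_eq fun x => rfl
  have hinj : Function.Injective (algebraMap D' D) := Subalgebra.inclusion_injective hle
  have hf1 : FaithfulSMul D' D := (faithfulSMul_iff_algebraMap_injective D' D).2 hinj
  have hf2 : FaithfulSMul k D' :=
    (faithfulSMul_iff_algebraMap_injective k D').2 (algebraMap k D').injective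
  have hadd1 := _root_.trdeg_add_eq k D' (A := D)
  rw [← hadd1]
  refine add_le_add_right ?_ _
  -- degrees
  have hdeg : ∀ a, ∃ d, PdL u d a := by
    intro a
    obtain ⟨N, c, h⟩ := hrat a
    refine ⟨N, ∑ i ∈ Finset.range (N + 1), Polynomial.C (c i) * Polynomial.X ^ i, ?_, fun s => ?_⟩
    · refine Polynomial.natDegree_sum_le_of_forall_le _ _ fun i hi => ?_
      refine (Polynomial.natDegree_C_mul_X_pow_le _ _).trans ?_
      exact Nat.lt_succ_iff.1 (Finset.mem_range.1 hi)
    · rw [h, Polynomial.eval_finsetSum]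
      refine Finset.sum_congr rfl fun i _ => ?_
      rw [Polynomial.eval_mul, Polynomial.eval_C, Polynomial.eval_pow, Polynomial.eval_X,
        Algebra.smul_def, map_pow, mul_comm]
  obtain ⟨ι, x, hx⟩ := exists_isTranscendenceBasis' D' D
  rw [← hx.cardinalMk_eq_trdeg]
  rw [Cardinal.le_one_iff_subsingleton]
  refine ⟨fun i j => ?_⟩
  by_contra hij
  obtain ⟨d₁, h₁⟩ := hdeg (x i : A)
  obtain ⟨d₂, h₂⟩ := hdeg (x j : A)
  set a := d₁ + d₂ + 1 with ha
  have h₁' : PdL u a (x i : A) := h₁.mono (by omega)
  have h₂' : PdL u a (x j : A) := h₂.mono (by omega)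
  -- the monomials
  have hemb : Nonempty (Fin (4 * a * a + 2) ↪ Fin (2 * a + 1) × Fin (2 * a + 1)) := by
    refine Function.Embedding.nonempty_of_card_le ?_
    rw [Fintype.card_fin, Fintype.card_prod, Fintype.card_fin]
    nlinarith
  obtain ⟨E⟩ := hemb
  obtain ⟨c, hcD, ⟨l₀, hl₀⟩, hsum⟩ := exists_relL u hadd D D' hD hD' (4 * a * a)
    (fun l => (x i : A) ^ ((E l).1 : ℕ) * (x j : A) ^ ((E l).2 : ℕ)) (fun l => by
      refine ⟨D.mul_mem (D.pow_mem (x i).2 _) (D.pow_mem (x j).2 _), ?_⟩
      refine ((h₁'.pow _).mul (h₂'.pow _)).mono ?_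
      have h3 : ((E l).1 : ℕ) ≤ 2 * a := Nat.lt_succ_iff.1 (E l).1.2
      have h4 : ((E l).2 : ℕ) ≤ 2 * a := Nat.lt_succ_iff.1 (E l).2.2
      nlinarith)
  · -- contradiction
    set c' : Fin (4 * a * a + 2) → D' := fun l => ⟨c l, hcD l⟩ with hc'
    set e : Fin (4 * a * a + 2) → (ι →₀ ℕ) := fun l =>
      Finsupp.single i ((E l).1 : ℕ) + Finsupp.single j ((E l).2 : ℕ) with he
    have heinj : Function.Injective e := by
      intro l l' hll
      refine E.injective (Prod.ext (Fin.ext ?_) (Fin.ext ?_))
      · have h1 := DFunLike.congr_fun hll i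
        simpa [he, Finsupp.single_apply, Ne.symm hij] using h1
      · have h1 := DFunLike.congr_fun hll j
        simpa [he, Finsupp.single_apply, hij] using h1
    set P : MvPolynomial ι D' := ∑ l, MvPolynomial.monomial (e l) (c' l) with hP
    have hP0 : MvPolynomial.aeval x P = 0 := by
      rw [hP, map_sum]
      refine Subtype.ext ?_
      have h1 : (((∑ l, MvPolynomial.aeval x (MvPolynomial.monomial (e l) (c' l)) : D)) : A) =
          ∑ l, c l * ((x i : A) ^ ((E l).1 : ℕ) * (x j : A) ^ ((E l).2 : ℕ)) := by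
        rw [AddSubmonoidClass.coe_finsetSum]
        refine Finset.sum_congr rfl fun l _ => ?_
        rw [MvPolynomial.aeval_monomial, he]
        simp only
        rw [Finsupp.prod_add_index' (by simp) (by intro a b₁ b₂; rw [pow_add]),
          Finsupp.prod_single_index (by simp), Finsupp.prod_single_index (by simp)]
        rfl
      rw [h1, hsum]
      rfl
    have hP1 : P = 0 := (injective_iff_map_eq_zero _).1 hx.1 P hP0
    have hP2 : MvPolynomial.coeff (e l₀) P = c' l₀ := by
      rw [hP, MvPolynomial.coeff_sum, Finset.sum_eq_single l₀]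
      · rw [MvPolynomial.coeff_monomial, if_pos rfl]
      · intro l _ hl
        rw [MvPolynomial.coeff_monomial, if_neg fun h => hl (heinj h)]
      · intro h
        exact absurd (Finset.mem_univ _) h
    rw [hP1, MvPolynomial.coeff_zero] at hP2
    exact hl₀ (congrArg Subtype.val hP2).symm

end Pool.Agent.MP_b525bf_ag_R
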