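import Pool.Agent.Lib.MP_b525bf_ag_R.GAU
import Pool.Agent.Lib.MP_b525bf_ag_R.ABO
import Pool.Agent.Lib.MP_b525bf_ag_R.INU
import Pool.Agent.Lib.MP_b525bf_ag_R.DUA
import Pool.Agent.Lib.MP_b525bf_ag_R.TRU
import Pool.Agent.Lib.MP_b525bf_ag_R.TRT
import Pool.Agent.Lib.MP_b525bf_ag_R.HWE
import Pool.Agent.Lib.MP_b525bf_ag_R.FWE

/-!
# Row R26: the invariant valuations are Abhyankar valuations
-/

set_option autoImplicit false

namespace Pool.Agent.MP_b525bf_ag_R

open Matrix.SpecialLinearGroup Pool.Agent.MP_b525bf_ag_ES Pool.Agent.MP_b525bf_ag_E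
  Pool.Agent.LU2
open scoped MatrixGroups

section Chain

variable {k K : Type} [Field k] [Field K] [Algebra k K]

/-- An automorphism that fixes the elements of `S` and `y` fixes the elements of `S(y)`. -/
theorem fix_sup_adjoin (S : IntermediateField k K) (y : K) (φ : K ≃ₐ[k] K)
    (hS : ∀ x ∈ S, φ x = x) (hy : φ y = y) :
    ∀ x ∈ S ⊔ IntermediateField.adjoin k {y}, φ x = x := by
  have h1 : S ⊔ IntermediateField.adjoin k {y} ≤
      IntermediateField.fixedField (Subgroup.zpowers φ) := by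
    refine sup_le (fun x hx => ?_) ?_
    · rw [IntermediateField.mem_fixedField_iff]
      intro f hf
      refine Subgroup.zpowers_le (H := MulAction.stabilizer (K ≃ₐ[k] K) x) |>.2 ?_ hf
      exact hS x hx
    · rw [IntermediateField.adjoin_simple_le_iff, IntermediateField.mem_fixedField_iff]
      intro f hf
      refine Subgroup.zpowers_le (H := MulAction.stabilizer (K ≃ₐ[k] K) y) |>.2 ?_ hf
      exact hy
  intro x hx
  exact (IntermediateField.mem_fixedField_iff _ _).1 (h1 hx) φ (Subgroup.mem_zpowers φ)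

/-- A chain of Gauss extensions. -/
theorem ab_chain (V : ValuationSubring K) (hk : ∀ c : k, algebraMap k K c ∈ V) (N : ℕ) :
    ∀ (S : IntermediateField k K) (ν : ℕ), Ab V S ν → ∀ (y : Fin N → K), (∀ j, y j ≠ 0) →
      ∀ (Φ : Fin N → Set (K ≃ₐ[k] K)),
      (∀ j, ∀ φ ∈ Φ j, ∀ x, V.valuation (φ x) = V.valuation x) →
      (∀ j, ∀ φ ∈ Φ j, ∀ x ∈ S, φ x = x) → (∀ j j', j' ≠ j → ∀ φ ∈ Φ j, φ (y j') = y j') →
      (∀ j (n : ℕ), ∃ φ : Fin n → (K ≃ₐ[k] K), (∀ i, φ i ∈ Φ j) ∧
        ∀ i i', i ≠ i' → V.valuation (φ i (y j) - φ i' (y j)) = V.valuation (y j)) →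
      ∃ S' : IntermediateField k K, Ab V S' (ν + N) ∧
        ∀ φ : K ≃ₐ[k] K, (∀ x ∈ S, φ x = x) → (∀ j, φ (y j) = y j) → ∀ x ∈ S', φ x = x := by
  induction N with
  | zero =>
    intro S ν hS y hy Φ h1 h2 h3 h4
    exact ⟨S, hS, fun φ h _ => h⟩
  | succ N ih =>
    intro S ν hS y hy Φ h1 h2 h3 h4
    have hG : ∀ P : Polynomial K, (∀ i, P.coeff i ∈ S) → ∀ i,
        V.valuation (P.coeff i * y 0 ^ i) ≤ V.valuation (P.eval (y 0)) := by
      intro P hP i
      refine gauss_of_many V S (y 0) (hy 0) (fun n => ?_) P hP i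
      obtain ⟨φ, hφ, hφ'⟩ := h4 0 n
      exact ⟨φ, fun i x => h1 0 _ (hφ i) x, fun i x hx => h2 0 _ (hφ i) x hx, hφ'⟩
    have hS1 := ab_step V hk S ν hS (y 0) (hy 0) hG
    obtain ⟨S', hS', hfix⟩ := ih (S ⊔ IntermediateField.adjoin k {y 0}) (ν + 1) hS1
      (fun j => y j.succ) (fun j => hy _) (fun j => Φ j.succ) (fun j => h1 _)
      (fun j φ hφ => fix_sup_adjoin S (y 0) φ (h2 _ φ hφ) (h3 _ _ (Fin.succ_ne_zero j).symm φ hφ))
      (fun j j' hj φ hφ => h3 _ _ (fun h => hj (Fin.succ_injective _ h)) φ hφ)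
      (fun j n => h4 _ n)
    refine ⟨S', ?_, fun φ h h' => hfix φ (fix_sup_adjoin S (y 0) φ h (h' 0)) fun j => h' _⟩
    rwa [add_assoc, add_comm 1 N] at hS'

end Chain

variable {k : Type} [Field k] [Infinite k] {m r : ℕ} {A : Type} [CommRing A] [IsDomain A]
  [Algebra k A]

/-- The elements invariant under the unitriangular matrices of the factors `i < j`. -/
def uTo (ρ : SLT k m r →* (A ≃ₐ[k] A)) (j : ℕ) : Subalgebra k A where
  carrier := {a | ∀ i : Fin m, (i : ℕ) < j → ∀ s, ρ (sl i (up s)) a = a}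
  mul_mem' := by
    intro a b ha hb i hi s
    rw [map_mul, ha i hi s, hb i hi s]
  add_mem' := by
    intro a b ha hb i hi s
    rw [map_add, ha i hi s, hb i hi s]
  algebraMap_mem' := by
    intro c i hi s
    exact AlgEquiv.commutes _ _

omit [IsDomain A] [Infinite k] in
theorem mem_uTo (ρ : SLT k m r →* (A ≃ₐ[k] A)) (j : ℕ) (a : A) :
    a ∈ uTo ρ j ↔ ∀ i : Fin m, (i : ℕ) < j → ∀ s, ρ (sl i (up s)) a = a := Iff.rfl

open Classical in
/-- The transcendence degree over the invariants of the unipotent group is at most the number of the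
factors which act nontrivially. -/
theorem trdeg_uTo (ρ : SLT k m r →* (A ≃ₐ[k] A)) (hρ : IsRational ρ) (j : ℕ) (hj : j ≤ m) :
    Algebra.trdeg k A ≤ Algebra.trdeg k (uTo ρ j) +
      (Finset.univ.filter fun i : Fin m => (i : ℕ) < j ∧ ∃ g a, ρ (sl i g) a ≠ a).card := by
  induction j with
  | zero =>
    have h0 : uTo ρ 0 = ⊤ := by
      rw [eq_top_iff]
      intro a _ i hi
      exact absurd hi (Nat.not_lt_zero _)
    rw [h0, (Subalgebra.topEquiv (R := k) (A := A)).symm.trdeg_eq]
    exact le_self_add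
  | succ j ih =>
    have ih := ih (Nat.le_of_succ_le hj)
    set i₀ : Fin m := ⟨j, hj⟩ with hi₀
    by_cases hact : ∃ g a, ρ (sl i₀ g) a ≠ a
    · have h1 : (Finset.univ.filter fun i : Fin m =>
          (i : ℕ) < j + 1 ∧ ∃ g a, ρ (sl i g) a ≠ a) =
          insert i₀ (Finset.univ.filter fun i : Fin m =>
            (i : ℕ) < j ∧ ∃ g a, ρ (sl i g) a ≠ a) := by
        ext i
        simp only [Finset.mem_filter, Finset.mem_univ, true_and, Finset.mem_insert]
        constructor
        · rintro ⟨h, h'⟩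
          rcases Nat.lt_succ_iff_lt_or_eq.1 h with h | h
          · exact Or.inr ⟨h, h'⟩
          · exact Or.inl (Fin.ext h)
        · rintro (rfl | ⟨h, h'⟩)
          · exact ⟨Nat.lt_succ_self _, hact⟩
          · exact ⟨Nat.lt_succ_of_lt h, h'⟩
      rw [h1, Finset.card_insert_of_notMem (by simp [hi₀])]
      have h2 : Algebra.trdeg k (uTo ρ j) ≤ Algebra.trdeg k (uTo ρ (j + 1)) + 1 := by
        refine trdeg_le_of_unipotent (fun s => ρ (sl i₀ (up s))) ?_ ?_ (uTo ρ j) (uTo ρ (j + 1))
          ?_ ?_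
        · intro s s' a
          rw [up_add, map_mul, map_mul]
          rfl
        · intro a
          obtain ⟨N, c, b, -, -, h⟩ := exists_up (ρ.comp (sl i₀)) (isRat_sl ρ hρ i₀) a
          exact ⟨N, c, h⟩
        · intro s a ha i hi s'
          have hne : i ≠ i₀ := by
            rintro rfl
            exact absurd hi (lt_irrefl _)
          change ρ (sl i (up s')) (ρ (sl i₀ (up s)) a) = ρ (sl i₀ (up s)) a
          rw [sl_comm ρ hne, ha i hi s']
        · intro a
          constructor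
          · intro h
            exact ⟨fun i hi => h i (Nat.lt_succ_of_lt hi), fun s => h i₀ (Nat.lt_succ_self _) s⟩
          · rintro ⟨h, h'⟩ i hi s
            rcases Nat.lt_succ_iff_lt_or_eq.1 hi with hi | hi
            · exact h i hi s
            · obtain rfl : i = i₀ := Fin.ext hi
              exact h' s
      refine ih.trans ?_
      push_cast
      rw [add_comm (Finset.card _ : Cardinal) 1, ← add_assoc]
      exact add_le_add_left h2 _
    · have hact : ∀ g a, ρ (sl i₀ g) a = a := fun g a => by_contra fun h => hact ⟨g, a, h⟩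
      have h1 : (Finset.univ.filter fun i : Fin m =>
          (i : ℕ) < j + 1 ∧ ∃ g a, ρ (sl i g) a ≠ a) =
          (Finset.univ.filter fun i : Fin m =>
            (i : ℕ) < j ∧ ∃ g a, ρ (sl i g) a ≠ a) := by
        ext i
        simp only [Finset.mem_filter, Finset.mem_univ, true_and]
        constructor
        · rintro ⟨h, h'⟩
          rcases Nat.lt_succ_iff_lt_or_eq.1 h with h | h
          · exact ⟨h, h'⟩
          · obtain rfl : i = i₀ := Fin.ext h
            obtain ⟨g, a, hga⟩ := h'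
            exact absurd (hact g a) hga
        · rintro ⟨h, h'⟩
          exact ⟨Nat.lt_succ_of_lt h, h'⟩
      have h2 : uTo ρ (j + 1) = uTo ρ j := by
        ext a
        constructor
        · intro h i hi
          exact h i (Nat.lt_succ_of_lt hi)
        · intro h i hi s
          rcases Nat.lt_succ_iff_lt_or_eq.1 hi with hi | hi
          · exact h i hi s
          · obtain rfl : i = i₀ := Fin.ext hi
            exact hact _ _
      rw [h1, h2]
      exact ih

omit [Infinite k] in
theorem trdeg_fractionRing : Algebra.trdeg k (FractionRing A) = Algebra.trdeg k A := by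
  have h := _root_.trdeg_add_eq k A (A := FractionRing A)
  have h0 : Algebra.trdeg A (FractionRing A) = 0 := by
    have : Algebra.IsAlgebraic A (FractionRing A) :=
      IsLocalization.isAlgebraic _ (nonZeroDivisors A)
    exact _root_.trdeg_eq_zero
  rw [h0, add_zero] at h
  exact h.symm

/-- Row R26: the invariant valuations are Abhyankar valuations. -/
theorem defLE_of_rational (ρ : SLT k m r →* (A ≃ₐ[k] A)) (hρ : IsRational ρ)
    (hc : Algebra.trdeg k (invField ((borel k m r).map ρ)) ≤ 1)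
    (V : ValuationSubring (FractionRing A)) (hV : IsInvariant ρ.range V) : DefLE k V 0 := by
  classical
  set K := FractionRing A
  set M := invField ((borel k m r).map ρ) with hM
  have hk : ∀ c : k, algebraMap k K c ∈ V := by
    intro c
    rw [IsScalarTower.algebraMap_apply k A K]
    exact hV.1 _
  -- the valuation on `A`
  set v := V.valuation.comap (algebraMap A K) with hv
  have hvk : ∀ c : k, v (algebraMap k A c) ≤ 1 := by
    intro c
    rw [hv, Valuation.comap_apply, ← IsScalarTower.algebraMap_apply k A K]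
    exact (V.valuation_le_one_iff _).2 (hk c)
  have hvinv : ∀ g a, v (ρ g a) = v a := fun g a => hV.2 _ ⟨g, rfl⟩ a
  have hinj := IsFractionRing.injective A K
  -- the weight vectors
  obtain ⟨n, e, l, hl, he, htr⟩ := exists_weights_trdeg ρ hρ (uTo ρ m) (fun a => by
    rw [mem_uTo]
    exact ⟨fun h i => h i i.2, fun h i _ => h i⟩)
  have htr' := trdeg_uTo ρ hρ m le_rfl
  set I : Finset (Fin m) :=
    Finset.univ.filter fun i : Fin m => (i : ℕ) < m ∧ ∃ g a, ρ (sl i g) a ≠ a with hI
  -- the base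
  obtain ⟨S₀, ν, hS₀, hS₀M, hν⟩ : ∃ (S₀ : IntermediateField k K) (ν : ℕ), Ab V S₀ ν ∧ S₀ ≤ M ∧
      Algebra.trdeg k M ≤ ν := by
    by_cases halg : Algebra.IsAlgebraic k M
    · exact ⟨⊥, 0, ab_bot V hk, bot_le, by rw [_root_.trdeg_eq_zero]; simp⟩
    · obtain ⟨z, hz, hz'⟩ := exists_ab_one V hk M halg
      exact ⟨_, 1, hz', (IntermediateField.adjoin_simple_le_iff).2 hz, by simpa using hc⟩
  have hM0 : ∀ x ∈ S₀, ∀ g ∈ borel k m r, onK ρ g x = x := fun x hx =>
    (mem_invField_iff ρ x).1 (hS₀M hx)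
  -- the weight vectors are added
  choose μ hμ hμ' using fun j => exists_dual l hl j
  obtain ⟨S₁, hS₁, hfix₁⟩ := ab_chain V hk n S₀ ν hS₀ (fun j => algebraMap A K (e j))
    (fun j => (map_ne_zero_iff _ hinj).2 (he j).1)
    (fun j => Set.range fun t : kˣ => onK ρ (tor fun i => t ^ μ j i))
    (by
      rintro j _ ⟨t, rfl⟩ x
      exact valuation_onK ρ V hV _ x)
    (by
      rintro j _ ⟨t, rfl⟩ x hx
      exact hM0 x hx _ (tor_mem _))
    (by
      rintro j j' hj _ ⟨t, rfl⟩
      change onK ρ _ _ = _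
      rw [onK_algebraMap, (he j').2.2, chi_zpow, hμ j j' hj, zpow_zero, Units.val_one, one_smul])
    (by
      intro j n'
      obtain ⟨t, ht⟩ := exists_units_zpow (k := k) (∑ i, μ j i * l j i) (hμ' j) n'
      refine ⟨fun i => onK ρ (tor fun i' => t i ^ μ j i'), fun i => ⟨t i, rfl⟩, ?_⟩
      intro i i' hii
      rw [onK_algebraMap, onK_algebraMap, (he j).2.2, (he j).2.2, chi_zpow, chi_zpow,
        ← map_sub, ← sub_smul, Algebra.smul_def, map_mul, map_mul,
        ← IsScalarTower.algebraMap_apply k A K]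
      have h1 : ((t i ^ (∑ i, μ j i * l j i) : kˣ) : k) - ((t i' ^ (∑ i, μ j i * l j i) : kˣ) : k)
          ≠ 0 := by
        rw [sub_ne_zero]
        exact fun h => ht i i' hii (Units.ext h)
      have h2 : V.valuation (algebraMap k K (((t i ^ (∑ i, μ j i * l j i) : kˣ) : k) -
          ((t i' ^ (∑ i, μ j i * l j i) : kˣ) : k))) = 1 := by
        refine le_antisymm ((V.valuation_le_one_iff _).2 (hk _)) ?_
        have h3 := (V.valuation_le_one_iff _).2 (hk (((t i ^ (∑ i, μ j i * l j i) : kˣ) : k) -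
          ((t i' ^ (∑ i, μ j i * l j i) : kˣ) : k))⁻¹)
        rw [map_inv₀, map_inv₀] at h3
        rwa [inv_le_one₀ (by
          rw [Valuation.pos_iff]
          exact (map_ne_zero _).2 h1)] at h3
      rw [h2, one_mul])
  -- the moved elements
  have hmoved : ∀ i : I, ∃ f : A, v f ≠ 0 ∧ (∀ i', i' ≠ i.1 → ∀ s, ρ (sl i' (up s)) f = f) ∧
      ∃ s, v (ρ (sl i.1 (up s)) f - f) = v f := by
    rintro ⟨i, hi⟩
    obtain ⟨-, -, hi⟩ := Finset.mem_filter.1 hi
    obtain ⟨h, h0, hU, w, hw, hpos⟩ := exists_highest ρ hρ i hi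
    refine exists_moved ρ v hvk hvinv i h ?_ hU w hw hpos
    rw [hv, Valuation.comap_apply]
    exact (Valuation.ne_zero_iff _).2 ((map_ne_zero_iff _ hinj).2 h0)
  choose f hf0 hfU s₀ hs₀ using hmoved
  set E := Fintype.equivFin I with hE
  have hcard : Fintype.card I = I.card := Fintype.card_coe I
  obtain ⟨S₂, hS₂, -⟩ := ab_chain V hk (Fintype.card I) S₁ (ν + n) hS₁
    (fun j => algebraMap A K (f (E.symm j)))
    (fun j => by
      have h1 := hf0 (E.symm j)
      rwa [hv, Valuation.comap_apply, Valuation.ne_zero_iff] at h1)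
    (fun j => Set.range fun s : k => onK ρ (sl (E.symm j).1 (up s)))
    (by
      rintro j _ ⟨s, rfl⟩ x
      exact valuation_onK ρ V hV _ x)
    (by
      rintro j _ ⟨s, rfl⟩ x hx
      refine hfix₁ _ (fun x hx => hM0 x hx _ (up_mem _ _)) (fun j' => ?_) x hx
      rw [onK_algebraMap, (he j').2.1])
    (by
      rintro j j' hj _ ⟨s, rfl⟩
      change onK ρ _ _ = _
      rw [onK_algebraMap, hfU (E.symm j') (E.symm j).1 (fun h => hj (E.symm.injective
        (Subtype.ext h)).symm)])
    (by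
      intro j n'
      obtain ⟨s, hs⟩ := exists_many_up (ρ.comp (sl (E.symm j).1)) (isRat_sl ρ hρ _) v hvk
        (fun g a => hvinv _ a) (f (E.symm j)) (hf0 _) (s₀ (E.symm j)) (hs₀ (E.symm j)) n'
      refine ⟨fun i => onK ρ (sl (E.symm j).1 (up (s i))), fun i => ⟨s i, rfl⟩, ?_⟩
      intro i i' hii
      rw [onK_algebraMap, onK_algebraMap, ← map_sub]
      exact hs i i' hii)
  obtain ⟨a, d, had, ⟨x, -, hx⟩, z, -, hz⟩ := hS₂
  refine ⟨a, d, ?_, ⟨x, hx⟩, z, hz⟩
  rw [trdeg_fractionRing]
  refine htr'.trans ?_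
  refine (add_le_add_left htr _).trans ?_
  refine (add_le_add_left (add_le_add_left hν _) _).trans ?_
  have h1 : a + d + 0 = ν + n + I.card := by rw [add_zero, had, hcard]
  rw [h1]
  push_cast
  exact le_rfl

end Pool.Agent.MP_b525bf_ag_R
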