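import Pool.Agent.Lib.MP_b525bf_ag_R.Basic

/-!
# Row R10: commutation and generation
-/

set_option autoImplicit false

namespace Pool.Agent.MP_b525bf_ag_R

open Matrix.SpecialLinearGroup
open scoped MatrixGroups

variable {k : Type} [Field k] {m r : ℕ} {A : Type} [CommRing A] [Algebra k A]

private theorem transvection01 (s : k) :
    (Matrix.SpecialLinearGroup.transvection zero_ne_one s : SL(2, k)) = up s := by
  refine ext4 ?_ ?_ ?_ ?_ <;> simp [Matrix.SpecialLinearGroup.transvection_coe]

private theorem transvection10 (s : k) :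
    (Matrix.SpecialLinearGroup.transvection one_ne_zero s : SL(2, k)) = lo s := by
  refine ext4 ?_ ?_ ?_ ?_ <;> simp [Matrix.SpecialLinearGroup.transvection_coe]

private theorem mem_of_up_lo (H : Subgroup SL(2, k)) (hu : ∀ s, up s ∈ H) (hl : ∀ s, lo s ∈ H)
    (g : SL(2, k)) : g ∈ H := by
  refine Matrix.SL2.transvection_induction (fun g => g ∈ H) ?_ (fun _ _ => mul_mem) g
  intro i j h c
  fin_cases i
  · obtain rfl : j = 1 := by fin_cases j <;> tauto
    have := hu c
    rw [← transvection01] at this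
    exact this
  · obtain rfl : j = 0 := by fin_cases j <;> tauto
    have := hl c
    rw [← transvection10] at this
    exact this

/-- Row R10a. Different factors commute. -/
theorem sl_comm (ρ : SLT k m r →* (A ≃ₐ[k] A)) {i j : Fin m} (hij : i ≠ j) (g h : SL(2, k))
    (a : A) : ρ (sl i g) (ρ (sl j h) a) = ρ (sl j h) (ρ (sl i g) a) := by
  rw [← AlgEquiv.mul_apply, ← map_mul, ← AlgEquiv.mul_apply, ← map_mul]
  congr 2
  refine Prod.ext ?_ rfl
  exact (Pi.mulSingle_commute (f := fun _ : Fin m => SL(2, k)) hij g h).eq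

/-- Row R10b. The torus and a factor: the torus acts by conjugation with a diagonal matrix. -/
theorem tor_sl (ρ : SLT k m r →* (A ≃ₐ[k] A)) (t : Fin m ⊕ Fin r → kˣ) (i : Fin m) (g : SL(2, k))
    (a : A) : ρ (tor t) (ρ (sl i g) a) =
      ρ (sl i (dg (t (Sum.inl i)) * g * (dg (t (Sum.inl i)))⁻¹)) (ρ (tor t) a) := by
  rw [← AlgEquiv.mul_apply, ← map_mul, ← AlgEquiv.mul_apply, ← map_mul]
  congr 2
  refine Prod.ext ?_ (by simp [sl])
  funext j
  by_cases hj : j = i
  · subst hj
    simp [sl, tor]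
  · simp [sl, tor, Pi.mulSingle_eq_of_ne hj]

/-- Row R10c. The torus and the unitriangular matrices. -/
theorem tor_up (ρ : SLT k m r →* (A ≃ₐ[k] A)) (t : Fin m ⊕ Fin r → kˣ) (i : Fin m) (s : k)
    (a : A) : ρ (tor t) (ρ (sl i (up s)) a) =
      ρ (sl i (up ((t (Sum.inl i) : k) ^ 2 * s))) (ρ (tor t) a) := by
  rw [tor_sl, dg_mul_up, mul_inv_cancel_right]

/-- Row R10d. The torus of a factor. -/
theorem tor_single (t : kˣ) (i : Fin m) :
    (tor (Pi.mulSingle (Sum.inl i) t) : SLT k m r) = sl i (dg t) := by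
  refine Prod.ext ?_ ?_
  · funext j
    by_cases hj : j = i
    · subst hj
      simp [sl, tor]
    · have h1 : (Sum.inl j : Fin m ⊕ Fin r) ≠ Sum.inl i := fun h => hj (Sum.inl_injective h)
      simp [sl, tor, Pi.mulSingle_eq_of_ne hj, Pi.mulSingle_eq_of_ne h1, dg_one]
  · funext j
    simp [sl, tor]

/-- Row R10e. The weight and the torus of a factor. -/
theorem chi_single {ι : Type} [Fintype ι] [DecidableEq ι] (l : ι → ℤ) (i : ι) (t : kˣ) :
    chi l (Pi.mulSingle i t) = t ^ l i := by
  rw [chi, Finset.prod_eq_single i]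
  · simp
  · intro j _ hj
    simp [Pi.mulSingle_eq_of_ne hj]
  · intro h
    exact absurd (Finset.mem_univ i) h

/-- Row R10f. An element of a factor normalizes the other group elements: for each `x` in the group
and `g` in the factor `i` there is `g'` in the factor with `sl i g * x = x * sl i g'`. -/
theorem sl_normal (i : Fin m) (g : SL(2, k)) (x : SLT k m r) :
    sl i g * x = x * sl i ((x.1 i)⁻¹ * g * x.1 i) := by
  refine Prod.ext ?_ (by simp [sl])
  funext j
  by_cases hj : j = i
  · subst hj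
    simp [sl, mul_assoc]
  · simp [sl, Pi.mulSingle_eq_of_ne hj]

private theorem mem_of_sl (H : Subgroup (SLT k m r)) (ht : ∀ t, tor t ∈ H) (g : SLT k m r)
    (h : ∀ i, sl i (g.1 i) ∈ H) : g ∈ H := by
  have h1 : g.1 ∈ H.comap (MonoidHom.inl (Fin m → SL(2, k)) (Fin r → kˣ)) :=
    Subgroup.pi_mem_of_mulSingle_mem _ fun i => h i
  have h2 := ht (Sum.elim (fun _ => 1) g.2)
  have h3 : g = MonoidHom.inl (Fin m → SL(2, k)) (Fin r → kˣ) g.1 *
      tor (Sum.elim (fun _ => 1) g.2) := by
    refine Prod.ext ?_ ?_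
    · funext j
      simp [tor, dg_one]
    · funext j
      simp [tor]
  rw [h3]
  exact mul_mem h1 h2

/-- Row R10g. The Borel subgroup is generated by the torus and the unitriangular matrices. -/
theorem borel_le (H : Subgroup (SLT k m r)) (ht : ∀ t, tor t ∈ H) (hu : ∀ i s, sl i (up s) ∈ H) :
    borel k m r ≤ H := by
  intro g hg
  refine mem_of_sl H ht g fun i => ?_
  have h10 : (g.1 i).1 1 0 = 0 := hg i
  have hd := det_eq (g.1 i)
  rw [h10, mul_zero, sub_zero] at hd
  let t : kˣ := ⟨(g.1 i).1 0 0, (g.1 i).1 1 1, hd, by rw [mul_comm]; exact hd⟩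
  have h : g.1 i = dg t * up ((g.1 i).1 1 1 * (g.1 i).1 0 1) := by
    refine ext4 ?_ ?_ ?_ ?_
    · simp [mul00, t]
    · rw [mul01, dg00, dg01, up01, zero_mul, add_zero]
      change _ = (g.1 i).1 0 0 * _
      rw [← mul_assoc, hd, one_mul]
    · simp [mul10, h10]
    · rw [mul11, dg10, dg11, up11, zero_mul, zero_add, mul_one]
      rfl
  rw [h, map_mul]
  refine mul_mem ?_ (hu i _)
  rw [← tor_single]
  exact ht _

/-- Row R10h. The group is generated by the torus and the unitriangular matrices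
(`Matrix.SL2.transvection_induction`, `Subgroup.pi_mem_of_mulSingle_mem`). -/
theorem top_le (H : Subgroup (SLT k m r)) (ht : ∀ t, tor t ∈ H) (hu : ∀ i s, sl i (up s) ∈ H)
    (hl : ∀ i s, sl i (lo s) ∈ H) : H = ⊤ := by
  refine (Subgroup.eq_top_iff' H).2 fun g => mem_of_sl H ht g fun i => ?_
  exact mem_of_up_lo (H.comap (sl i)) (fun s => hu i s) (fun s => hl i s) (g.1 i)

/-- Row R10i. The torus and the unitriangular matrices are in the Borel subgroup. -/
theorem tor_mem (t : Fin m ⊕ Fin r → kˣ) : tor t ∈ borel k m r := by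
  intro i
  rfl

theorem up_mem (i : Fin m) (s : k) : sl i (up s) ∈ borel k m r := by
  intro j
  by_cases hj : j = i
  · subst hj
    simp [sl]
  · simp [sl, Pi.mulSingle_eq_of_ne hj]

end Pool.Agent.MP_b525bf_ag_R
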