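import Pool.Agent.Lib.MP_b525bf_ag_R.SPN
import Pool.Agent.Lib.MP_b525bf_ag_R.TCM

/-!
# Row R09: restrictions of a rational action to the factors and to the torus
-/

set_option autoImplicit false

namespace Pool.Agent.MP_b525bf_ag_R

open Matrix.SpecialLinearGroup
open scoped MatrixGroups

variable {k : Type} [Field k] {m r : ℕ} {A : Type} [CommRing A] [Algebra k A]

/-- Row R09a. The action of one factor is rational. (Substitute the entries of the identity matrix
and `1` for the other coordinates: `MvPolynomial.aeval` with values in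
`MvPolynomial (Fin 2 × Fin 2) A`.) -/
theorem isRat_sl (ρ : SLT k m r →* (A ≃ₐ[k] A)) (hρ : IsRational ρ) (i : Fin m) :
    IsRat (ρ.comp (sl i)) := by
  intro a
  obtain ⟨P, hP⟩ := hρ a
  let f : (Fin m × Fin 2 × Fin 2) ⊕ (Fin r ⊕ Fin r) → MvPolynomial (Fin 2 × Fin 2) A := fun c =>
    match c with
    | Sum.inl (j, x, y) => if j = i then MvPolynomial.X (x, y) else
        MvPolynomial.C (if x = y then 1 else 0)
    | Sum.inr _ => 1
  refine ⟨MvPolynomial.bind₁ f P, fun g => ?_⟩
  rw [MonoidHom.comp_apply, hP, ev]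
  have h1 : ∀ (φ : MvPolynomial ((Fin m × Fin 2 × Fin 2) ⊕ (Fin r ⊕ Fin r)) A)
      (x : Fin 2 × Fin 2 → A), MvPolynomial.eval x (MvPolynomial.bind₁ f φ) =
        MvPolynomial.eval (fun c => MvPolynomial.eval x (f c)) φ := fun φ x =>
    MvPolynomial.eval₂Hom_bind₁ (RingHom.id A) x f φ
  rw [h1]
  congr 1
  congr 1
  funext c
  match c with
  | Sum.inl (j, x, y) =>
    simp only [coord, sl, f, MonoidHom.coe_mk, OneHom.coe_mk]
    by_cases hj : j = i
    · subst hj
      simp
    · rw [if_neg hj, MvPolynomial.eval_C, Pi.mulSingle_eq_of_ne hj]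
      rw [Matrix.SpecialLinearGroup.coe_one, Matrix.one_apply]
      split_ifs <;> simp
  | Sum.inr (Sum.inl j) =>
    simp [coord, sl, f]
  | Sum.inr (Sum.inr j) =>
    simp [coord, sl, f]

/-- The exponents of the character which is the value of a monomial at `tor t`. -/
private def lexp (d : (Fin m × Fin 2 × Fin 2) ⊕ (Fin r ⊕ Fin r) →₀ ℕ) : Fin m ⊕ Fin r → ℤ
  | Sum.inl i => (d (Sum.inl (i, 0, 0)) : ℤ) - d (Sum.inl (i, 1, 1))
  | Sum.inr j => (d (Sum.inr (Sum.inl j)) : ℤ) - d (Sum.inr (Sum.inr j))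

private theorem prod_coord (d : (Fin m × Fin 2 × Fin 2) ⊕ (Fin r ⊕ Fin r) →₀ ℕ) :
    ∃ e : k, ∀ t : Fin m ⊕ Fin r → kˣ,
      ∏ c, coord (tor t : SLT k m r) c ^ d c = e * (chi (lexp d) t : k) := by
  refine ⟨∏ i : Fin m, ((0 : k) ^ d (Sum.inl (i, 0, 1)) * 0 ^ d (Sum.inl (i, 1, 0))), fun t => ?_⟩
  rw [Fintype.prod_sum_type, Fintype.prod_sum_type, Fintype.prod_prod_type]
  have h1 : (chi (lexp d) t : k) = (∏ i : Fin m, ((t (Sum.inl i) : k) ^ d (Sum.inl (i, 0, 0)) *
      (((t (Sum.inl i))⁻¹ : kˣ) : k) ^ d (Sum.inl (i, 1, 1)))) *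
      ((∏ j : Fin r, (t (Sum.inr j) : k) ^ d (Sum.inr (Sum.inl j))) *
      ∏ j : Fin r, (((t (Sum.inr j))⁻¹ : kˣ) : k) ^ d (Sum.inr (Sum.inr j))) := by
    rw [chi, Fintype.prod_sum_type]
    push_cast
    rw [← Finset.prod_mul_distrib]
    congr 1
    · refine Finset.prod_congr rfl fun i _ => ?_
      simp only [lexp]
      rw [zpow_sub₀ (Units.ne_zero _), zpow_natCast, zpow_natCast, div_eq_mul_inv, inv_pow]
    · refine Finset.prod_congr rfl fun j _ => ?_
      simp only [lexp]
      rw [zpow_sub₀ (Units.ne_zero _), zpow_natCast, zpow_natCast, div_eq_mul_inv, inv_pow]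
  have h3 : ∏ i : Fin m, ∏ y : Fin 2 × Fin 2, coord (tor t : SLT k m r) (Sum.inl (i, y)) ^
      d (Sum.inl (i, y)) = (∏ i : Fin m, ((0 : k) ^ d (Sum.inl (i, 0, 1)) *
        0 ^ d (Sum.inl (i, 1, 0)))) * ∏ i : Fin m, ((t (Sum.inl i) : k) ^ d (Sum.inl (i, 0, 0)) *
          (((t (Sum.inl i))⁻¹ : kˣ) : k) ^ d (Sum.inl (i, 1, 1))) := by
    rw [← Finset.prod_mul_distrib]
    refine Finset.prod_congr rfl fun i _ => ?_
    have h2 : ∏ y : Fin 2 × Fin 2, coord (tor t : SLT k m r) (Sum.inl (i, y)) ^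
        d (Sum.inl (i, y)) =
        (t (Sum.inl i) : k) ^ d (Sum.inl (i, 0, 0)) * (0 : k) ^ d (Sum.inl (i, 0, 1)) *
          ((0 : k) ^ d (Sum.inl (i, 1, 0)) *
            (((t (Sum.inl i))⁻¹ : kˣ) : k) ^ d (Sum.inl (i, 1, 1))) := by
      rw [Fintype.prod_prod_type, Fin.prod_univ_two, Fin.prod_univ_two, Fin.prod_univ_two]
      rfl
    rw [h2]
    ring
  rw [h1, h3]
  simp only [mul_assoc]
  rfl

/-- Row R09b. The action of the torus: each element is a finite sum of weight vectors, which are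
linear combinations of its images. (The value of a monomial at `tor t` is `0` or a character. First
get `ρ (tor t) a = ∑ l ∈ S, chi l t • c l`; then `c l = b.sum ...` by `exists_coeff_chi` and
`sum_smul_eq_coeff`, and comparison of the coefficients of `ρ (tor t) (ρ (tor t') a)` shows that
`c l` has weight `l`; `a = ∑ c l` is the case `t = 1`.) -/
theorem exists_weights [Infinite k] (ρ : SLT k m r →* (A ≃ₐ[k] A)) (hρ : IsRational ρ) (a : A) :
    ∃ (S : Finset (Fin m ⊕ Fin r → ℤ)) (c : (Fin m ⊕ Fin r → ℤ) → A)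
      (b : (Fin m ⊕ Fin r → ℤ) → ((Fin m ⊕ Fin r → kˣ) →₀ k)),
      (∀ l ∈ S, IsWt ρ l (c l)) ∧ (∀ l ∈ S, c l = (b l).sum fun t x => x • ρ (tor t) a) ∧
        a = ∑ l ∈ S, c l := by
  classical
  obtain ⟨P, hP⟩ := hρ a
  choose e he using prod_coord (k := k) (m := m) (r := r)
  let S : Finset (Fin m ⊕ Fin r → ℤ) := P.support.image lexp
  let c : (Fin m ⊕ Fin r → ℤ) → A := fun l =>
    ∑ d ∈ P.support.filter (fun d => lexp d = l), e d • P.coeff d
  have hc : ∀ t : Fin m ⊕ Fin r → kˣ, ρ (tor t) a = ∑ l ∈ S, (chi l t : k) • c l := by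
    intro t
    rw [hP, MvPolynomial.eval_eq']
    have h1 : ∀ d ∈ P.support, P.coeff d * ∏ i, (algebraMap k A (coord (tor t : SLT k m r) i)) ^ d i =
        (chi (lexp d) t : k) • (e d • P.coeff d) := by
      intro d _
      have h2 : ∏ i, (algebraMap k A (coord (tor t : SLT k m r) i)) ^ d i =
          algebraMap k A (e d * (chi (lexp d) t : k)) := by
        rw [← he, map_prod]
        simp only [map_pow]
      rw [h2, smul_smul, mul_comm, ← Algebra.smul_def, mul_comm (e d)]
    rw [Finset.sum_congr rfl h1]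
    have h3 : ∀ l ∈ S, (chi l t : k) • c l = ∑ d ∈ P.support.filter (fun d => lexp d = l),
        (chi (lexp d) t : k) • (e d • P.coeff d) := by
      intro l _
      rw [Finset.smul_sum]
      refine Finset.sum_congr rfl fun d hd => ?_
      rw [(Finset.mem_filter.1 hd).2]
    rw [Finset.sum_congr rfl h3]
    exact (Finset.sum_fiberwise_of_maps_to (fun d hd => Finset.mem_image_of_mem _ hd) _).symm
  have hb := fun l => exists_coeff_chi k S l
  choose b hb using hb
  have hcb : ∀ l ∈ S, c l = (b l).sum fun t x => x • ρ (tor t) a := fun l hl =>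
    (sum_smul_eq_coeff (fun (l : Fin m ⊕ Fin r → ℤ) (t : Fin m ⊕ Fin r → kˣ) => (chi l t : k)) S l hl
      (b l) (hb l) (fun t => ρ (tor t) a) c hc).symm
  refine ⟨S, c, b, fun l hl t => ?_, hcb, ?_⟩
  · have h1 := sum_smul_eq_coeff (fun (l : Fin m ⊕ Fin r → ℤ) (t : Fin m ⊕ Fin r → kˣ) =>
      (chi l t : k)) S l hl (b l) (hb l) (fun t' => ρ (tor t) (ρ (tor t') a))
      (fun l => (chi l t : k) • c l) (by
        intro t'
        rw [← AlgEquiv.mul_apply, ← map_mul, ← map_mul, hc]
        refine Finset.sum_congr rfl fun l' _ => ?_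
        rw [chi_mul, Units.val_mul, mul_comm, mul_smul])
    rw [← h1]
    conv_lhs => rw [hcb l hl]
    rw [Finsupp.sum, Finsupp.sum, map_sum]
    refine Finset.sum_congr rfl fun t' _ => ?_
    rw [map_smul]
  · have h1 := hc 1
    rw [map_one, map_one, AlgEquiv.one_apply] at h1
    rw [h1]
    refine Finset.sum_congr rfl fun l _ => ?_
    rw [chi_one, Units.val_one, one_smul]

/-- Row R09c. The action of the upper unitriangular matrices of a factor. -/
theorem exists_up [Infinite k] (ρ : SL(2, k) →* (A ≃ₐ[k] A)) (hρ : IsRat ρ) (a : A) :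
    ∃ (N : ℕ) (c : ℕ → A) (b : ℕ → (k →₀ k)),
      (∀ i, c i = (b i).sum fun s x => x • ρ (up s) a) ∧ c 0 = a ∧
        ∀ s, ρ (up s) a = ∑ i ∈ Finset.range (N + 1), s ^ i • c i := by
  classical
  obtain ⟨P, hP⟩ := hρ a
  let f : Fin 2 × Fin 2 → Polynomial A := fun c =>
    if c = (0, 1) then Polynomial.X else Polynomial.C (if c.1 = c.2 then 1 else 0)
  let p : Polynomial A := MvPolynomial.eval₂ (Polynomial.C) f P
  set N := p.natDegree with hN
  have hp : ∀ s : k, ρ (up s) a = ∑ i ∈ Finset.range (N + 1), s ^ i • p.coeff i := by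
    intro s
    rw [hP, ev]
    have h1 : p.eval (algebraMap k A s) =
        MvPolynomial.eval (fun c => algebraMap k A ((up s).1 c.1 c.2)) P := by
      have h2 : p.eval (algebraMap k A s) = MvPolynomial.eval₂
          ((Polynomial.evalRingHom (algebraMap k A s)).comp (Polynomial.C : A →+* Polynomial A))
          (fun c => (f c).eval (algebraMap k A s)) P :=
        MvPolynomial.polynomial_eval_eval₂ _ _ _
      rw [h2]
      have h3 : (Polynomial.evalRingHom (algebraMap k A s)).comp (Polynomial.C : A →+* _) =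
          RingHom.id A := by
        ext x
        simp
      rw [h3]
      change MvPolynomial.eval _ P = _
      congr 1
      congr 1
      funext c
      obtain ⟨x, y⟩ := c
      fin_cases x <;> fin_cases y <;> simp [f]
    rw [← h1, Polynomial.eval_eq_sum_range]
    refine Finset.sum_congr rfl fun i _ => ?_
    rw [mul_comm, ← map_pow, ← Algebra.smul_def]
  have hb : ∀ j, ∃ b : k →₀ k, j ≤ N → ∀ i ≤ N, (b.sum fun s c => c * s ^ i) =
      if i = j then 1 else 0 := by
    intro j
    by_cases hj : j ≤ N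
    · obtain ⟨b, hb⟩ := exists_coeff_pow k N j hj
      exact ⟨b, fun _ => hb⟩
    · exact ⟨0, fun h => absurd h hj⟩
  choose b hb using hb
  refine ⟨N, fun i => if i ≤ N then p.coeff i else 0, fun i => if i ≤ N then b i else 0, ?_, ?_, ?_⟩
  · intro j
    by_cases hj : j ≤ N
    · simp only [hj, if_true]
      exact (sum_smul_eq_coeff (fun (i : ℕ) (s : k) => s ^ i) (Finset.range (N + 1)) j
        (by simpa [Nat.lt_succ_iff] using hj) (b j)
        (fun i hi => hb j hj i (Nat.lt_succ_iff.1 (Finset.mem_range.1 hi))) (fun s => ρ (up s) a)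
        (fun i => p.coeff i) hp).symm
    · simp [hj]
  · have h1 := hp 0
    rw [up_zero, map_one, AlgEquiv.one_apply] at h1
    change (if 0 ≤ N then p.coeff 0 else 0) = a
    rw [if_pos (Nat.zero_le _)]
    rw [Finset.sum_range_succ'] at h1
    simp at h1
    exact h1.symm
  · intro s
    rw [hp]
    refine Finset.sum_congr rfl fun i hi => ?_
    change _ = s ^ i • (if i ≤ N then p.coeff i else 0)
    rw [if_pos (Nat.lt_succ_iff.1 (Finset.mem_range.1 hi))]

end Pool.Agent.MP_b525bf_ag_R
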