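import Pool.Agent.Lib.MP_b525bf_ag_R.Basic

/-!
# Row R01: coefficients of polynomials and of sums of characters, from the values
-/

set_option autoImplicit false

namespace Pool.Agent.MP_b525bf_ag_R

/-- General form. If the functions `χ i : X → k`, `i ∈ S`, are linearly independent, some finite
linear combination of values picks out the function number `j`. Proof: the vectors
`(χ i x)_{i ∈ S}`, `x : X`, span `S → k` (otherwise a nonzero linear functional on `S → k` vanishes
on all of them, and this is a linear relation between the functions), so `Pi.single j 1` is a linear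
combination of them (`Finsupp.mem_span_range_iff_exists_finsupp`). -/
theorem exists_coeff {k X ι : Type} [Field k] [DecidableEq ι] (χ : ι → X → k) (S : Finset ι)
    (h : LinearIndependent k (fun i : S => χ i)) (j : ι) (hj : j ∈ S) :
    ∃ b : X →₀ k, ∀ i ∈ S, (b.sum fun x c => c * χ i x) = if i = j then 1 else 0 := by
  classical
  set w : X → (S → k) := fun x i => χ i x with hw
  have hspan : Submodule.span k (Set.range w) = ⊤ := by
    by_contra hne
    obtain ⟨f, hf0, hf⟩ := Submodule.exists_le_ker_of_lt_top _ (lt_top_iff_ne_top.2 hne)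
    apply hf0
    have h1 : ∀ i : S, f (fun j => if i = j then 1 else 0) = 0 := by
      have h2 := Fintype.linearIndependent_iff.1 h
        (fun i : S => f (fun j => if i = j then 1 else 0))
      apply h2
      funext x
      have h3 : f (w x) = 0 := hf (Submodule.subset_span ⟨x, rfl⟩)
      rw [LinearMap.pi_apply_eq_sum_univ f (w x)] at h3
      rw [Finset.sum_apply, Pi.zero_apply]
      refine Eq.trans (Finset.sum_congr rfl fun i _ => ?_) h3
      rw [Pi.smul_apply, smul_eq_mul, smul_eq_mul, mul_comm]
    refine LinearMap.ext fun v => ?_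
    rw [LinearMap.pi_apply_eq_sum_univ, LinearMap.zero_apply]
    exact Finset.sum_eq_zero fun i _ => by rw [h1 i, smul_zero]
  have hmem : (Pi.single (⟨j, hj⟩ : S) (1 : k)) ∈ Submodule.span k (Set.range w) := by
    rw [hspan]
    exact Submodule.mem_top
  obtain ⟨b, hb⟩ := Finsupp.mem_span_range_iff_exists_finsupp.1 hmem
  refine ⟨b, fun i hi => ?_⟩
  have h1 := congrFun hb (⟨i, hi⟩ : S)
  unfold Finsupp.sum at h1 ⊢
  rw [Finset.sum_apply] at h1
  simp only [Pi.smul_apply, smul_eq_mul] at h1
  rw [Pi.single_apply] at h1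
  simpa [Subtype.ext_iff] using h1

private theorem R01_on {k : Type} [Field k] (T : Set k) (hT : T.Infinite) (N : ℕ) (j : ℕ)
    (hj : j ≤ N) : ∃ b : k →₀ k, (b.support : Set k) ⊆ T ∧
      ∀ i ≤ N, (b.sum fun s c => c * s ^ i) = if i = j then 1 else 0 := by
  classical
  have hind : LinearIndependent k (fun i : Finset.range (N + 1) =>
      (fun x : T => (x : k) ^ (i : ℕ))) := by
    rw [Fintype.linearIndependent_iff]
    intro g hg
    set P : Polynomial k := ∑ i : Finset.range (N + 1), Polynomial.monomial (i : ℕ) (g i) with hP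
    have hP0 : P = 0 := by
      apply Polynomial.eq_zero_of_infinite_isRoot
      refine hT.mono fun x hx => ?_
      have h1 := congrFun hg (⟨x, hx⟩ : T)
      rw [Finset.sum_apply, Pi.zero_apply] at h1
      show P.IsRoot x
      rw [Polynomial.IsRoot.def, hP, Polynomial.eval_finsetSum, ← h1]
      refine Finset.sum_congr rfl fun i _ => ?_
      rw [Polynomial.eval_monomial, Pi.smul_apply, smul_eq_mul]
    intro i
    have h2 := congrArg (fun Q : Polynomial k => Q.coeff (i : ℕ)) hP0
    simp only [hP, Polynomial.finsetSum_coeff, Polynomial.coeff_monomial,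
      Polynomial.coeff_zero] at h2
    rw [Finset.sum_eq_single i] at h2
    · simpa using h2
    · intro b _ hb
      rw [if_neg]
      intro h3
      exact hb (Subtype.ext h3)
    · intro h3
      exact absurd (Finset.mem_univ i) h3
  obtain ⟨b, hb⟩ := exists_coeff (fun (i : ℕ) (x : T) => (x : k) ^ i) (Finset.range (N + 1)) hind j
    (Finset.mem_range.2 (by omega))
  refine ⟨b.mapDomain Subtype.val, ?_, fun i hi => ?_⟩
  · intro x hx
    have h1 := Finsupp.mapDomain_support hx
    obtain ⟨y, -, rfl⟩ := Finset.mem_image.1 h1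
    exact y.2
  · rw [Finsupp.sum_mapDomain_index (fun _ => by rw [zero_mul]) (fun _ _ _ => by rw [add_mul])]
    exact hb i (Finset.mem_range.2 (by omega))

/-- Coefficients of polynomials in one variable over an infinite field. -/
theorem exists_coeff_pow (k : Type) [Field k] [Infinite k] (N : ℕ) (j : ℕ) (hj : j ≤ N) :
    ∃ b : k →₀ k, ∀ i ≤ N, (b.sum fun s c => c * s ^ i) = if i = j then 1 else 0 := by
  obtain ⟨b, -, hb⟩ := R01_on (Set.univ : Set k) Set.infinite_univ N j hj
  exact ⟨b, hb⟩

/-- The same with values at the points of a given infinite set. -/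
theorem exists_coeff_pow_on {k : Type} [Field k] (T : Set k) (hT : T.Infinite) (N : ℕ) (j : ℕ)
    (hj : j ≤ N) : ∃ b : k →₀ k, (b.support : Set k) ⊆ T ∧
      ∀ i ≤ N, (b.sum fun s c => c * s ^ i) = if i = j then 1 else 0 := by
  exact R01_on T hT N j hj

private theorem R01_zpow {k : Type} [Field k] [Infinite k] {m : ℤ} (h : ∀ u : kˣ, u ^ m = 1) :
    m = 0 := by
  by_contra hm
  have hn : 0 < m.natAbs := Int.natAbs_pos.2 hm
  have h1 : ∀ u : kˣ, u ^ m.natAbs = 1 := by
    intro u
    rcases Int.natAbs_eq m with h2 | h2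
    · have h3 := h u
      rw [h2, zpow_natCast] at h3
      exact h3
    · have h3 := h u
      rw [h2, zpow_neg, zpow_natCast, inv_eq_one] at h3
      exact h3
  have h2 : (Polynomial.X ^ m.natAbs - Polynomial.C (1 : k)) = 0 := by
    apply Polynomial.eq_zero_of_infinite_isRoot
    have h3 : (Set.univ \ {0} : Set k).Infinite := Set.infinite_univ.sdiff (Set.finite_singleton 0)
    refine h3.mono fun x hx => ?_
    have hx0 : x ≠ 0 := fun h4 => hx.2 h4
    have h4 := congrArg (fun u : kˣ => (u : k)) (h1 (Units.mk0 x hx0))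
    simp only [Units.val_pow_eq_pow_val, Units.val_mk0, Units.val_one] at h4
    show Polynomial.IsRoot _ x
    simp [h4]
  exact Polynomial.X_pow_sub_C_ne_zero hn (1 : k) h2

/-- Coefficients of sums of characters of a torus (`linearIndependent_monoidHom`; the characters
with different exponents are different, since `k` is infinite). Here `l` need not be in `S`. -/
theorem exists_coeff_chi (k : Type) [Field k] [Infinite k] {ι : Type} [Fintype ι]
    (S : Finset (ι → ℤ)) (l : ι → ℤ) [DecidableEq (ι → ℤ)] :
    ∃ b : (ι → kˣ) →₀ k, ∀ l' ∈ S,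
      (b.sum fun t c => c * (chi l' t : k)) = if l' = l then 1 else 0 := by
  classical
  have hinj : Function.Injective (fun l' : ι → ℤ =>
      ((Units.coeHom k).comp (MonoidHom.mk' (fun t : ι → kˣ => chi l' t)
        (chi_mul l')) : (ι → kˣ) →* k)) := by
    intro l₁ l₂ h12
    funext i
    by_contra hne
    apply hne
    have h1 : ∀ u : kˣ, u ^ (l₁ i - l₂ i) = 1 := by
      intro u
      have h2 := DFunLike.congr_fun h12 (Pi.mulSingle i u)
      have h3 : ∀ l : ι → ℤ, chi l (Pi.mulSingle i u) = u ^ l i := by
        intro l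
        unfold chi
        rw [Finset.prod_eq_single i]
        · rw [Pi.mulSingle_eq_same]
        · intro j _ hj
          rw [Pi.mulSingle_eq_of_ne hj, one_zpow]
        · intro h4
          exact absurd (Finset.mem_univ i) h4
      have h4 : ((chi l₁ (Pi.mulSingle i u) : kˣ) : k) = (chi l₂ (Pi.mulSingle i u) : kˣ) := h2
      have h5 := Units.ext h4
      rw [h3, h3] at h5
      rw [zpow_sub, h5, mul_inv_cancel]
    have h2 := R01_zpow (k := k) h1
    omega
  have hind := (linearIndependent_monoidHom (ι → kˣ) k).comp _ hinj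
  have hind' := hind.comp (Subtype.val : ((insert l S : Finset (ι → ℤ)) : Set (ι → ℤ)) → (ι → ℤ))
    Subtype.val_injective
  obtain ⟨b, hb⟩ := exists_coeff (fun (l' : ι → ℤ) (t : ι → kˣ) => (chi l' t : k)) (insert l S)
    hind' l (Finset.mem_insert_self l S)
  exact ⟨b, fun l' hl' => hb l' (Finset.mem_insert_of_mem hl')⟩

/-- Coefficients of Laurent polynomials in one variable. Here `n` need not be in `S`. -/
theorem exists_coeff_zpow (k : Type) [Field k] [Infinite k] (S : Finset ℤ) (n : ℤ) :
    ∃ b : kˣ →₀ k, ∀ i ∈ S, (b.sum fun t c => c * ((t ^ i : kˣ) : k)) = if i = n then 1 else 0 := by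
  classical
  have hinj : Function.Injective (fun i : ℤ =>
      ((Units.coeHom k).comp (zpowGroupHom i) : kˣ →* k)) := by
    intro i j hij
    have h1 : ∀ u : kˣ, u ^ (i - j) = 1 := by
      intro u
      have h2 := DFunLike.congr_fun hij u
      have h4 : ((u ^ i : kˣ) : k) = (u ^ j : kˣ) := h2
      have h5 := Units.ext h4
      rw [zpow_sub, h5, mul_inv_cancel]
    have h2 := R01_zpow (k := k) h1
    omega
  have hind := (linearIndependent_monoidHom kˣ k).comp _ hinj
  have hind' := hind.comp (Subtype.val : ((insert n S : Finset ℤ) : Set ℤ) → ℤ)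
    Subtype.val_injective
  obtain ⟨b, hb⟩ := exists_coeff (fun (i : ℤ) (t : kˣ) => ((t ^ i : kˣ) : k)) (insert n S)
    hind' n (Finset.mem_insert_self n S)
  exact ⟨b, fun i hi => hb i (Finset.mem_insert_of_mem hi)⟩

/-- The application: if `F x = ∑ i ∈ S, χ i x • c i` then the coefficient `c j` is
`b.sum fun x a => a • F x` for the `b` above. -/
theorem sum_smul_eq_coeff {k X ι M : Type} [Field k] [DecidableEq ι] [AddCommGroup M] [Module k M]
    (χ : ι → X → k) (S : Finset ι) (j : ι) (hj : j ∈ S) (b : X →₀ k)
    (hb : ∀ i ∈ S, (b.sum fun x c => c * χ i x) = if i = j then 1 else 0) (F : X → M) (c : ι → M)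
    (hF : ∀ x, F x = ∑ i ∈ S, χ i x • c i) : (b.sum fun x a => a • F x) = c j := by
  unfold Finsupp.sum at hb ⊢
  calc ∑ x ∈ b.support, b x • F x = ∑ x ∈ b.support, ∑ i ∈ S, (b x * χ i x) • c i := by
        refine Finset.sum_congr rfl fun x _ => ?_
        rw [hF, Finset.smul_sum]
        exact Finset.sum_congr rfl fun i _ => by rw [smul_smul]
    _ = ∑ i ∈ S, (∑ x ∈ b.support, b x * χ i x) • c i := by
        rw [Finset.sum_comm]
        exact Finset.sum_congr rfl fun i _ => by rw [Finset.sum_smul]
    _ = ∑ i ∈ S, (if i = j then (1 : k) else 0) • c i :=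
        Finset.sum_congr rfl fun i hi => by rw [hb i hi]
    _ = c j := by
        rw [Finset.sum_eq_single j]
        · rw [if_pos rfl, one_smul]
        · intro i _ hij
          rw [if_neg hij, zero_smul]
        · intro h
          exact absurd hj h

end Pool.Agent.MP_b525bf_ag_R
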