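import Pool.Agent.Lib.MP_b525bf_ag_R.Defs

/-!
# Rational actions of `SL_2(k)^m × (k^*)^r`: the notions used in the proofs
-/

set_option autoImplicit false

namespace Pool.Agent.MP_b525bf_ag_R

open Matrix.SpecialLinearGroup
open scoped MatrixGroups

section SL2

variable {k : Type} [Field k]

/-- The upper unitriangular matrix with entry `s`. -/
def up (s : k) : SL(2, k) := ⟨!![1, s; 0, 1], by simp [Matrix.det_fin_two_of]⟩

/-- The lower unitriangular matrix with entry `s`. -/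
def lo (s : k) : SL(2, k) := ⟨!![1, 0; s, 1], by simp [Matrix.det_fin_two_of]⟩

/-- The diagonal matrix with entries `t`, `t⁻¹`. -/
def dg (t : kˣ) : SL(2, k) := ⟨!![(t : k), 0; 0, ((t⁻¹ : kˣ) : k)], by
  simp [Matrix.det_fin_two_of]⟩

theorem mul00 (g h : SL(2, k)) : (g * h).1 0 0 = g.1 0 0 * h.1 0 0 + g.1 0 1 * h.1 1 0 := by
  rw [← Fin.sum_univ_two fun j => g.1 0 j * h.1 j 0, ← Matrix.mul_apply]
  rfl

theorem mul01 (g h : SL(2, k)) : (g * h).1 0 1 = g.1 0 0 * h.1 0 1 + g.1 0 1 * h.1 1 1 := by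
  rw [← Fin.sum_univ_two fun j => g.1 0 j * h.1 j 1, ← Matrix.mul_apply]
  rfl

theorem mul10 (g h : SL(2, k)) : (g * h).1 1 0 = g.1 1 0 * h.1 0 0 + g.1 1 1 * h.1 1 0 := by
  rw [← Fin.sum_univ_two fun j => g.1 1 j * h.1 j 0, ← Matrix.mul_apply]
  rfl

theorem mul11 (g h : SL(2, k)) : (g * h).1 1 1 = g.1 1 0 * h.1 0 1 + g.1 1 1 * h.1 1 1 := by
  rw [← Fin.sum_univ_two fun j => g.1 1 j * h.1 j 1, ← Matrix.mul_apply]
  rfl

theorem ext4 {g h : SL(2, k)} (h00 : g.1 0 0 = h.1 0 0) (h01 : g.1 0 1 = h.1 0 1)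
    (h10 : g.1 1 0 = h.1 1 0) (h11 : g.1 1 1 = h.1 1 1) : g = h := by
  ext a b
  fin_cases a <;> fin_cases b <;> assumption

theorem det_eq (g : SL(2, k)) : g.1 0 0 * g.1 1 1 - g.1 0 1 * g.1 1 0 = 1 := by
  rw [← Matrix.det_fin_two, g.2]

@[simp] theorem up00 (s : k) : (up s).1 0 0 = 1 := rfl
@[simp] theorem up01 (s : k) : (up s).1 0 1 = s := rfl
@[simp] theorem up10 (s : k) : (up s).1 1 0 = 0 := rfl
@[simp] theorem up11 (s : k) : (up s).1 1 1 = 1 := rfl
@[simp] theorem lo00 (s : k) : (lo s).1 0 0 = 1 := rfl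
@[simp] theorem lo01 (s : k) : (lo s).1 0 1 = 0 := rfl
@[simp] theorem lo10 (s : k) : (lo s).1 1 0 = s := rfl
@[simp] theorem lo11 (s : k) : (lo s).1 1 1 = 1 := rfl
@[simp] theorem dg00 (t : kˣ) : (dg t).1 0 0 = t := rfl
@[simp] theorem dg01 (t : kˣ) : (dg t).1 0 1 = 0 := rfl
@[simp] theorem dg10 (t : kˣ) : (dg t).1 1 0 = 0 := rfl
@[simp] theorem dg11 (t : kˣ) : (dg t).1 1 1 = ((t⁻¹ : kˣ) : k) := rfl

theorem dg_one : dg (1 : kˣ) = 1 := by
  refine ext4 ?_ ?_ ?_ ?_ <;> simp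

theorem dg_mul (t t' : kˣ) : dg (t * t') = dg t * dg t' := by
  refine ext4 ?_ ?_ ?_ ?_ <;> simp [mul00, mul01, mul10, mul11, mul_comm]

theorem up_zero : up (0 : k) = 1 := by
  refine ext4 ?_ ?_ ?_ ?_ <;> simp

theorem up_add (s s' : k) : up (s + s') = up s * up s' := by
  refine ext4 ?_ ?_ ?_ ?_ <;> simp [mul00, mul01, mul10, mul11, add_comm]

theorem lo_zero : lo (0 : k) = 1 := by
  refine ext4 ?_ ?_ ?_ ?_ <;> simp

theorem lo_add (s s' : k) : lo (s + s') = lo s * lo s' := by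
  refine ext4 ?_ ?_ ?_ ?_ <;> simp [mul00, mul01, mul10, mul11]

/-- Two matrices and the torus. -/
theorem dg_mul_up (t : kˣ) (s : k) : dg t * up s = up ((t : k) ^ 2 * s) * dg t := by
  refine ext4 ?_ ?_ ?_ ?_ <;> simp [mul00, mul01, mul10, mul11]
  field_simp

theorem dg_mul_lo (t : kˣ) (s : k) :
    dg t * lo s = lo ((((t⁻¹ : kˣ) : k)) ^ 2 * s) * dg t := by
  refine ext4 ?_ ?_ ?_ ?_ <;> simp [mul00, mul01, mul10, mul11]
  field_simp

variable {A : Type} [CommRing A] [Algebra k A]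

/-- The value of the polynomial `P` at the matrix `g`. -/
noncomputable def ev (P : MvPolynomial (Fin 2 × Fin 2) A) (g : SL(2, k)) : A :=
  MvPolynomial.eval (fun c => algebraMap k A (g.1 c.1 c.2)) P

/-- Rational actions of `SL_2`. -/
def IsRat (ρ : SL(2, k) →* (A ≃ₐ[k] A)) : Prop :=
  ∀ a : A, ∃ P : MvPolynomial (Fin 2 × Fin 2) A, ∀ g, ρ g a = ev P g

/-- The form of bidegree `(n, n)` with coefficients `N`. -/
def biform (n : ℕ) (N : Fin (n + 1) → Fin (n + 1) → A) (z w : Fin 2 → k) : A :=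
  ∑ a : Fin (n + 1), ∑ b : Fin (n + 1),
    (z 0 ^ (n - (a : ℕ)) * z 1 ^ (a : ℕ) * (w 0 ^ (n - (b : ℕ)) * w 1 ^ (b : ℕ))) • N a b

end SL2

section Torus

variable {k : Type} [Field k] {ι : Type} [Fintype ι]

/-- The character of the torus with exponents `l`. -/
def chi (l : ι → ℤ) (t : ι → kˣ) : kˣ := ∏ i, t i ^ l i

theorem chi_mul (l : ι → ℤ) (t t' : ι → kˣ) : chi l (t * t') = chi l t * chi l t' := by
  simp [chi, mul_zpow, Finset.prod_mul_distrib]

theorem chi_one (l : ι → ℤ) : chi (k := k) l 1 = 1 := by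
  simp [chi]

theorem chi_add (l l' : ι → ℤ) (t : ι → kˣ) : chi (l + l') t = chi l t * chi l' t := by
  simp [chi, zpow_add, Finset.prod_mul_distrib]

theorem chi_neg (l : ι → ℤ) (t : ι → kˣ) : chi (-l) t = (chi l t)⁻¹ := by
  simp [chi]

theorem chi_zero (t : ι → kˣ) : chi (0 : ι → ℤ) t = 1 := by
  simp [chi]

end Torus

section Emb

variable {k : Type} [Field k] {m r : ℕ}

/-- The diagonal torus of `SL_2(k)^m × (k^*)^r`. -/
def tor : ((Fin m ⊕ Fin r) → kˣ) →* SLT k m r where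
  toFun t := (fun i => dg (t (Sum.inl i)), fun j => t (Sum.inr j))
  map_one' := Prod.ext (funext fun _ => dg_one) rfl
  map_mul' _ _ := Prod.ext (funext fun _ => dg_mul _ _) rfl

/-- The embedding of the factor number `i`. -/
def sl (i : Fin m) : SL(2, k) →* SLT k m r where
  toFun g := (Pi.mulSingle i g, 1)
  map_one' := by simp
  map_mul' g g' := by simp [Pi.mulSingle_mul]

/-- `a` is a weight vector of weight `l`. -/
def IsWt {A : Type} [CommRing A] [Algebra k A] (ρ : SLT k m r →* (A ≃ₐ[k] A))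
    (l : Fin m ⊕ Fin r → ℤ) (a : A) : Prop :=
  ∀ t : Fin m ⊕ Fin r → kˣ, ρ (tor t) a = (chi l t : k) • a

/-- `a` is invariant under the unitriangular matrices of all the factors. -/
def IsU {A : Type} [CommRing A] [Algebra k A] (ρ : SLT k m r →* (A ≃ₐ[k] A)) (a : A) : Prop :=
  ∀ (i : Fin m) (s : k), ρ (sl i (up s)) a = a

end Emb

end Pool.Agent.MP_b525bf_ag_R
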