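import Pool.Agent.Lib.LU2_h15.Defs

/-!
# Row R17: elements with independent values and residues
-/

set_option autoImplicit false

namespace Pool.Agent.MP_b525bf_ag_R

open Pool.Agent.LU2

variable {k K : Type} [Field k] [Field K] [Algebra k K]

/-- `S` contains `r` elements with independent values and `d` elements with independent residues,
`r + d = n`. -/
def Ab (V : ValuationSubring K) (S : IntermediateField k K) (n : ℕ) : Prop :=
  ∃ r d : ℕ, r + d = n ∧ (∃ x : Fin r → K, (∀ i, x i ∈ S) ∧ IndVal V x) ∧
    ∃ z : Fin d → K, (∀ i, z i ∈ S) ∧ IndRes k V z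

private theorem val_constA (V : ValuationSubring K) (hk : ∀ c : k, algebraMap k K c ∈ V) {c : k}
    (hc : V.valuation (algebraMap k K c) < 1) : c = 0 := by
  by_contra h0
  have h1 := (V.valuation_le_one_iff _).2 (hk c⁻¹)
  rw [map_inv₀, map_inv₀] at h1
  have h2 : 0 < V.valuation (algebraMap k K c) := by
    rw [Valuation.pos_iff]
    exact (map_ne_zero _).2 h0
  rw [inv_le_one₀ h2] at h1
  exact absurd hc (not_lt.2 h1)

theorem ab_bot (V : ValuationSubring K) (hk : ∀ c : k, algebraMap k K c ∈ V) :
    Ab V (⊥ : IntermediateField k K) 0 := by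
  refine ⟨0, 0, rfl, ⟨Fin.elim0, fun i => i.elim0, fun i => i.elim0, fun e _ => ?_⟩, Fin.elim0,
    fun i => i.elim0, fun i => i.elim0, fun P hP => ?_⟩
  · exact Finsupp.ext fun i => i.elim0
  · obtain ⟨c, rfl⟩ := MvPolynomial.C_surjective (Fin 0) P
    rw [MvPolynomial.aeval_C] at hP
    rw [val_constA V hk hP, MvPolynomial.C_0]

private theorem aeval_consA {d : ℕ} (z' : K) (z : Fin d → K) (P : MvPolynomial (Fin (d + 1)) k) :
    MvPolynomial.aeval (Fin.cons z' z : Fin (d + 1) → K) P =
      ((MvPolynomial.finSuccEquiv k d P).map (MvPolynomial.aeval z : MvPolynomial (Fin d) k →ₐ[k] K)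
        |>.eval z') := by
  have h1 : (MvPolynomial.aeval (Fin.cons z' z : Fin (d + 1) → K) :
      MvPolynomial (Fin (d + 1)) k →ₐ[k] K).toRingHom =
      ((Polynomial.evalRingHom z').comp (Polynomial.mapRingHom
        (MvPolynomial.aeval z : MvPolynomial (Fin d) k →ₐ[k] K).toRingHom)).comp
        (MvPolynomial.finSuccEquiv k d).toAlgHom.toRingHom := by
    refine MvPolynomial.ringHom_ext (fun c => ?_) (fun i => ?_)
    · change MvPolynomial.aeval (Fin.cons z' z : Fin (d + 1) → K) (MvPolynomial.C c) =
        ((MvPolynomial.finSuccEquiv k d (MvPolynomial.C c)).map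
          (MvPolynomial.aeval z : MvPolynomial (Fin d) k →ₐ[k] K).toRingHom).eval z'
      rw [MvPolynomial.finSuccEquiv_apply]
      simp
    · change MvPolynomial.aeval (Fin.cons z' z : Fin (d + 1) → K) (MvPolynomial.X i) =
        ((MvPolynomial.finSuccEquiv k d (MvPolynomial.X i)).map
          (MvPolynomial.aeval z : MvPolynomial (Fin d) k →ₐ[k] K).toRingHom).eval z'
      refine Fin.cases ?_ (fun j => ?_) i
      · rw [MvPolynomial.finSuccEquiv_X_zero]
        simp
      · rw [MvPolynomial.finSuccEquiv_X_succ]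
        simp
  exact congrArg (fun f : MvPolynomial (Fin (d + 1)) k →+* K => f P) h1

/-- Row R17. One more element, on which the valuation is the Gauss valuation. -/
theorem ab_step (V : ValuationSubring K) (hk : ∀ c : k, algebraMap k K c ∈ V)
    (S : IntermediateField k K) (n : ℕ) (h : Ab V S n) (y : K) (hy : y ≠ 0)
    (hG : ∀ P : Polynomial K, (∀ i, P.coeff i ∈ S) → ∀ i,
      V.valuation (P.coeff i * y ^ i) ≤ V.valuation (P.eval y)) :
    Ab V (S ⊔ IntermediateField.adjoin k {y}) (n + 1) := by
  obtain ⟨r, d, hrd, ⟨x, hxS, hx0, hx⟩, z, hzS, hzV, hz⟩ := h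
  have hS : S ≤ S ⊔ IntermediateField.adjoin k {y} := le_sup_left
  have hyS : y ∈ S ⊔ IntermediateField.adjoin k {y} :=
    (le_sup_right : IntermediateField.adjoin k {y} ≤ _) (IntermediateField.mem_adjoin_simple_self k y)
  by_cases hcase : ∃ N : ℕ, 0 < N ∧ ∃ s ∈ S, V.valuation (y ^ N) = V.valuation s
  · obtain ⟨N, hN, s, hs, hsy⟩ := hcase
    have hs0 : s ≠ 0 := by
      rintro rfl
      rw [map_zero, map_pow] at hsy
      exact pow_ne_zero N ((Valuation.ne_zero_iff _).2 hy) hsy
    have hsv : V.valuation s ≠ 0 := (Valuation.ne_zero_iff _).2 hs0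
    set z' : K := s⁻¹ * y ^ N with hz'
    have hz'v : V.valuation z' = 1 := by
      rw [hz', map_mul, map_inv₀, hsy, inv_mul_cancel₀ hsv]
    refine ⟨r, d + 1, by omega, ⟨x, fun i => hS (hxS i), hx0, hx⟩, Fin.cons z' z, ?_, ?_, ?_⟩
    · intro i
      refine Fin.cases ?_ (fun j => ?_) i
      · rw [Fin.cons_zero]
        exact mul_mem (inv_mem (hS hs)) (pow_mem hyS N)
      · rw [Fin.cons_succ]
        exact hS (hzS j)
    · intro i
      refine Fin.cases ?_ (fun j => ?_) i
      · rw [Fin.cons_zero, ← V.valuation_le_one_iff, hz'v]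
      · rw [Fin.cons_succ]
        exact hzV j
    · intro P hP
      set Q := MvPolynomial.finSuccEquiv k d P with hQ
      set φ : MvPolynomial (Fin d) k →+* K :=
        (MvPolynomial.aeval z : MvPolynomial (Fin d) k →ₐ[k] K).toRingHom with hφ
      have hφS : ∀ p, φ p ∈ S := by
        intro p
        have h1 : (MvPolynomial.aeval z p) ∈ Algebra.adjoin k (Set.range z) := by
          rw [Algebra.adjoin_range_eq_range_aeval]
          exact ⟨p, rfl⟩
        refine (Algebra.adjoin_le (S := S.toSubalgebra) ?_) h1
        rintro _ ⟨i, rfl⟩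
        exact hzS i
      set R : Polynomial K :=
        Polynomial.expand K N ((Q.map φ).comp (Polynomial.C s⁻¹ * Polynomial.X)) with hR
      have hReval : R.eval y = MvPolynomial.aeval (Fin.cons z' z : Fin (d + 1) → K) P := by
        rw [aeval_consA, hR, Polynomial.expand_eval, Polynomial.eval_comp, Polynomial.eval_mul,
          Polynomial.eval_C, Polynomial.eval_X]
        rfl
      have hRS : ∀ i, R.coeff i ∈ S := by
        intro i
        rw [hR, Polynomial.coeff_expand hN]
        split_ifs
        · rw [Polynomial.comp_C_mul_X_coeff, Polynomial.coeff_map]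
          exact mul_mem (hφS _) (pow_mem (inv_mem hs) _)
        · exact zero_mem _
      have hQ0 : Q = 0 := by
        ext1 i
        rw [Polynomial.coeff_zero]
        refine hz _ ?_
        have h1 := hG R hRS (i * N)
        rw [hReval] at h1
        have h2 : R.coeff (i * N) * y ^ (i * N) = φ (Q.coeff i) * z' ^ i := by
          rw [hR, Polynomial.coeff_expand_mul hN, Polynomial.comp_C_mul_X_coeff,
            Polynomial.coeff_map, hz', mul_pow, ← pow_mul, mul_comm N i]
          ring
        rw [h2, map_mul, map_pow, hz'v, one_pow, mul_one] at h1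
        exact h1.trans_lt hP
      exact (MvPolynomial.finSuccEquiv k d).injective (by rw [← hQ, hQ0, map_zero])
  · refine ⟨r + 1, d, by omega, ⟨Fin.snoc (α := fun _ => K) x y, ?_, ?_, ?_⟩, z,
      fun i => hS (hzS i), hzV, hz⟩
    · intro i
      refine Fin.lastCases ?_ (fun j => ?_) i
      · rw [Fin.snoc_last]
        exact hyS
      · rw [Fin.snoc_castSucc]
        exact hS (hxS j)
    · intro i
      refine Fin.lastCases ?_ (fun j => ?_) i
      · rw [Fin.snoc_last]
        exact hy
      · rw [Fin.snoc_castSucc]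
        exact hx0 j
    · intro e he
      rw [Finsupp.prod_fintype _ _ (fun i => zpow_zero _), Fin.prod_univ_castSucc,
        Fin.snoc_last] at he
      simp only [Fin.snoc_castSucc] at he
      set m := ∏ i : Fin r, x i ^ e i.castSucc with hm
      have hmS : m ∈ S := prod_mem fun i _ => zpow_mem (hxS i) _
      have hm0 : m ≠ 0 := Finset.prod_ne_zero_iff.2 fun i _ => zpow_ne_zero _ (hx0 i)
      have hmv : V.valuation m ≠ 0 := (Valuation.ne_zero_iff _).2 hm0
      have hyv : V.valuation y ≠ 0 := (Valuation.ne_zero_iff _).2 hy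
      rw [map_mul, map_zpow₀] at he
      have hlast : e (Fin.last r) = 0 := by
        rcases lt_trichotomy (e (Fin.last r)) 0 with hlt | h0 | hgt
        · exfalso
          obtain ⟨N, hN⟩ := Int.eq_ofNat_of_zero_le (neg_nonneg.2 hlt.le)
          have hN' : e (Fin.last r) = -(N : ℤ) := by omega
          refine hcase ⟨N, by omega, m, hmS, ?_⟩
          rw [hN', zpow_neg, zpow_natCast] at he
          rw [map_pow]
          exact (eq_of_div_eq_one (by rw [div_eq_mul_inv]; exact he)).symm
        · exact h0
        · exfalso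
          obtain ⟨N, hN⟩ := Int.eq_ofNat_of_zero_le hgt.le
          refine hcase ⟨N, by omega, m⁻¹, inv_mem hmS, ?_⟩
          rw [hN, zpow_natCast] at he
          rw [map_pow, map_inv₀]
          exact eq_inv_of_mul_eq_one_right he
      rw [hlast, zpow_zero, mul_one] at he
      have h1 := hx (Finsupp.equivFunOnFinite.symm fun i => e i.castSucc) (by
        rw [Finsupp.prod_fintype _ _ (fun i => zpow_zero _)]
        exact he)
      ext i
      refine Fin.lastCases ?_ (fun j => ?_) i
      · exact hlast
      · exact DFunLike.congr_fun h1 j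

end Pool.Agent.MP_b525bf_ag_R
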