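import Pool.Agent.Lib.MP_b525bf_ag_R.TWT

/-!
# Row R11: a vector fixed by the unipotent group, modulo a stable subspace
-/

set_option autoImplicit false

namespace Pool.Agent.MP_b525bf_ag_R

open Matrix.SpecialLinearGroup
open scoped MatrixGroups

section Fix

variable {k : Type} [Field k] {m r : ℕ} {A : Type} [CommRing A] [Algebra k A]

/-- The span of an orbit is stable. -/
theorem span_orbit_stable (ρ : SLT k m r →* (A ≃ₐ[k] A)) (a : A) (h : SLT k m r) (x : A)
    (hx : x ∈ Submodule.span k (Set.range fun g => ρ g a)) :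
    ρ h x ∈ Submodule.span k (Set.range fun g => ρ g a) := by
  induction hx using Submodule.span_induction with
  | mem x hx =>
    obtain ⟨g, rfl⟩ := hx
    refine Submodule.subset_span ⟨h * g, ?_⟩
    simp only [map_mul, AlgEquiv.mul_apply]
  | zero => rw [map_zero]; exact Submodule.zero_mem _
  | add x y _ _ ihx ihy => rw [map_add]; exact Submodule.add_mem _ ihx ihy
  | smul c x _ ih => rw [map_smul]; exact Submodule.smul_mem _ _ ih

/-- One factor. -/
theorem exists_fixed_mod_one [Infinite k] (ρ : SL(2, k) →* (A ≃ₐ[k] A)) (hρ : IsRat ρ)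
    (E : Submodule k A) (x : A) (hx : x ∉ E) :
    ∃ b : k →₀ k, (b.sum fun s c => c • ρ (up s) x) ∉ E ∧
      ∀ s, ρ (up s) (b.sum fun s c => c • ρ (up s) x) - (b.sum fun s c => c • ρ (up s) x) ∈ E := by
  classical
  obtain ⟨N, c, b, hb, h0, hc⟩ := exists_up ρ hρ x
  obtain ⟨j, hj, hjN, hjmax⟩ : ∃ j, c j ∉ E ∧ j ≤ N ∧ ∀ i ≤ N, j < i → c i ∈ E := by
    have hne : ((Finset.range (N + 1)).filter fun i => c i ∉ E).Nonempty :=
      ⟨0, Finset.mem_filter.2 ⟨Finset.mem_range.2 (Nat.succ_pos _), by rw [h0]; exact hx⟩⟩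
    refine ⟨((Finset.range (N + 1)).filter fun i => c i ∉ E).max' hne, ?_, ?_, ?_⟩
    · exact (Finset.mem_filter.1 (Finset.max'_mem _ hne)).2
    · have := Finset.mem_range.1 (Finset.mem_filter.1 (Finset.max'_mem _ hne)).1
      omega
    · intro i hi hlt
      by_contra hcon
      have h1 : i ∈ (Finset.range (N + 1)).filter fun i => c i ∉ E :=
        Finset.mem_filter.2 ⟨Finset.mem_range.2 (Nat.lt_succ_of_le hi), hcon⟩
      exact absurd (Finset.le_max' _ i h1) (not_le.2 hlt)
  refine ⟨b j, by rw [← hb]; exact hj, fun s => ?_⟩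
  rw [← hb]
  obtain ⟨b', hb'⟩ := exists_coeff_pow k N j hjN
  have hb'' : ∀ i ∈ Finset.range (N + 1), (b'.sum fun x c => c * x ^ i) = if i = j then 1 else 0 :=
    fun i hi => hb' i (by have := Finset.mem_range.1 hi; omega)
  have hjr : j ∈ Finset.range (N + 1) := Finset.mem_range.2 (by omega)
  have e1 := sum_smul_eq_coeff (fun (i : ℕ) (t : k) => t ^ i) (Finset.range (N + 1)) j hjr b' hb''
    (fun t => ρ (up s) (ρ (up t) x)) (fun i => ρ (up s) (c i)) (fun t => by
      rw [hc t, map_sum]
      refine Finset.sum_congr rfl fun i _ => ?_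
      rw [map_smul])
  have e2 := sum_smul_eq_coeff (fun (i : ℕ) (t : k) => t ^ i) (Finset.range (N + 1)) j hjr b' hb''
    (fun t => ρ (up s) (ρ (up t) x))
    (fun i => ∑ n ∈ Finset.range (N + 1), (s ^ (n - i) * (n.choose i : k)) • c n) (fun t => by
      have h1 : ρ (up s) (ρ (up t) x) = ρ (up (t + s)) x := by
        rw [add_comm, up_add, map_mul, AlgEquiv.mul_apply]
      rw [h1, hc]
      simp only [Finset.smul_sum, smul_smul]
      rw [Finset.sum_comm]
      refine Finset.sum_congr rfl fun n hn => ?_
      rw [← Finset.sum_smul]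
      congr 1
      rw [add_pow]
      refine (Finset.sum_subset ?_ ?_).trans (Finset.sum_congr rfl fun i _ => ?_)
      · exact Finset.range_subset_range.2 (by have := Finset.mem_range.1 hn; omega)
      · intro i _ hi
        rw [Nat.choose_eq_zero_of_lt (by
          by_contra hcon
          exact hi (Finset.mem_range.2 (by omega))), Nat.cast_zero, mul_zero]
      · rw [mul_assoc])
  have e3 : ρ (up s) (c j) =
      ∑ n ∈ Finset.range (N + 1), (s ^ (n - j) * (n.choose j : k)) • c n := e1.symm.trans e2
  rw [e3, ← Finset.add_sum_erase _ _ hjr, Nat.sub_self, pow_zero, Nat.choose_self, Nat.cast_one,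
    one_mul, one_smul, add_sub_cancel_left]
  refine Submodule.sum_mem _ fun n hn => ?_
  obtain ⟨hnj, hnr⟩ := Finset.mem_erase.1 hn
  rcases lt_or_gt_of_ne hnj with h | h
  · rw [Nat.choose_eq_zero_of_lt h, Nat.cast_zero, mul_zero, zero_smul]
    exact Submodule.zero_mem _
  · exact Submodule.smul_mem _ _ (hjmax n (by have := Finset.mem_range.1 hnr; omega) h)

end Fix

/-- Let `E` be a stable subspace, `a ∉ E`. The span of the orbit of `a` contains a weight vector
`w ∉ E` which is fixed modulo `E` by the unitriangular matrices of all factors.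

Proof. Let `D` be a subspace which contains `E` and is stable under the group. (Use `D` = the span of
the orbit of `a` plus `E`? It is simpler to carry the property `w ∈ span {ρ g a}` directly.) One
factor `i`: for `x ∉ E` let `ρ (sl i (up s)) x = ∑_{j ≤ N} s^j c j` (`exists_up` for
`isRat_sl`). Let `j` be maximal with `c j ∉ E` (exists, since `c 0 = x ∉ E`). Comparing the
coefficients in `ρ (sl i (up (s + s'))) x`, one gets
`ρ (sl i (up s)) (c j) = ∑_{j' ≥ j} (j' choose j) s^(j'-j) c j' ≡ c j` modulo `E`. `c j` is a linear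
combination of the `ρ (sl i (up s)) x`; so if `x` is in the span of the orbit of `a` so is `c j`, and
if `x` is fixed modulo `E` by the unitriangular matrices of the factor `i' ≠ i` so is `c j`
(`sl_comm`). Do this for all factors (induction on `m' ≤ m`: fixed modulo `E` by the factors
`i < m'`). Finally decompose `x` into weight vectors (`exists_weights`): one of them is not in `E`,
it is a linear combination of the `ρ (tor t) x`, and these are fixed modulo `E` by the unitriangular
matrices (`tor_up`). -/
theorem exists_fixed_mod {k : Type} [Field k] [Infinite k] {m r : ℕ} {A : Type} [CommRing A]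
    [Algebra k A] (ρ : SLT k m r →* (A ≃ₐ[k] A)) (hρ : IsRational ρ) (E : Submodule k A)
    (hE : ∀ g, ∀ e ∈ E, ρ g e ∈ E) (a : A) (ha : a ∉ E) :
    ∃ w ∈ Submodule.span k (Set.range fun g => ρ g a), w ∉ E ∧
      (∀ i s, ρ (sl i (up s)) w - w ∈ E) ∧ ∃ l, IsWt ρ l w := by
  classical
  set O := Submodule.span k (Set.range fun g => ρ g a) with hO
  have haO : a ∈ O := Submodule.subset_span ⟨1, by simp⟩
  have step : ∀ T : Finset (Fin m), ∃ x ∈ O, x ∉ E ∧ ∀ i ∈ T, ∀ s, ρ (sl i (up s)) x - x ∈ E := by
    intro T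
    induction T using Finset.induction_on with
    | empty => exact ⟨a, haO, ha, fun i hi => absurd hi (Finset.notMem_empty i)⟩
    | insert i T hi ih =>
      obtain ⟨x, hxO, hxE, hx⟩ := ih
      obtain ⟨b, hb1, hb2⟩ := exists_fixed_mod_one (ρ.comp (sl i)) (isRat_sl ρ hρ i) E x hxE
      simp only [MonoidHom.comp_apply] at hb1 hb2
      refine ⟨b.sum fun s c => c • ρ (sl i (up s)) x, ?_, hb1, ?_⟩
      · refine Submodule.sum_mem _ fun t _ => Submodule.smul_mem _ _ ?_
        exact span_orbit_stable ρ a _ x hxO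
      · intro j hj s
        rcases Finset.mem_insert.1 hj with rfl | hjT
        · exact hb2 s
        · have hji : j ≠ i := by
            rintro rfl
            exact hi hjT
          have e : ρ (sl j (up s)) (b.sum fun s c => c • ρ (sl i (up s)) x) -
              (b.sum fun s c => c • ρ (sl i (up s)) x) =
              b.sum fun t c => c • ρ (sl i (up t)) (ρ (sl j (up s)) x - x) := by
            simp only [Finsupp.sum, map_sum, ← Finset.sum_sub_distrib, map_smul, map_sub, smul_sub]
            refine Finset.sum_congr rfl fun t _ => ?_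
            rw [sl_comm ρ hji]
          rw [e]
          refine Submodule.sum_mem _ fun t _ => Submodule.smul_mem _ _ (hE _ _ (hx j hjT s))
  obtain ⟨x, hxO, hxE, hx⟩ := step Finset.univ
  obtain ⟨S, c, b, hw, hcb, hsum⟩ := exists_weights ρ hρ x
  obtain ⟨l, hl, hlE⟩ : ∃ l ∈ S, c l ∉ E := by
    by_contra hcon
    push Not at hcon
    exact hxE (hsum ▸ Submodule.sum_mem _ hcon)
  refine ⟨c l, ?_, hlE, ?_, l, hw l hl⟩
  · rw [hcb l hl]
    exact Submodule.sum_mem _ fun t _ => Submodule.smul_mem _ _ (span_orbit_stable ρ a _ x hxO)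
  · intro i s
    have e : ρ (sl i (up s)) (c l) - c l =
        (b l).sum fun t y => y • ρ (tor t)
          (ρ (sl i (up (((t (Sum.inl i) : k) ^ 2)⁻¹ * s))) x - x) := by
      rw [hcb l hl]
      simp only [Finsupp.sum, map_sum, ← Finset.sum_sub_distrib, map_smul, map_sub, smul_sub]
      refine Finset.sum_congr rfl fun t _ => ?_
      rw [tor_up]
      have ht : (t (Sum.inl i) : k) ^ 2 * (((t (Sum.inl i) : k) ^ 2)⁻¹ * s) = s := by
        rw [← mul_assoc, mul_inv_cancel₀ (pow_ne_zero _ (t (Sum.inl i)).ne_zero), one_mul]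
      rw [ht]
    rw [e]
    refine Submodule.sum_mem _ fun t _ => Submodule.smul_mem _ _ (hE _ _ ?_)
    exact hx i (Finset.mem_univ i) _

end Pool.Agent.MP_b525bf_ag_R
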