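import Pool.Agent.Lib.MP_b525bf_ag_R.APO
import Pool.Agent.Lib.MP_b525bf_ag_R.FIX

/-!
# Row R12: eigenvectors in the powers of the span of an orbit, with the right value
-/

set_option autoImplicit false

namespace Pool.Agent.MP_b525bf_ag_R

open Matrix.SpecialLinearGroup
open scoped MatrixGroups

/-- Let `v` be an invariant valuation, trivial on `k`. For each `a` with `v a ≠ 0` some power of the
span of the orbit of `a` contains a weight vector `l`, invariant under all the unitriangular
matrices, with `v l = v a ^ q`.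

Proof. Let `O` be the span of the orbit of `a` and, for `Q > 0`, `E Q` the subspace of the
`b ∈ O ^ Q` with `v b < v a ^ Q`, which is stable. `exists_fixed_mod` for `E 1` gives `w ∈ O`,
`w ∉ E 1`, so `v w = v a` (the values on `O` are at most `v a`). By induction on `m' ≤ m`: there are
`Q > 0` and `x ∈ O ^ Q`, a weight vector, with `x - w ^ Q ∈ E Q`, invariant under the unitriangular
matrices of the factors `i < m'`. Step: apply `exists_eigen_lift` to `ρ.comp (sl m')`, `E := E Q`,
`w := x`: `x` is fixed modulo `E Q` by the unitriangular matrices of the factor `m'`, since this is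
true for `w` modulo `E 1`; the new element is `l ≡ x ^ (N + 1)` modulo
`E Q * (k x + E Q) ^ N ≤ E (Q * (N + 1))`. It is a weight vector: `tor t` is the product of
`sl m' (dg t_m')` and of an element of the torus which commutes with the factor `m'`; it is invariant
under the unitriangular matrices of the factors `i < m'` (last clause of `exists_eigen_lift`). At
the end `v l = v (w ^ Q) = v a ^ Q`. -/
theorem exists_eigen_val (p : ℕ) [Fact p.Prime] {k : Type} [Field k] [IsAlgClosed k] [CharP k p]
    {m r : ℕ} {A : Type} [CommRing A] [Algebra k A] (ρ : SLT k m r →* (A ≃ₐ[k] A))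
    (hρ : IsRational ρ) {Γ : Type} [LinearOrderedCommGroupWithZero Γ] (v : Valuation A Γ)
    (hk : ∀ c : k, v (algebraMap k A c) ≤ 1) (hv : ∀ g a, v (ρ g a) = v a) (a : A)
    (ha : v a ≠ 0) :
    ∃ (N : ℕ) (l : A), l ∈ Submodule.span k (Set.range fun g => ρ g a) ^ (N + 1) ∧
      v l = v a ^ (N + 1) ∧ IsU ρ l ∧ ∃ e, IsWt ρ e l := by
  classical
  have : Infinite k := inferInstance
  have hρmul : ∀ (g h : SLT k m r) (x : A), ρ g (ρ h x) = ρ (g * h) x := by
    intro g h x
    rw [map_mul]
    rfl
  have hγ0 : ∀ Q : ℕ, 0 < v a ^ Q := fun Q => pow_pos (zero_lt_iff.mpr ha) Q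
  have hvsmul : ∀ (c : k) (x : A), v (c • x) ≤ v x := by
    intro c x
    rw [Algebra.smul_def, map_mul]
    calc v (algebraMap k A c) * v x ≤ 1 * v x := by
          gcongr
          exact hk c
      _ = v x := one_mul _
  set O : Submodule k A := Submodule.span k (Set.range fun g => ρ g a) with hO
  -- the values on the powers of `O`
  let L : Γ → Submodule k A := fun δ =>
    { carrier := {x | v x ≤ δ}
      add_mem' := by
        intro x y hx hy
        exact v.map_add_le hx hy
      zero_mem' := by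
        simp only [Set.mem_ofPred_eq, map_zero]
        exact zero_le
      smul_mem' := by
        intro c x hx
        exact le_trans (hvsmul c x) hx }
  have hL : ∀ δ x, x ∈ L δ ↔ v x ≤ δ := fun δ x => Iff.rfl
  have hOL : ∀ Q : ℕ, O ^ Q ≤ L (v a ^ Q) := by
    intro Q
    induction Q with
    | zero =>
      intro x hx
      rw [pow_zero] at hx
      obtain ⟨c, rfl⟩ := Submodule.mem_one.mp hx
      rw [hL, pow_zero]
      exact hk c
    | succ Q ih =>
      rw [pow_succ]
      refine Submodule.mul_le.2 fun x hx y hy => ?_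
      have hy' : y ∈ L (v a) := by
        have hle : O ≤ L (v a) := by
          rw [hO, Submodule.span_le]
          rintro _ ⟨g, rfl⟩
          exact (hv g a).le
        exact hle hy
      rw [hL, map_mul, pow_succ]
      exact mul_le_mul' ((hL _ _).1 (ih hx)) ((hL _ _).1 hy')
  let E : ℕ → Submodule k A := fun Q =>
    { carrier := {x | x ∈ O ^ Q ∧ v x < v a ^ Q}
      add_mem' := by
        intro x y hx hy
        exact ⟨Submodule.add_mem _ hx.1 hy.1, v.map_add_lt hx.2 hy.2⟩
      zero_mem' := by
        refine ⟨Submodule.zero_mem _, ?_⟩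
        rw [map_zero]
        exact hγ0 Q
      smul_mem' := by
        intro c x hx
        exact ⟨Submodule.smul_mem _ _ hx.1, lt_of_le_of_lt (hvsmul c x) hx.2⟩ }
  have hE : ∀ Q x, x ∈ E Q ↔ x ∈ O ^ Q ∧ v x < v a ^ Q := fun Q x => Iff.rfl
  have hEmul : ∀ (Q R : ℕ) (x y : A), x ∈ E Q → y ∈ O ^ R → x * y ∈ E (Q + R) := by
    intro Q R x y hx hy
    rw [hE, pow_add, pow_add, map_mul]
    refine ⟨Submodule.mul_mem_mul hx.1 hy, ?_⟩
    calc v x * v y ≤ v x * v a ^ R := by
          gcongr
          exact hOL R hy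
      _ < v a ^ Q * v a ^ R := by
          have := hx.2
          have h2 := hγ0 R
          gcongr
  -- powers of congruent elements are congruent
  have hEpow : ∀ (Q N : ℕ) (x y : A), x ∈ O ^ Q → y ∈ O ^ Q → x - y ∈ E Q →
      x ^ (N + 1) - y ^ (N + 1) ∈ E (Q * (N + 1)) := by
    intro Q N x y hx hy hxy
    induction N with
    | zero => simpa using hxy
    | succ N ih =>
      have h1 : x ^ (N + 1 + 1) - y ^ (N + 1 + 1) =
          (x ^ (N + 1) - y ^ (N + 1)) * x + (x - y) * y ^ (N + 1) := by ring
      rw [h1]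
      refine Submodule.add_mem _ ?_ ?_
      · have := hEmul _ _ _ _ ih hx
        have e : Q * (N + 1) + Q = Q * (N + 1 + 1) := by ring
        rwa [e] at this
      · have hy2 : y ^ (N + 1) ∈ O ^ (Q * (N + 1)) := by
          rw [pow_mul]
          exact Submodule.pow_mem_pow _ hy _
        have := hEmul _ _ _ _ hxy hy2
        have e : Q + Q * (N + 1) = Q * (N + 1 + 1) := by ring
        rwa [e] at this
  -- stability
  have hOst : ∀ (g : SLT k m r) (Q : ℕ), ∀ x ∈ O ^ Q, ρ g x ∈ O ^ Q := by
    intro g Q x hx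
    have h1 : O.map (ρ g).toAlgHom.toLinearMap ≤ O := by
      rw [hO, Submodule.map_span_le]
      rintro _ ⟨h, rfl⟩
      refine Submodule.subset_span ⟨g * h, ?_⟩
      exact (hρmul g h a).symm
    have h2 : (O ^ Q).map (ρ g).toAlgHom.toLinearMap = (O.map (ρ g).toAlgHom.toLinearMap) ^ Q :=
      Submodule.map_pow (f := (ρ g).toAlgHom) O Q
    have h3 : (ρ g).toAlgHom.toLinearMap x ∈ (O ^ Q).map (ρ g).toAlgHom.toLinearMap :=
      Submodule.mem_map_of_mem hx
    rw [h2] at h3
    exact pow_le_pow_left' h1 Q h3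
  have hEst : ∀ (Q : ℕ) (g : SLT k m r), ∀ x ∈ E Q, ρ g x ∈ E Q := by
    intro Q g x hx
    refine ⟨hOst g Q x hx.1, ?_⟩
    rw [hv]
    exact hx.2
  have haO : a ∈ O := Submodule.subset_span ⟨1, by simp⟩
  have haE : a ∉ E 1 := by
    intro h
    have := h.2
    rw [pow_one] at this
    exact lt_irrefl _ this
  obtain ⟨w, hwO, hwE, hwu, e0, he0⟩ := exists_fixed_mod ρ hρ (E 1) (hEst 1) a haE
  have hvw : v w = v a := by
    have h1 : v w ≤ v a ^ 1 := hOL 1 (by rw [pow_one]; exact hwO)
    rw [pow_one] at h1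
    rcases h1.lt_or_eq with h2 | h2
    · exact absurd ⟨by rw [pow_one]; exact hwO, by rw [pow_one]; exact h2⟩ hwE
    · exact h2
  have hwpow : ∀ Q : ℕ, w ^ Q ∈ O ^ Q := fun Q => Submodule.pow_mem_pow _ hwO _
  have hmain : ∀ m' : ℕ, m' ≤ m → ∃ (N : ℕ) (x : A), x ∈ O ^ (N + 1) ∧
      x - w ^ (N + 1) ∈ E (N + 1) ∧ (∃ e, IsWt ρ e x) ∧
      ∀ i : Fin m, (i : ℕ) < m' → ∀ s, ρ (sl i (up s)) x = x := by
    intro m'
    induction m' with
    | zero =>
      intro _
      refine ⟨0, w, ?_, ?_, ⟨e0, he0⟩, ?_⟩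
      · simpa using hwO
      · simp
      · intro i hi
        exact absurd hi (Nat.not_lt_zero _)
    | succ m' ih =>
      intro hm
      obtain ⟨Q, x, hxO, hxE, ⟨e, he⟩, hxu⟩ := ih (by omega)
      let i : Fin m := ⟨m', by omega⟩
      have hst : ∀ g, ∀ y ∈ E (Q + 1), (ρ.comp (sl i)) g y ∈ E (Q + 1) :=
        fun g y hy => hEst (Q + 1) _ y hy
      have hn : ∀ t : kˣ, (ρ.comp (sl i)) (dg t) x =
          ((t ^ (e (Sum.inl i)) : kˣ) : k) • x := by
        intro t
        have h1 : (ρ.comp (sl i)) (dg t) x = ρ (sl i (dg t)) x := rfl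
        rw [h1, ← tor_single (m := m) (r := r) t i, he, chi_single]
      have hu : ∀ s, (ρ.comp (sl i)) (up s) x - x ∈ E (Q + 1) := by
        intro s
        have h1 : (ρ.comp (sl i)) (up s) x - x =
            (ρ (sl i (up s)) (x - w ^ (Q + 1)) - (x - w ^ (Q + 1))) +
              ((ρ (sl i (up s)) w) ^ (Q + 1) - w ^ (Q + 1)) := by
          rw [map_sub, map_pow]
          simp only [MonoidHom.comp_apply]
          ring
        rw [h1]
        refine Submodule.add_mem _ (Submodule.sub_mem _ (hEst _ _ _ hxE) hxE) ?_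
        have hw1 : w ∈ O ^ 1 := by rw [pow_one]; exact hwO
        have := hEpow 1 Q (ρ (sl i (up s)) w) w (hOst _ 1 w hw1) hw1 (hwu i s)
        rwa [one_mul] at this
      obtain ⟨N, l, hl1, hl2, hl3, hl4⟩ := exists_eigen_lift p (ρ.comp (sl i))
        (isRat_sl ρ hρ i) (E (Q + 1)) hst x (e (Sum.inl i)) hn hu
      have hl1' : l - x ^ (N + 1) ∈ E ((Q + 1) * (N + 1)) := by
        have hle : E (Q + 1) * (Submodule.span k {x} ⊔ E (Q + 1)) ^ N ≤
            E ((Q + 1) * (N + 1)) := by
          refine Submodule.mul_le.2 fun y hy z hz => ?_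
          have hz' : z ∈ O ^ ((Q + 1) * N) := by
            rw [pow_mul]
            have hsup : Submodule.span k {x} ⊔ E (Q + 1) ≤ O ^ (Q + 1) := by
              refine sup_le ?_ fun y hy => hy.1
              rw [Submodule.span_singleton_le_iff_mem]
              exact hxO
            exact pow_le_pow_left' hsup N hz
          have := hEmul _ _ _ _ hy hz'
          have e' : Q + 1 + (Q + 1) * N = (Q + 1) * (N + 1) := by ring
          rwa [e'] at this
        exact hle hl1
      have hidx : (Q + 1) * (N + 1) = ((Q + 1) * (N + 1) - 1) + 1 := by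
        have : 0 < (Q + 1) * (N + 1) := by positivity
        omega
      refine ⟨(Q + 1) * (N + 1) - 1, l, ?_, ?_, ?_, ?_⟩
      · rw [← hidx]
        have h1 : l = (l - x ^ (N + 1)) + x ^ (N + 1) := by ring
        rw [h1]
        refine Submodule.add_mem _ hl1'.1 ?_
        rw [pow_mul]
        exact Submodule.pow_mem_pow _ hxO _
      · rw [← hidx]
        have h1 : l - w ^ ((Q + 1) * (N + 1)) = (l - x ^ (N + 1)) +
            (x ^ (N + 1) - (w ^ (Q + 1)) ^ (N + 1)) := by
          rw [← pow_mul]
          ring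
        rw [h1]
        exact Submodule.add_mem _ hl1' (hEpow _ _ _ _ hxO (hwpow _) hxE)
      · refine ⟨(N + 1) • e, fun t => ?_⟩
        set t1 : Fin m ⊕ Fin r → kˣ := Pi.mulSingle (Sum.inl i) (t (Sum.inl i)) with ht1
        have htt : t = t1 * (t1⁻¹ * t) := by rw [mul_inv_cancel_left]
        have ht1' : (t1⁻¹ * t) (Sum.inl i) = 1 := by
          rw [ht1, Pi.mul_apply, Pi.inv_apply, Pi.mulSingle_eq_same, inv_mul_cancel]
        have h1 : ρ (tor (t1⁻¹ * t)) l = ((chi e (t1⁻¹ * t) : kˣ) : k) ^ (N + 1) • l := by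
          refine hl4 (ρ (tor (t1⁻¹ * t))) ?_ _ (he _)
          intro g y
          simp only [MonoidHom.comp_apply]
          rw [tor_sl, ht1', dg_one]
          simp
        have h2 : ρ (tor t1) l = (((t (Sum.inl i) ^ e (Sum.inl i)) ^ (N + 1) : kˣ) : k) • l := by
          have := hl3 (t (Sum.inl i))
          rw [ht1, tor_single]
          exact this
        have h3 : (chi ((N + 1) • e) t : kˣ) =
            (t (Sum.inl i) ^ e (Sum.inl i)) ^ (N + 1) * (chi e (t1⁻¹ * t)) ^ (N + 1) := by
          rw [← mul_pow, ← chi_single e (Sum.inl i) (t (Sum.inl i)), ← ht1, ← chi_mul, ← htt]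
          simp only [chi, Pi.smul_apply, ← Finset.prod_pow]
          refine Finset.prod_congr rfl fun j _ => ?_
          rw [nsmul_eq_mul, mul_comm, zpow_mul, zpow_natCast]
        calc ρ (tor t) l = ρ (tor t1) (ρ (tor (t1⁻¹ * t)) l) := by
              rw [hρmul, ← map_mul, ← htt]
          _ = ((chi ((N + 1) • e) t : kˣ) : k) • l := by
              rw [h1, map_smul, h2, smul_smul, h3]
              congr 1
              push_cast
              ring
      · intro j hj s
        by_cases hji : j = i
        · subst hji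
          exact hl2 s
        · have hj' : (j : ℕ) < m' := by
            have h1 : (j : ℕ) ≠ m' := fun h => hji (Fin.ext h)
            omega
          have := hl4 (ρ (sl j (up s))) (fun g y => sl_comm ρ hji _ _ _) 1
            (by rw [hxu j hj' s, one_smul])
          simpa using this
  obtain ⟨N, x, hxO, hxE, hxe, hxu⟩ := hmain m le_rfl
  refine ⟨N, x, hxO, ?_, fun i s => hxu i i.2 s, hxe⟩
  have h1 : x = w ^ (N + 1) + (x - w ^ (N + 1)) := by ring
  have h2 : v (w ^ (N + 1)) = v a ^ (N + 1) := by rw [map_pow, hvw]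
  rw [h1, v.map_add_eq_of_lt_left (by rw [h2]; exact hxE.2), h2]

end Pool.Agent.MP_b525bf_ag_R
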