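import Pool.Agent.Lib.MP_b525bf_ag_R.GRE
import Pool.Agent.Lib.MP_b525bf_ag_R.STA

/-!
# Row R08: lifting of eigenvectors of the Borel subgroup, for one factor `SL_2`
-/

set_option autoImplicit false

namespace Pool.Agent.MP_b525bf_ag_R

open Matrix.SpecialLinearGroup
open scoped MatrixGroups

/-- Let `SL_2` act rationally on `A`, `E` a stable subspace, `w` of weight `n` under the diagonal
torus and fixed by the upper unitriangular matrices modulo `E`. Then for some `q = N + 1` there is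
an eigenvector `l` of the upper triangular matrices, which is `w ^ q` up to an element of
`E (k w + E)^(q-1)`; and each automorphism that commutes with `SL_2` and multiplies `w` by a constant
`c` multiplies `l` by `c ^ q`.

Proof. If `w ∈ E` take `N = 0`, `l = 0`. Otherwise take `exists_orbit_formula` and let
`F g = ∑_{i ≤ n'} (g11 ^ (n' - i) * (-g10) ^ i) • ρ g (c i)`. This is a polynomial function of `g`
(`hρ (c i)`). The formula for `g⁻¹` (whose entries are `g11, -g01, -g10, g00`:
`Matrix.SpecialLinearGroup.SL2_inv_expl`), multiplied with `ρ g`, is `w - F g ∈ E`. Apply `gr_core`.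
For `h` with `h10 = 0`: `(h g)11 = h11 g11`, `(h g)10 = h11 g10`, `h11 = h00⁻¹`, so
`ρ h (F g) = h00^n' • F (h * g)`. If `φ` commutes with all `ρ g` and `φ w = c • w`, then
`φ (c i) = c • c i` (formula with `b i`) and `φ (F g) = c • F g = c • F (1 * g)`. -/
theorem exists_eigen_lift (p : ℕ) [Fact p.Prime] {k : Type} [Field k] [IsAlgClosed k] [CharP k p]
    {A : Type} [CommRing A] [Algebra k A] (ρ : SL(2, k) →* (A ≃ₐ[k] A)) (hρ : IsRat ρ)
    (E : Submodule k A) (hE : ∀ g, ∀ e ∈ E, ρ g e ∈ E) (w : A) (n : ℤ)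
    (hn : ∀ t : kˣ, ρ (dg t) w = ((t ^ n : kˣ) : k) • w) (hu : ∀ s, ρ (up s) w - w ∈ E) :
    ∃ (N : ℕ) (l : A), l - w ^ (N + 1) ∈ E * (Submodule.span k {w} ⊔ E) ^ N ∧
      (∀ s, ρ (up s) l = l) ∧ (∀ t : kˣ, ρ (dg t) l = (((t ^ n) ^ (N + 1) : kˣ) : k) • l) ∧
      ∀ φ : A ≃ₐ[k] A, (∀ g a, φ (ρ g a) = ρ g (φ a)) → ∀ c : k, φ w = c • w →
        φ l = c ^ (N + 1) • l := by
  by_cases hw : w ∈ E
  · refine ⟨0, 0, ?_, ?_, ?_, ?_⟩
    · simpa using hw
    · intro s
      exact map_zero _
    · intro t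
      simp
    · intro φ _ c _
      simp
  have : Infinite k := inferInstance
  obtain ⟨n', M, c, b, hn', hM, hc, hc0, hlo, hform⟩ :=
    exists_orbit_formula ρ hρ E hE w hw n hn hu
  choose P hP using fun i => hρ (c i)
  set F : SL(2, k) → A := fun g =>
    ∑ i ∈ Finset.range (n' + 1), (g.1 1 1 ^ (n' - i) * (-g.1 1 0) ^ i) • ρ g (c i) with hF
  have hPF : ∀ g, F g = ev (∑ i ∈ Finset.range (n' + 1),
      (MvPolynomial.X (1, 1)) ^ (n' - i) * (-MvPolynomial.X (1, 0)) ^ i * P i) g := by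
    intro g
    simp only [hF, ev, map_sum, map_mul, map_pow, map_neg, MvPolynomial.eval_X]
    refine Finset.sum_congr rfl fun i _ => ?_
    rw [hP i g, Algebra.smul_def, map_mul, map_pow, map_pow, map_neg]
    rfl
  have hFE : ∀ g, F g - w ∈ E := by
    intro g
    have h1 := hE g _ (hform g⁻¹)
    rw [map_sub, map_sum] at h1
    have h2 : ρ g (ρ g⁻¹ w) = w := by
      have : ρ g (ρ g⁻¹ w) = (ρ g * ρ g⁻¹) w := rfl
      rw [this, ← map_mul, mul_inv_cancel, map_one]
      rfl
    rw [h2] at h1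
    have h3 : (∑ i ∈ Finset.range (n' + 1),
        ρ g (((g⁻¹).1 0 0 ^ (n' - i) * (g⁻¹).1 1 0 ^ i) • c i)) = F g := by
      simp only [hF]
      refine Finset.sum_congr rfl fun i _ => ?_
      rw [map_smul]
      have e1 : (g⁻¹).1 0 0 = g.1 1 1 := by
        rw [Matrix.SpecialLinearGroup.coe_inv, Matrix.adjugate_fin_two]
        rfl
      have e2 : (g⁻¹).1 1 0 = -g.1 1 0 := by
        rw [Matrix.SpecialLinearGroup.coe_inv, Matrix.adjugate_fin_two]
        rfl
      rw [e1, e2]
    rw [h3] at h1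
    have h4 := E.neg_mem h1
    rwa [neg_sub] at h4
  obtain ⟨N, l, hl1, hl2⟩ := gr_core p F _ hPF w E hFE
  have hρmul : ∀ (g h : SL(2, k)) (a : A), ρ g (ρ h a) = ρ (g * h) a := by
    intro g h a
    rw [map_mul]
    rfl
  refine ⟨N, l, hl1, ?_, ?_, ?_⟩
  · intro s
    have := hl2 (ρ (up s)) (up s) 1 (by
      intro g
      simp only [hF, map_sum, one_smul]
      refine Finset.sum_congr rfl fun i _ => ?_
      rw [map_smul, hρmul, mul11, mul10]
      simp)
    simpa using this
  · intro t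
    have := hl2 (ρ (dg t)) (dg t) ((t : k) ^ n') (by
      intro g
      simp only [hF, map_sum, Finset.smul_sum]
      refine Finset.sum_congr rfl fun i hi => ?_
      have hi' : i ≤ n' := by
        have := Finset.mem_range.mp hi
        omega
      rw [map_smul, hρmul, mul11, mul10, smul_smul]
      congr 1
      have ht : (t : k) ≠ 0 := t.ne_zero
      have h1 : ((t⁻¹ : kˣ) : k) = (t : k)⁻¹ := by simp
      simp only [dg10, dg11, zero_mul, zero_add, h1]
      have h2 : (-((t : k)⁻¹ * g.1 1 0)) = (t : k)⁻¹ * (-g.1 1 0) := by ring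
      rw [h2, mul_pow, mul_pow]
      have h3 : (t : k) ^ n' * ((t : k)⁻¹ ^ (n' - i) * (t : k)⁻¹ ^ i) = 1 := by
        rw [← pow_add, Nat.sub_add_cancel hi', ← mul_pow, mul_inv_cancel₀ ht, one_pow]
      calc g.1 1 1 ^ (n' - i) * (-g.1 1 0) ^ i
          = ((t : k) ^ n' * ((t : k)⁻¹ ^ (n' - i) * (t : k)⁻¹ ^ i)) *
            (g.1 1 1 ^ (n' - i) * (-g.1 1 0) ^ i) := by rw [h3, one_mul]
        _ = _ := by ring)
    rw [this]
    congr 1
    subst hn'
    push_cast
    rw [zpow_natCast]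
  · intro φ hφ c' hc'
    have hci : ∀ i, φ (c i) = c' • c i := by
      intro i
      rw [hc i]
      simp only [Finsupp.sum, map_sum, Finset.smul_sum]
      refine Finset.sum_congr rfl fun s _ => ?_
      rw [map_smul, hφ, hc', map_smul, smul_comm]
    refine hl2 φ 1 c' ?_
    intro g
    simp only [hF, map_sum, Finset.smul_sum, one_mul]
    refine Finset.sum_congr rfl fun i _ => ?_
    rw [map_smul, hφ, hci, map_smul, smul_comm]

end Pool.Agent.MP_b525bf_ag_R
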