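import Pool.Agent.Lib.MP_b525bf_ag_R.EIG

/-!
# Row R14: the eigenvectors of the Borel subgroup are finitely generated modulo the invariants
-/

set_option autoImplicit false

namespace Pool.Agent.MP_b525bf_ag_R

open Matrix.SpecialLinearGroup Pool.Agent.MP_b525bf_ag_ES
open scoped MatrixGroups

variable {k : Type} [Field k] [Infinite k] {m r : ℕ} {A : Type} [CommRing A] [IsDomain A]
  [Algebra k A]

omit [Infinite k] in
private theorem fgn_up_pow (s : k) (n : ℕ) : up s ^ n = up ((n : k) * s) := by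
  induction n with
  | zero => rw [pow_zero, Nat.cast_zero, zero_mul, up_zero]
  | succ n ih => rw [pow_succ, ih, ← up_add, Nat.cast_succ, add_mul, one_mul]

omit [Infinite k] in
private theorem fgn_pow (ρ : SLT k m r →* (A ≃ₐ[k] A)) (g : SLT k m r) (c : k)
    (f : FractionRing A) (h : onK ρ g f = c • f) (n : ℕ) : onK ρ (g ^ n) f = c ^ n • f := by
  induction n with
  | zero => rw [pow_zero, pow_zero, map_one, AlgEquiv.one_apply, one_smul]
  | succ n ih =>
    rw [pow_succ, map_mul, AlgEquiv.mul_apply, h, map_smul, ih, smul_smul, pow_succ, mul_comm]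

omit [Infinite k] in
private theorem fgn_up (p : ℕ) [Fact p.Prime] [CharP k p] (ρ : SLT k m r →* (A ≃ₐ[k] A))
    (f : FractionRing A) (hf : IsEigen ((borel k m r).map ρ) f) (i : Fin m) (s : k) :
    onK ρ (sl i (up s)) f = f := by
  rw [isEigen_iff] at hf
  obtain ⟨hf0, hf⟩ := hf
  obtain ⟨c, hc⟩ := hf _ (up_mem i s)
  have h1 := fgn_pow ρ _ c f hc p
  rw [← map_pow, fgn_up_pow, CharP.cast_eq_zero, zero_mul, up_zero, map_one, map_one,
    AlgEquiv.one_apply] at h1
  have h2 : c ^ p = 1 := by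
    have h3 : (c ^ p - 1) • f = 0 := by rw [sub_smul, one_smul, ← h1, sub_self]
    rcases smul_eq_zero.1 h3 with h3 | h3
    · exact sub_eq_zero.1 h3
    · exact absurd h3 hf0
  have h4 : c = 1 := by
    apply frobenius_inj k p
    rw [frobenius_def, frobenius_def, one_pow, h2]
  rw [hc, h4, one_smul]

/-- The denominators of `f`. -/
private def fgnD (f : FractionRing A) : Submodule k A where
  carrier := {b | ∃ a : A, algebraMap A (FractionRing A) b * f = algebraMap A (FractionRing A) a}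
  add_mem' := by
    rintro b b' ⟨a, ha⟩ ⟨a', ha'⟩
    exact ⟨a + a', by rw [map_add, map_add, add_mul, ha, ha']⟩
  zero_mem' := ⟨0, by rw [map_zero, zero_mul]⟩
  smul_mem' := by
    rintro c b ⟨a, ha⟩
    refine ⟨c • a, ?_⟩
    rw [Algebra.smul_def, Algebra.smul_def, map_mul, map_mul, mul_assoc, ha]

private theorem fgn_tor (ρ : SLT k m r →* (A ≃ₐ[k] A))
    (hρ : IsRational ρ) (f : FractionRing A) (hf : IsEigen ((borel k m r).map ρ) f) :
    ∃ l : Fin m ⊕ Fin r → ℤ, ∀ t, onK ρ (tor t) f = (chi l t : k) • f := by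
  classical
  rw [isEigen_iff] at hf
  obtain ⟨hf0, hf⟩ := hf
  have hc : ∀ t : Fin m ⊕ Fin r → kˣ, ∃ c : k, onK ρ (tor t) f = c • f := fun t => hf _ (tor_mem t)
  choose c hc using hc
  have hc0 : ∀ t, c t ≠ 0 := by
    intro t h0
    have h1 := hc t
    rw [h0, zero_smul, map_eq_zero_iff _ (onK ρ (tor t)).injective] at h1
    exact hf0 h1
  -- the denominators are stable
  have hst : ∀ t, ∀ b ∈ fgnD (k := k) f, ρ (tor t) b ∈ fgnD (k := k) f := by
    rintro t b ⟨a, ha⟩
    refine ⟨(c t)⁻¹ • ρ (tor t) a, ?_⟩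
    have h1 := congrArg (onK ρ (tor t)) ha
    rw [map_mul, onK_algebraMap, onK_algebraMap, hc t, mul_smul_comm] at h1
    rw [Algebra.smul_def, map_mul, ← IsScalarTower.algebraMap_apply, ← h1,
      Algebra.smul_def (c t), ← mul_assoc, ← map_mul, inv_mul_cancel₀ (hc0 t), map_one, one_mul]
  obtain ⟨a₀, b₀, hb₀, hab⟩ := IsFractionRing.div_surjective (A := A) f
  have hb0 : b₀ ≠ 0 := nonZeroDivisors.ne_zero hb₀
  have hb0' : algebraMap A (FractionRing A) b₀ ≠ 0 := by
    rwa [Ne, map_eq_zero_iff _ (IsFractionRing.injective A (FractionRing A))]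
  have hbD : b₀ ∈ fgnD (k := k) f := ⟨a₀, by rw [← hab, mul_div_cancel₀ _ hb0']⟩
  -- a weight vector among the denominators
  obtain ⟨b, l, hb, hbD, hbl⟩ : ∃ (b : A) (l : Fin m ⊕ Fin r → ℤ), b ≠ 0 ∧
      b ∈ fgnD (k := k) f ∧ IsWt ρ l b := by
    obtain ⟨S, cc, bb, h1, h2, h3⟩ := exists_weights ρ hρ b₀
    obtain ⟨l, hl, hl0⟩ : ∃ l ∈ S, cc l ≠ 0 := by
      by_contra hcon
      push Not at hcon
      exact hb0 (h3.trans (Finset.sum_eq_zero hcon))
    refine ⟨cc l, l, hl0, ?_, h1 l hl⟩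
    rw [h2 l hl]
    exact Submodule.sum_mem _ fun t _ => Submodule.smul_mem _ _ (hst t _ hbD)
  obtain ⟨a, ha⟩ := hbD
  have ha0 : a ≠ 0 := by
    rintro rfl
    rw [map_zero, mul_eq_zero, map_eq_zero_iff _ (IsFractionRing.injective A (FractionRing A))] at ha
    exact ha.elim hb hf0
  have hat : ∀ t, ρ (tor t) a = ((chi l t : k) * c t) • a := by
    intro t
    apply IsFractionRing.injective A (FractionRing A)
    rw [← onK_algebraMap, ← ha, map_mul, onK_algebraMap, hbl t, hc t, Algebra.smul_def, map_mul,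
      ← IsScalarTower.algebraMap_apply, Algebra.smul_def, Algebra.smul_def, map_mul,
      ← IsScalarTower.algebraMap_apply, ← ha, map_mul]
    ring
  obtain ⟨S, cc, bb, h1, h2, h3⟩ := exists_weights ρ hρ a
  obtain ⟨l', hl', hl0⟩ : ∃ l ∈ S, cc l ≠ 0 := by
    by_contra hcon
    push Not at hcon
    exact ha0 (h3.trans (Finset.sum_eq_zero hcon))
  have hy : ∃ y : k, cc l' = y • a := by
    refine ⟨(bb l').sum fun t x => x * ((chi l t : k) * c t), ?_⟩
    rw [h2 l' hl', Finsupp.sum, Finsupp.sum, Finset.sum_smul]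
    refine Finset.sum_congr rfl fun t _ => ?_
    rw [hat t, smul_smul]
  obtain ⟨y, hy⟩ := hy
  have hy0 : y ≠ 0 := by
    rintro rfl
    rw [zero_smul] at hy
    exact hl0 hy
  have hal : ∀ t, ρ (tor t) a = (chi l' t : k) • a := by
    intro t
    have h4 := h1 l' hl' t
    rw [hy, map_smul, smul_comm] at h4
    exact smul_right_injective A hy0 h4
  refine ⟨l' + -l, fun t => ?_⟩
  have h5 : (chi l t : k) * c t = chi l' t := by
    have h6 : (((chi l t : k) * c t) - chi l' t) • a = 0 := by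
      rw [sub_smul, ← hat, ← hal, sub_self]
    rcases smul_eq_zero.1 h6 with h6 | h6
    · exact sub_eq_zero.1 h6
    · exact absurd h6 ha0
  rw [hc t, chi_add, chi_neg, Units.val_mul, ← h5, mul_assoc, mul_comm (c t), ← mul_assoc,
    Units.mul_inv, one_mul]

/-- Row R14a. The character of an eigenvector is algebraic, and trivial on the unitriangular
matrices.

Proof. Let `f` be an eigenvector, `c g` the eigenvalue. `up s ^ p = up (p s) = 1`, so
`c(sl i (up s)) ^ p = 1` and `c = 1` (characteristic `p`: `frobenius_inj`). For the torus: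
`D = {b : A | ∃ a, b f = a}` is a nonzero subspace, stable under the torus; take `b ≠ 0` in `D` and
its decomposition into weight vectors (`exists_weights`): they are in `D`, so `D` contains a weight
vector `b ≠ 0`, of weight `l`, and `a = b f ∈ A` is an eigenvector of the torus with eigenvalue
`χ_l(t) c(t)`. The weight vectors of the decomposition of `a` are multiples of `a`, one of them is
not `0`, so `a` is a weight vector, of weight `l'`, and `c(t) = χ_{l' - l}(t)`. -/
theorem exists_weight_of_eigen (p : ℕ) [Fact p.Prime] [CharP k p] (ρ : SLT k m r →* (A ≃ₐ[k] A))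
    (hρ : IsRational ρ) (f : FractionRing A) (hf : IsEigen ((borel k m r).map ρ) f) :
    (∀ i s, onK ρ (sl i (up s)) f = f) ∧
      ∃ l : Fin m ⊕ Fin r → ℤ, ∀ t, onK ρ (tor t) f = (chi l t : k) • f :=
  ⟨fgn_up p ρ f hf, fgn_tor ρ hρ f hf⟩

omit [Infinite k] in
/-- Multiplicative behaviour of the weights. -/
private theorem fgn_prod (ρ : SLT k m r →* (A ≃ₐ[k] A)) {n : ℕ} (f : Fin n → FractionRing A)
    (s : Fin n → Fin m ⊕ Fin r → ℤ) (t : Fin m ⊕ Fin r → kˣ)
    (h : ∀ i, onK ρ (tor t) (f i) = (chi (s i) t : k) • f i) (e : Fin n → ℤ) :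
    onK ρ (tor t) (∏ i, f i ^ e i) = (chi (∑ i, e i • s i) t : k) • ∏ i, f i ^ e i := by
  have h1 : (chi (∑ i, e i • s i) t : kˣ) = ∏ i, chi (s i) t ^ e i := by
    have h2 : ∀ (T : Finset (Fin n)), chi (∑ i ∈ T, e i • s i) t = ∏ i ∈ T, chi (s i) t ^ e i := by
      classical
      intro T
      induction T using Finset.induction_on with
      | empty => rw [Finset.sum_empty, Finset.prod_empty, chi_zero]
      | insert a T ha ih =>
        rw [Finset.sum_insert ha, Finset.prod_insert ha, chi_add, ih]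
        congr 1
        simp only [chi, Pi.smul_apply, smul_eq_mul, ← Finset.prod_zpow]
        refine Finset.prod_congr rfl fun j _ => ?_
        rw [← zpow_mul, mul_comm]
    exact h2 Finset.univ
  rw [h1, map_prod, Units.coe_prod, Algebra.smul_def, map_prod, ← Finset.prod_mul_distrib]
  refine Finset.prod_congr rfl fun i _ => ?_
  rw [map_zpow₀, h i, Algebra.smul_def, mul_zpow, Units.val_zpow_eq_zpow_val, map_zpow₀]

omit [Infinite k] in
private theorem fgn_uprod (ρ : SLT k m r →* (A ≃ₐ[k] A)) {n : ℕ} (f : Fin n → FractionRing A)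
    (g : SLT k m r) (h : ∀ i, onK ρ g (f i) = f i) (e : Fin n → ℤ) :
    onK ρ g (∏ i, f i ^ e i) = ∏ i, f i ^ e i := by
  rw [map_prod]
  refine Finset.prod_congr rfl fun i _ => ?_
  rw [map_zpow₀, h i]

/-- The weights of the eigenvectors. -/
private noncomputable def fgnW (ρ : SLT k m r →* (A ≃ₐ[k] A)) :
    AddSubgroup (Fin m ⊕ Fin r → ℤ) where
  carrier := {l | ∃ f, IsEigen ((borel k m r).map ρ) f ∧ ∀ t, onK ρ (tor t) f = (chi l t : k) • f}
  add_mem' := by
    rintro l l' ⟨f, hf, hfl⟩ ⟨f', hf', hfl'⟩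
    rw [isEigen_iff] at hf hf'
    refine ⟨f * f', (isEigen_iff ρ _).2 ⟨mul_ne_zero hf.1 hf'.1, fun g hg => ?_⟩, fun t => ?_⟩
    · obtain ⟨c, hc⟩ := hf.2 g hg
      obtain ⟨c', hc'⟩ := hf'.2 g hg
      exact ⟨c * c', by rw [map_mul, hc, hc', smul_mul_smul_comm]⟩
    · rw [map_mul, hfl, hfl', smul_mul_smul_comm, chi_add, Units.val_mul]
  zero_mem' := by
    refine ⟨1, (isEigen_iff ρ _).2 ⟨one_ne_zero, fun g _ => ⟨1, by rw [map_one, one_smul]⟩⟩,
      fun t => ?_⟩
    rw [map_one, chi_zero, Units.val_one, one_smul]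
  neg_mem' := by
    rintro l ⟨f, hf, hfl⟩
    rw [isEigen_iff] at hf
    refine ⟨f⁻¹, (isEigen_iff ρ _).2 ⟨inv_ne_zero hf.1, fun g hg => ?_⟩, fun t => ?_⟩
    · obtain ⟨c, hc⟩ := hf.2 g hg
      refine ⟨c⁻¹, ?_⟩
      rw [map_inv₀, hc, Algebra.smul_def, mul_inv, Algebra.smul_def, map_inv₀]
    · rw [map_inv₀, hfl, Algebra.smul_def, mul_inv, Algebra.smul_def, chi_neg,
        Units.val_inv_eq_inv_val, map_inv₀]

/-- Row R14b. The weights of the eigenvectors form a subgroup of `ℤ^(m+r)`, which is finitely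
generated (`IsNoetherian ℤ`); choose eigenvectors whose weights generate it. An eigenvector of weight
`0` is invariant (`mem_invField_of`). -/
theorem fg_eigen (p : ℕ) [Fact p.Prime] [CharP k p] (ρ : SLT k m r →* (A ≃ₐ[k] A))
    (hρ : IsRational ρ) :
    ∃ (n : ℕ) (t : Fin n → FractionRing A), (∀ i, IsEigen ((borel k m r).map ρ) (t i)) ∧
      ∀ f, IsEigen ((borel k m r).map ρ) f → ∃ x ∈ invField ((borel k m r).map ρ),
        ∃ e : Fin n → ℤ, f = x * ∏ i, t i ^ e i := by
  have hfg : (AddSubgroup.toIntSubmodule (fgnW ρ)).FG := IsNoetherian.noetherian _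
  obtain ⟨n, s, hs⟩ := Submodule.fg_iff_exists_fin_generating_family.1 hfg
  have hsW : ∀ i, s i ∈ fgnW ρ := by
    intro i
    have h1 : s i ∈ Submodule.span ℤ (Set.range s) := Submodule.subset_span ⟨i, rfl⟩
    rw [hs] at h1
    exact h1
  have hsW' : ∀ i, ∃ f, IsEigen ((borel k m r).map ρ) f ∧
      ∀ t, onK ρ (tor t) f = (chi (s i) t : k) • f := hsW
  choose u hu hul using hsW'
  refine ⟨n, u, hu, fun f hf => ?_⟩
  obtain ⟨hfu, l, hfl⟩ := exists_weight_of_eigen p ρ hρ f hf
  have hl : l ∈ Submodule.span ℤ (Set.range s) := by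
    rw [hs]
    exact ⟨f, hf, hfl⟩
  obtain ⟨e, he⟩ := (Submodule.mem_span_range_iff_exists_fun ℤ).1 hl
  have hne : ∀ i, u i ≠ 0 := fun i => ((isEigen_iff ρ _).1 (hu i)).1
  have hpr : ∏ i, u i ^ e i ≠ 0 := Finset.prod_ne_zero_iff.2 fun i _ => zpow_ne_zero _ (hne i)
  refine ⟨f / ∏ i, u i ^ e i, ?_, e, by rw [div_mul_cancel₀ _ hpr]⟩
  refine mem_invField_of ρ _ (fun t => ?_) fun i s' => ?_
  · have hx : algebraMap k (FractionRing A) (chi l t : k) ≠ 0 := by
      rw [Ne, map_eq_zero_iff _ (algebraMap k (FractionRing A)).injective]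
      exact Units.ne_zero _
    rw [map_div₀, hfl, fgn_prod ρ u s t (fun i => hul i t) e, he, Algebra.smul_def,
      Algebra.smul_def, mul_div_mul_left _ _ hx]
  · rw [map_div₀, hfu, fgn_uprod ρ u _ (fun j => (exists_weight_of_eigen p ρ hρ _ (hu j)).1 i s') e]

end Pool.Agent.MP_b525bf_ag_R
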