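import Pool.Agent.Lib.MP_b525bf_ag_R.APM
import Pool.Agent.Lib.MP_b525bf_ag_R.FGN

/-!
# Row R25: complexity at most one
-/

set_option autoImplicit false

namespace Pool.Agent.MP_b525bf_ag_R

open Matrix.SpecialLinearGroup Pool.Agent.MP_b525bf_ag_ES Pool.Agent.MP_b525bf_ag_E
open scoped MatrixGroups

private lemma r25_pow {k A : Type} [Field k] [CommRing A] [Algebra k A] {O : Submodule k A}
    {I : Ideal A} (h : ∀ b ∈ O, b ∈ I) (n : ℕ) : ∀ b ∈ O ^ n, b ∈ I ^ n := by
  induction n with
  | zero =>
    intro b _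
    rw [pow_zero, Ideal.one_eq_top]
    exact Submodule.mem_top
  | succ n ih =>
    intro b hb
    rw [pow_succ] at hb ⊢
    induction hb using Submodule.mul_induction_on' with
    | mem_mul_mem x hx y hy => exact Ideal.mul_mem_mul (ih x hx) (h y hy)
    | add x _ y _ hx hy => exact Ideal.add_mem _ hx hy

/-- Row R25a: the eigenvectors in the powers of the ideals generated by orbits: `exists_eigen_val`
for `V.valuation.comap (algebraMap A K)`, `isEigen_of`; a power of the span of the orbit is contained
in the power of the ideal. -/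
theorem app_of_rational (p : ℕ) [Fact p.Prime] {k : Type} [Field k] [IsAlgClosed k] [CharP k p]
    {m r : ℕ} {A : Type} [CommRing A] [IsDomain A] [Algebra k A] (ρ : SLT k m r →* (A ≃ₐ[k] A))
    (hρ : IsRational ρ) (a : A) (ha : a ≠ 0) (V : ValuationSubring (FractionRing A))
    (hV : IsInvariant ρ.range V) :
    ∃ q : ℕ, 0 < q ∧ ∃ l ∈ Ideal.span {b : A | ∃ g ∈ ρ.range, b = g a} ^ q,
      IsEigen ((borel k m r).map ρ) (algebraMap A (FractionRing A) l) ∧
        V.valuation (algebraMap A (FractionRing A) l) =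
          V.valuation (algebraMap A (FractionRing A) (a ^ q)) := by
  have hinj := IsFractionRing.injective A (FractionRing A)
  have ha' : algebraMap A (FractionRing A) a ≠ 0 := by
    rw [Ne, map_eq_zero_iff _ hinj]
    exact ha
  have hva : V.valuation.comap (algebraMap A (FractionRing A)) a ≠ 0 := by
    rw [Valuation.comap_apply]
    exact (Valuation.ne_zero_iff _).mpr ha'
  obtain ⟨N, l, h1, h2, h3, e, h4⟩ := exists_eigen_val p ρ hρ
    (V.valuation.comap (algebraMap A (FractionRing A)))
    (fun c => by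
      rw [Valuation.comap_apply]
      exact (V.valuation_le_one_iff _).mpr (hV.1 _))
    (fun g b => by
      rw [Valuation.comap_apply, Valuation.comap_apply]
      exact hV.2 (ρ g) ⟨g, rfl⟩ b) a hva
  have hl : l ≠ 0 := by
    rintro rfl
    rw [map_zero] at h2
    exact pow_ne_zero _ hva h2.symm
  refine ⟨N + 1, Nat.succ_pos N, l, ?_, isEigen_of ρ l hl h3 e h4, ?_⟩
  · refine r25_pow ?_ (N + 1) l h1
    intro b hb
    induction hb using Submodule.span_induction with
    | mem x hx =>
      obtain ⟨g, rfl⟩ := hx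
      exact Ideal.subset_span ⟨ρ g, ⟨g, rfl⟩, rfl⟩
    | zero => exact Ideal.zero_mem _
    | add x y _ _ hx hy => exact Ideal.add_mem _ hx hy
    | smul c x _ hx =>
      rw [Algebra.smul_def]
      exact Ideal.mul_mem_left _ _ hx
  · rw [Valuation.comap_apply, Valuation.comap_apply] at h2
    rw [h2, map_pow, map_pow]

theorem complexityLeOne_of_rational (p : ℕ) [Fact p.Prime] {k : Type} [Field k] [IsAlgClosed k]
    [CharP k p] {m r : ℕ} {A : Type} [CommRing A] [IsDomain A] [Algebra k A]
    (ρ : SLT k m r →* (A ≃ₐ[k] A)) (hρ : IsRational ρ)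
    (hc : Algebra.trdeg k (invField ((borel k m r).map ρ)) ≤ 1) :
    ComplexityLeOne ρ.range ((borel k m r).map ρ) where
  trdeg := hc
  fg := fg_eigen p ρ hρ
  app a ha V hV := app_of_rational p ρ hρ a ha V hV

end Pool.Agent.MP_b525bf_ag_R
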