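import Pool.Agent.Lib.MP_b525bf_ag_ES.StmtDefs

/-!
# Rational actions of products of copies of `SL_2` and tori: definitions
-/

set_option autoImplicit false

namespace Pool.Agent.MP_b525bf_ag_R

open Pool.Agent.LU2 Matrix.SpecialLinearGroup
open scoped MatrixGroups

/-- The group `SL_2(k)^m × (k^*)^r`. -/
abbrev SLT (k : Type) [Field k] (m r : ℕ) : Type := (Fin m → SL(2, k)) × (Fin r → kˣ)

section Defs

variable {k : Type} [Field k] {m r : ℕ}

/-- The coordinates of an element of `SL_2(k)^m × (k^*)^r`: the entries of the matrices, the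
elements of `k^*` and their inverses. -/
def coord (g : SLT k m r) : (Fin m × Fin 2 × Fin 2) ⊕ (Fin r ⊕ Fin r) → k
  | Sum.inl (i, a, b) => (g.1 i).1 a b
  | Sum.inr (Sum.inl j) => (g.2 j : k)
  | Sum.inr (Sum.inr j) => ((g.2 j)⁻¹ : kˣ)

/-- The Borel subgroup of `SL_2(k)^m × (k^*)^r`: the matrices are upper triangular. -/
def borel (k : Type) [Field k] (m r : ℕ) : Subgroup (SLT k m r) where
  carrier := {g | ∀ i, (g.1 i).1 1 0 = 0}
  mul_mem' := by
    intro a b ha hb i
    simp only [Set.mem_setOf_eq] at ha hb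
    rw [Prod.fst_mul, Pi.mul_apply, Matrix.SpecialLinearGroup.coe_mul, Matrix.mul_apply,
      Fin.sum_univ_two, ha i, hb i]
    ring
  one_mem' := by
    intro i
    simp
  inv_mem' := by
    intro a ha i
    simp only [Set.mem_setOf_eq] at ha
    rw [Prod.fst_inv, Pi.inv_apply, Matrix.SpecialLinearGroup.coe_inv, Matrix.adjugate_fin_two]
    simp [ha i]

/-- The action `ρ` of `SL_2(k)^m × (k^*)^r` on `A` is rational: for each `a` in `A`, `g a` is a
polynomial in the coordinates of `g`, with coefficients in `A`. -/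
def IsRational {A : Type} [CommRing A] [Algebra k A] (ρ : SLT k m r →* (A ≃ₐ[k] A)) : Prop :=
  ∀ a : A, ∃ P : MvPolynomial ((Fin m × Fin 2 × Fin 2) ⊕ (Fin r ⊕ Fin r)) A,
    ∀ g : SLT k m r, ρ g a = MvPolynomial.eval (fun c => algebraMap k A (coord g c)) P

end Defs

end Pool.Agent.MP_b525bf_ag_R
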