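import Pool.Agent.Lib.LU2_h15.Defs

/-!
# Row R16: Gauss valuations, by means of automorphisms
-/

set_option autoImplicit false

namespace Pool.Agent.MP_b525bf_ag_R

open Pool.Agent.LU2

variable {k K : Type} [Field k] [Field K] [Algebra k K]

/-- Row R16. Let `φ` run through automorphisms of `K` which preserve the valuation and fix the
elements of `S`, such that the elements `φ y / y` have many different residues. Then the valuation
on `S[y]` is the Gauss valuation.

Proof. Suppose `V.valuation (P.eval y) < γ`, the maximum of the values of the `P.coeff i * y ^ i`,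
attained at `i₀` (so `γ ≠ 0`). Let `P'` be the polynomial with coefficients
`P.coeff i * y ^ i / (P.coeff i₀ * y ^ i₀)`; they are in `V`, one is `1`. Let `φ 0, ..., φ d`,
`d = P.natDegree`, be as in the hypothesis (`n = d + 1`), `η j = φ j y / y ∈ V`. `φ j` fixes the
coefficients of `P`, so `P'.eval (η j) = φ j (P.eval y) / (P.coeff i₀ * y ^ i₀)` has valuation
`< 1`. The reduction of `P'` modulo the maximal ideal of `V` is not `0`, has degree at most `d`, and
the `d + 1` different roots `η j` modulo the maximal ideal: contradiction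
(`Polynomial.card_roots'` or `Polynomial.eq_zero_of_natDegree_lt_card_of_eval_eq_zero`). -/
theorem gauss_of_many (V : ValuationSubring K) (S : IntermediateField k K) (y : K) (hy : y ≠ 0)
    (h : ∀ n : ℕ, ∃ φ : Fin n → (K ≃ₐ[k] K), (∀ i x, V.valuation (φ i x) = V.valuation x) ∧
      (∀ i, ∀ x ∈ S, φ i x = x) ∧
      ∀ i j, i ≠ j → V.valuation (φ i y - φ j y) = V.valuation y)
    (P : Polynomial K) (hP : ∀ i, P.coeff i ∈ S) (i : ℕ) :
    V.valuation (P.coeff i * y ^ i) ≤ V.valuation (P.eval y) := by
  classical
  by_contra hcon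
  push Not at hcon
  set d := P.natDegree with hd
  -- the largest value
  obtain ⟨i₀, -, hmax⟩ := Finset.exists_max_image (Finset.range (d + 1))
    (fun i => V.valuation (P.coeff i * y ^ i)) ⟨0, Finset.mem_range.2 (Nat.succ_pos d)⟩
  have hmax' : ∀ i, V.valuation (P.coeff i * y ^ i) ≤ V.valuation (P.coeff i₀ * y ^ i₀) := by
    intro i
    rcases lt_or_ge i (d + 1) with hi | hi
    · exact hmax i (Finset.mem_range.2 hi)
    · rw [Polynomial.coeff_eq_zero_of_natDegree_lt (by omega), zero_mul, map_zero]
      exact zero_le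
  set c : K := P.coeff i₀ * y ^ i₀ with hc
  have hlt : V.valuation (P.eval y) < V.valuation c := lt_of_lt_of_le hcon (hmax' i)
  have hvc : V.valuation c ≠ 0 := (lt_of_le_of_lt zero_le hlt).ne'
  have hc0 : c ≠ 0 := by
    intro h0
    exact hvc (by rw [h0, map_zero])
  have hvy : V.valuation y ≠ 0 := (Valuation.ne_zero_iff _).2 hy
  -- the polynomial over `V`
  have hq : ∀ i, P.coeff i * y ^ i / c ∈ V := by
    intro i
    rw [← V.valuation_le_one_iff, map_div₀]
    exact (div_le_one₀ (zero_lt_iff.2 hvc)).2 (hmax' i)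
  set Q : Polynomial V := ∑ i ∈ Finset.range (d + 1),
    Polynomial.monomial i (⟨P.coeff i * y ^ i / c, hq i⟩ : V) with hQ
  obtain ⟨φ, hφ1, hφ2, hφ3⟩ := h (d + 1)
  have hη : ∀ j, φ j y / y ∈ V := by
    intro j
    rw [← V.valuation_le_one_iff, map_div₀, hφ1, div_self hvy]
  set η : Fin (d + 1) → V := fun j => ⟨φ j y / y, hη j⟩ with hηd
  have hηinj : Function.Injective fun j => IsLocalRing.residue V (η j) := by
    intro i j hij
    by_contra hne
    have h1 : IsLocalRing.residue V (η i - η j) = 0 := by
      rw [map_sub]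
      exact sub_eq_zero.2 hij
    rw [IsLocalRing.residue_eq_zero_iff, V.valuation_lt_one_iff] at h1
    have h2 : ((η i - η j : V) : K) = (φ i y - φ j y) / y := by
      rw [sub_div]
      rfl
    rw [h2, map_div₀, hφ3 i j hne, div_self hvy] at h1
    exact lt_irrefl _ h1
  have heval : ∀ j, (Q.map (IsLocalRing.residue V)).eval (IsLocalRing.residue V (η j)) = 0 := by
    intro j
    rw [Polynomial.eval_map, Polynomial.eval₂_hom, IsLocalRing.residue_eq_zero_iff,
      V.valuation_lt_one_iff]
    have h1 : ((Q.eval (η j) : V) : K) = φ j (P.eval y) / c := by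
      have h2 : ((Q.eval (η j) : V) : K) = ∑ i ∈ Finset.range (d + 1),
          P.coeff i * y ^ i / c * (φ j y / y) ^ i := by
        rw [hQ, Polynomial.eval_finsetSum]
        simp only [Polynomial.eval_monomial]
        push_cast
        rfl
      have h3 : φ j (P.eval y) = ∑ i ∈ Finset.range (d + 1), P.coeff i * (φ j y) ^ i := by
        rw [Polynomial.eval_eq_sum_range, map_sum]
        refine Finset.sum_congr rfl fun i _ => ?_
        rw [map_mul, map_pow, hφ2 j _ (hP i)]
      rw [h2, h3, Finset.sum_div]
      refine Finset.sum_congr rfl fun i _ => ?_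
      rw [div_pow]
      have hyi : y ^ i ≠ 0 := pow_ne_zero i hy
      field_simp
    rw [h1, map_div₀, hφ1]
    exact (div_lt_one₀ (zero_lt_iff.2 hvc)).2 hlt
  have hdeg : (Q.map (IsLocalRing.residue V)).natDegree < Fintype.card (Fin (d + 1)) := by
    rw [Fintype.card_fin]
    refine lt_of_le_of_lt Polynomial.natDegree_map_le (Nat.lt_succ_of_le ?_)
    rw [hQ]
    refine Polynomial.natDegree_sum_le_of_forall_le _ _ fun i hi => ?_
    exact (Polynomial.natDegree_monomial_le _).trans (Nat.lt_succ_iff.1 (Finset.mem_range.1 hi))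
  have hzero := Polynomial.eq_zero_of_natDegree_lt_card_of_eval_eq_zero _ hηinj heval hdeg
  have hi₀ : i₀ ∈ Finset.range (d + 1) := by
    rw [Finset.mem_range]
    by_contra hge
    apply hc0
    rw [hc, Polynomial.coeff_eq_zero_of_natDegree_lt (by omega), zero_mul]
  have h1 := congrArg (fun R => Polynomial.coeff R i₀) hzero
  simp only [Polynomial.coeff_map, Polynomial.coeff_zero] at h1
  have h2 : Q.coeff i₀ = 1 := by
    rw [hQ, Polynomial.finsetSum_coeff, Finset.sum_eq_single i₀]
    · rw [Polynomial.coeff_monomial, if_pos rfl]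
      apply Subtype.ext
      exact div_self hc0
    · intro b _ hb
      rw [Polynomial.coeff_monomial, if_neg hb]
    · intro h3
      exact absurd hi₀ h3
  rw [h2, map_one] at h1
  exact one_ne_zero h1

end Pool.Agent.MP_b525bf_ag_R
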