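import Pool.Agent.Lib.MP_b525bf_ag_R.TWT

/-!
# Row R15: the group has no proper subgroups of finite index
-/

set_option autoImplicit false

namespace Pool.Agent.MP_b525bf_ag_R

open Matrix.SpecialLinearGroup
open scoped MatrixGroups

private theorem gix_pow {k : Type} [Field k] [IsAlgClosed k] {m r : ℕ}
    (t : (Fin m ⊕ Fin r) → kˣ) (M : ℕ) (hM : M ≠ 0) :
    ∃ t' : (Fin m ⊕ Fin r) → kˣ, t' ^ M = t := by
  have h : ∀ i, ∃ u : kˣ, u ^ M = t i := by
    intro i
    obtain ⟨z, hz⟩ := IsAlgClosed.exists_pow_nat_eq ((t i : kˣ) : k) (Nat.pos_of_ne_zero hM)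
    have hz0 : z ≠ 0 := by
      rintro rfl
      rw [zero_pow hM] at hz
      exact (t i).ne_zero hz.symm
    refine ⟨Units.mk0 z hz0, ?_⟩
    ext
    simpa using hz
  choose u hu using h
  exact ⟨u, funext hu⟩

private theorem gix_exists_unit (k : Type) [Field k] [IsAlgClosed k] :
    ∃ t : kˣ, (t : k) ^ 2 - 1 ≠ 0 := by
  classical
  have : Infinite k := IsAlgClosed.instInfinite
  obtain ⟨x, hx⟩ := Infinite.exists_notMem_finset ({0, 1, -1} : Finset k)
  simp only [Finset.mem_insert, Finset.mem_singleton, not_or] at hx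
  refine ⟨Units.mk0 x hx.1, ?_⟩
  intro h
  have h2 : (x - 1) * (x + 1) = 0 := by
    rw [Units.val_mk0] at h
    linear_combination h
  rcases mul_eq_zero.1 h2 with h3 | h3
  · exact hx.2.1 (sub_eq_zero.1 h3)
  · exact hx.2.2 (eq_neg_of_add_eq_zero_left h3)

private theorem gix_normal {k : Type} [Field k] [IsAlgClosed k] {m r : ℕ}
    (H : Subgroup (SLT k m r)) (hn : H.Normal) (hH : H.FiniteIndex) : H = ⊤ := by
  have ht : ∀ t, tor t ∈ H := by
    intro t
    obtain ⟨t', ht'⟩ := gix_pow t H.index hH.index_ne_zero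
    rw [← ht', map_pow]
    exact H.pow_index_mem _
  obtain ⟨u, hu⟩ := gix_exists_unit k
  refine top_le H ht ?_ ?_
  · intro i s
    have h1 : sl (k := k) (m := m) (r := r) i (dg u) ∈ H := by
      rw [← tor_single]
      exact ht _
    have h2 := hn.conj_mem _ (H.inv_mem h1) (sl i (up (s / ((u : k) ^ 2 - 1))))
    have h3 := H.mul_mem h1 h2
    have h4 : dg u * (up (s / ((u : k) ^ 2 - 1)) * (dg u)⁻¹ * (up (s / ((u : k) ^ 2 - 1)))⁻¹) =
        up s := by
      have h5 : dg u * up (s / ((u : k) ^ 2 - 1)) =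
          up s * up (s / ((u : k) ^ 2 - 1)) * dg u := by
        rw [dg_mul_up, ← up_add]
        congr 2
        field_simp
        ring
      rw [← mul_assoc, ← mul_assoc, h5]
      group
    rw [← h4]
    simpa only [map_mul, map_inv, mul_assoc] using h3
  · intro i s
    have hu' : ((((u⁻¹ : kˣ) : k)) ^ 2 - 1) ≠ 0 := by
      intro h
      apply hu
      have h6 : (u : k) * ((u⁻¹ : kˣ) : k) = 1 := Units.mul_inv u
      have h7 : ((u : k) * ((u⁻¹ : kˣ) : k)) ^ 2 = 1 := by rw [h6, one_pow]
      rw [mul_pow, sub_eq_zero.1 h, mul_one] at h7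
      rw [h7, sub_self]
    have h1 : sl (k := k) (m := m) (r := r) i (dg u) ∈ H := by
      rw [← tor_single]
      exact ht _
    obtain ⟨s', hs'⟩ : ∃ s', s' = s / ((((u⁻¹ : kˣ) : k)) ^ 2 - 1) := ⟨_, rfl⟩
    have h2 := hn.conj_mem _ (H.inv_mem h1) (sl i (lo s'))
    have h3 := H.mul_mem h1 h2
    have h4 : dg u * (lo s' * (dg u)⁻¹ * (lo s')⁻¹) = lo s := by
      have h5 : dg u * lo s' = lo s * lo s' * dg u := by
        rw [dg_mul_lo, ← lo_add]
        congr 2
        rw [hs']
        field_simp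
        ring
      rw [← mul_assoc, ← mul_assoc, h5]
      group
    rw [← h4]
    simpa only [map_mul, map_inv, mul_assoc] using h3

/-- Row R15a.

Proof. It suffices to consider normal subgroups `H` (`Subgroup.normalCore`). With `M` the index,
`x ^ M ∈ H` for all `x` (`Subgroup.pow_index_mem`). All elements of the torus are `M`-th powers of
elements of the torus (`IsAlgClosed.exists_pow_nat_eq`), so they are in `H`. For `t` with
`t ^ 2 ≠ 1` the commutator of `dg t` and `up s'` is `up ((t ^ 2 - 1) s')` (`dg_mul_up`) and is in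
`H`, so all `sl i (up s)` are in `H`; in the same way the `sl i (lo s)`. Then `top_le`. -/
theorem eq_top_of_finiteIndex {k : Type} [Field k] [IsAlgClosed k] {m r : ℕ}
    (H : Subgroup (SLT k m r)) (hH : H.FiniteIndex) : H = ⊤ := by
  have := hH
  have h1 : H.normalCore = ⊤ := gix_normal _ inferInstance inferInstance
  rw [eq_top_iff, ← h1]
  exact H.normalCore_le

/-- Row R15b. The same for the image (`Subgroup.index_comap_of_surjective`, see `FH1_idx` in
`MP_b525bf_ag_E/FH1.lean`). -/
theorem range_eq_top_of_finiteIndex {k : Type} [Field k] [IsAlgClosed k] {m r : ℕ} {G : Type}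
    [Group G] (ρ : SLT k m r →* G) (H : Subgroup ρ.range) (hH : H.FiniteIndex) : H = ⊤ := by
  have h1 : H.comap ρ.rangeRestrict = ⊤ := by
    refine eq_top_of_finiteIndex _ ⟨?_⟩
    rw [Subgroup.index_comap_of_surjective H ρ.rangeRestrict_surjective]
    exact hH.index_ne_zero
  rw [Subgroup.eq_top_iff']
  intro x
  obtain ⟨y, rfl⟩ := ρ.rangeRestrict_surjective x
  have h2 : y ∈ H.comap ρ.rangeRestrict := by
    rw [h1]; trivial
  exact h2

end Pool.Agent.MP_b525bf_ag_R
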