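import Pool.Agent.Lib.MP_b525bf_ag_R.SPN

/-!
# Row R02: the part of weight zero of a polynomial function on `SL_2`, as a form of bidegree `(n, n)`
-/

set_option autoImplicit false

namespace Pool.Agent.MP_b525bf_ag_R

open Matrix.SpecialLinearGroup
open scoped MatrixGroups

section GraQ

variable {k : Type} [Field k] {A : Type} [CommRing A] [Algebra k A]

/-- `F` is a form of bidegree `(n, n)` in the columns of `g`. -/
def graQ (n : ℕ) (F : SL(2, k) → A) : Prop :=
  ∃ N : Fin (n + 1) → Fin (n + 1) → A, ∀ g : SL(2, k),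
    F g = biform n N (fun i => g.1 i 0) (fun i => g.1 i 1)

theorem graQ_zero (n : ℕ) : graQ n (fun _ : SL(2, k) => (0 : A)) :=
  ⟨fun _ _ => 0, fun g => by simp [biform]⟩

theorem graQ_add {n : ℕ} {F G : SL(2, k) → A} (hF : graQ n F) (hG : graQ n G) :
    graQ n (fun g => F g + G g) := by
  obtain ⟨N, hN⟩ := hF
  obtain ⟨N', hN'⟩ := hG
  refine ⟨fun i j => N i j + N' i j, fun g => ?_⟩
  simp only [hN, hN', biform, smul_add, Finset.sum_add_distrib]

theorem graQ_sum {n : ℕ} {ι : Type} (s : Finset ι) (F : ι → SL(2, k) → A)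
    (h : ∀ i ∈ s, graQ n (F i)) : graQ n (fun g => ∑ i ∈ s, F i g) := by
  classical
  induction s using Finset.induction_on with
  | empty => simpa using graQ_zero n
  | insert i s hi ih =>
    have h1 := graQ_add (h i (Finset.mem_insert_self i s))
      (ih fun j hj => h j (Finset.mem_insert_of_mem hj))
    obtain ⟨N, hN⟩ := h1
    exact ⟨N, fun g => (Finset.sum_insert hi).trans (hN g)⟩

theorem graQ_smul {n : ℕ} (c : k) {F : SL(2, k) → A} (hF : graQ n F) :
    graQ n (fun g => c • F g) := by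
  obtain ⟨N, hN⟩ := hF
  refine ⟨fun i j => c • N i j, fun g => ?_⟩
  simp only [hN, biform, Finset.smul_sum, smul_smul]
  refine Finset.sum_congr rfl fun a _ => Finset.sum_congr rfl fun b _ => ?_
  rw [mul_comm c]

theorem graQ_mono (n a b : ℕ) (ha : a ≤ n) (hb : b ≤ n) (c : A) :
    graQ n (fun g : SL(2, k) =>
      (g.1 0 0 ^ (n - a) * g.1 1 0 ^ a * (g.1 0 1 ^ (n - b) * g.1 1 1 ^ b)) • c) := by
  refine ⟨fun i j => if i = ⟨a, by omega⟩ then (if j = ⟨b, by omega⟩ then c else 0) else 0,
    fun g => ?_⟩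
  rw [biform, Finset.sum_eq_single (⟨a, by omega⟩ : Fin (n + 1)),
    Finset.sum_eq_single (⟨b, by omega⟩ : Fin (n + 1))]
  · simp
  · intro j _ hj
    simp [hj]
  · intro h
    exact absurd (Finset.mem_univ _) h
  · intro i _ hi
    simp [hi]
  · intro h
    exact absurd (Finset.mem_univ _) h

/-- The monomials. -/
theorem graQ_mono' (n a b c d : ℕ) (hab : a + b = c + d) (hn : a + b ≤ n) (x : A) :
    graQ n (fun g : SL(2, k) =>
      (g.1 0 0 ^ a * g.1 1 0 ^ b * (g.1 0 1 ^ c * g.1 1 1 ^ d)) • x) := by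
  have key : ∀ g : SL(2, k),
      (g.1 0 0 ^ a * g.1 1 0 ^ b * (g.1 0 1 ^ c * g.1 1 1 ^ d)) • x =
        ∑ j ∈ Finset.range (n - (a + b) + 1),
          (((n - (a + b)).choose j : k) * (-1) ^ (n - (a + b) - j)) •
            ((g.1 0 0 ^ (n - (b + (n - (a + b) - j))) * g.1 1 0 ^ (b + (n - (a + b) - j)) *
              (g.1 0 1 ^ (n - (d + j)) * g.1 1 1 ^ (d + j))) • x) := by
    intro g
    have h1 : (g.1 0 0 * g.1 1 1 + -(g.1 0 1 * g.1 1 0)) ^ (n - (a + b)) = 1 := by
      rw [← sub_eq_add_neg, det_eq, one_pow]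
    calc (g.1 0 0 ^ a * g.1 1 0 ^ b * (g.1 0 1 ^ c * g.1 1 1 ^ d)) • x
        = ((g.1 0 0 * g.1 1 1 + -(g.1 0 1 * g.1 1 0)) ^ (n - (a + b)) *
          (g.1 0 0 ^ a * g.1 1 0 ^ b * (g.1 0 1 ^ c * g.1 1 1 ^ d))) • x := by
          rw [h1, one_mul]
      _ = _ := by
          rw [add_pow, Finset.sum_mul, Finset.sum_smul]
          refine Finset.sum_congr rfl fun j hj => ?_
          have hj' : j ≤ n - (a + b) := by
            have := Finset.mem_range.1 hj
            omega
          rw [smul_smul]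
          congr 1
          have e1 : n - (b + (n - (a + b) - j)) = a + j := by omega
          have e2 : n - (d + j) = c + (n - (a + b) - j) := by omega
          rw [e1, e2, neg_pow, mul_pow, mul_pow, pow_add, pow_add, pow_add, pow_add]
          ring
  have h2 : graQ n (fun g : SL(2, k) => ∑ j ∈ Finset.range (n - (a + b) + 1),
          (((n - (a + b)).choose j : k) * (-1) ^ (n - (a + b) - j)) •
            ((g.1 0 0 ^ (n - (b + (n - (a + b) - j))) * g.1 1 0 ^ (b + (n - (a + b) - j)) *
              (g.1 0 1 ^ (n - (d + j)) * g.1 1 1 ^ (d + j))) • x)) := by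
    refine graQ_sum _ _ fun j hj => graQ_smul _ (graQ_mono n _ _ ?_ ?_ x)
    · have := Finset.mem_range.1 hj
      omega
    · have := Finset.mem_range.1 hj
      omega
  obtain ⟨N, hN⟩ := h2
  exact ⟨N, fun g => (key g).trans (hN g)⟩

/-- The value at `g * dg t`, as a sum of monomials. -/
theorem ev_mul_dg (P : MvPolynomial (Fin 2 × Fin 2) A) (g : SL(2, k)) (t : kˣ) :
    ev P (g * dg t) = ∑ α ∈ P.support,
      ((t ^ (((α (0, 0) + α (1, 0) : ℕ) : ℤ) - ((α (0, 1) + α (1, 1) : ℕ) : ℤ)) : kˣ) : k) •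
        ((g.1 0 0 ^ α (0, 0) * g.1 1 0 ^ α (1, 0) *
          (g.1 0 1 ^ α (0, 1) * g.1 1 1 ^ α (1, 1))) • P.coeff α) := by
  rw [ev, MvPolynomial.eval_eq]
  refine Finset.sum_congr rfl fun α _ => ?_
  have h1 : ∀ f : Fin 2 × Fin 2 → A, ∏ i ∈ α.support, f i ^ α i = ∏ i, f i ^ α i := by
    intro f
    refine Finset.prod_subset (Finset.subset_univ _) fun i _ hi => ?_
    rw [Finsupp.notMem_support_iff.1 hi, pow_zero]
  rw [h1, Fintype.prod_prod_type, Fin.prod_univ_two, Fin.prod_univ_two, Fin.prod_univ_two]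
  simp only [mul00, mul01, mul10, mul11, dg00, dg01, dg10, dg11, mul_zero, add_zero, zero_add]
  rw [smul_smul, Algebra.smul_def, mul_comm (P.coeff α)]
  congr 1
  simp only [← map_pow, ← map_mul]
  congr 1
  rw [zpow_sub, zpow_natCast, zpow_natCast]
  push_cast
  rw [mul_pow, mul_pow, mul_pow, mul_pow, pow_add, pow_add, mul_inv, ← inv_pow, ← inv_pow]
  ring

end GraQ

/-- Let `F(g)` be a polynomial in the entries of `g`, with coefficients in `A`. The part of weight
`0` of `F`, under the right multiplication with the diagonal torus, is a linear combination of the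
functions `F(g dg(t))`, and is for each large `n` a form of bidegree `(n, n)` in the columns of `g`.

Proof. `P` is a finite sum of monomials `c X00^a X10^b X01^c' X11^d`. The value at `g * dg t`
multiplies this monomial by `t^(a+b-c'-d)`. Choose `N₀` at least the total degree of `P` and `b`
from `exists_coeff_zpow` for `S = [-N₀, N₀]` and `0` (with `i = 0` this gives that the sum of the
coefficients of `b` is `1`). Then the sum on the left is the sum over the monomials with
`a + b = c' + d =: D`. For `n ≥ N₀ ≥ D` multiply the monomial by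
`1 = (g00 g11 - g01 g10)^(n-D)` (`det_eq`) and expand with the binomial theorem: a sum of monomials
of bidegree `(n, n)`. It is best to prove that the set of all functions `SL(2, k) → A` of the form
`fun g => biform n N _ _` is closed under sums and scalar multiplication with elements of `A`, and
contains the monomials. -/
theorem exists_biform {k : Type} [Field k] [Infinite k] {A : Type} [CommRing A] [Algebra k A]
    (P : MvPolynomial (Fin 2 × Fin 2) A) :
    ∃ (N₀ : ℕ) (b : kˣ →₀ k), (b.sum fun _ c => c) = 1 ∧ ∀ n, N₀ ≤ n →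
      ∃ N : Fin (n + 1) → Fin (n + 1) → A, ∀ g : SL(2, k),
        (b.sum fun t c => c • ev P (g * dg t)) =
          biform n N (fun i => g.1 i 0) (fun i => g.1 i 1) := by
  classical
  set δ : ((Fin 2 × Fin 2) →₀ ℕ) → ℤ := fun α =>
    ((α (0, 0) + α (1, 0) : ℕ) : ℤ) - ((α (0, 1) + α (1, 1) : ℕ) : ℤ) with hδ
  obtain ⟨b, hb⟩ := exists_coeff_zpow k (insert 0 (P.support.image δ)) 0
  refine ⟨P.support.sup fun α => α (0, 0) + α (1, 0), b, ?_, fun n hn => ?_⟩
  · have := hb 0 (Finset.mem_insert_self _ _)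
    simpa using this
  · have h1 : ∀ g : SL(2, k), (b.sum fun t c => c • ev P (g * dg t)) =
        ∑ α ∈ P.support, (if δ α = 0 then (1 : k) else 0) •
          ((g.1 0 0 ^ α (0, 0) * g.1 1 0 ^ α (1, 0) *
          (g.1 0 1 ^ α (0, 1) * g.1 1 1 ^ α (1, 1))) • P.coeff α) := by
      intro g
      simp only [ev_mul_dg, Finsupp.sum, Finset.smul_sum]
      rw [Finset.sum_comm]
      refine Finset.sum_congr rfl fun α hα => ?_
      rw [← hb (δ α) (Finset.mem_insert_of_mem (Finset.mem_image_of_mem _ hα)), Finsupp.sum,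
        Finset.sum_smul]
      refine Finset.sum_congr rfl fun t _ => ?_
      exact (mul_smul _ _ _).symm
    have h2 : graQ n (fun g : SL(2, k) => ∑ α ∈ P.support, (if δ α = 0 then (1 : k) else 0) •
          ((g.1 0 0 ^ α (0, 0) * g.1 1 0 ^ α (1, 0) *
          (g.1 0 1 ^ α (0, 1) * g.1 1 1 ^ α (1, 1))) • P.coeff α)) := by
      refine graQ_sum _ _ fun α hα => ?_
      by_cases h : δ α = 0
      · refine graQ_smul _ (graQ_mono' n _ _ _ _ ?_ ?_ _)
        · rw [hδ] at h
          simp only at h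
          omega
        · exact (Finset.le_sup (f := fun α : (Fin 2 × Fin 2) →₀ ℕ =>
            α (0, 0) + α (1, 0)) hα).trans hn
      · simp only [if_neg h, zero_smul]
        exact graQ_zero n
    obtain ⟨N, hN⟩ := h2
    exact ⟨N, fun g => (h1 g).trans (hN g)⟩

end Pool.Agent.MP_b525bf_ag_R
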