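import Pool.Agent.Lib.MP_b525bf_ag_R.Basic

/-!
# Row R03: the determinant of the values of a form of bidegree `(n, n)` is invariant under `SL_2`
-/

set_option autoImplicit false

namespace Pool.Agent.MP_b525bf_ag_R

open Matrix.SpecialLinearGroup
open scoped MatrixGroups

/-- the matrix of the values of the monomials -/
private def grbZ {k : Type} [Field k] (n : ℕ) (z : Fin (n + 1) → Fin 2 → k) :
    Matrix (Fin (n + 1)) (Fin (n + 1)) k :=
  Matrix.projVandermonde (fun i => z i 1) (fun i => z i 0)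

private theorem grbZ_apply {k : Type} [Field k] (n : ℕ) (z : Fin (n + 1) → Fin 2 → k)
    (i a : Fin (n + 1)) : grbZ n z i a = z i 0 ^ (n - (a : ℕ)) * z i 1 ^ (a : ℕ) := by
  unfold grbZ
  rw [Matrix.projVandermonde_apply, Fin.val_rev, mul_comm]
  congr 2
  omega

private theorem grbZ_det {k : Type} [Field k] (n : ℕ) (z : Fin (n + 1) → Fin 2 → k)
    (h : SL(2, k)) : (grbZ n fun i => h.1.mulVec (z i)).det = (grbZ n z).det := by
  unfold grbZ
  rw [Matrix.det_projVandermonde, Matrix.det_projVandermonde]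
  refine Finset.prod_congr rfl fun i _ => Finset.prod_congr rfl fun j _ => ?_
  have hd := det_eq h
  simp only [Matrix.mulVec, dotProduct, Fin.sum_univ_two]
  linear_combination (z j 1 * z i 0 - z i 1 * z j 0) * hd

private theorem grb_mul {k : Type} [Field k] {A : Type} [CommRing A] [Algebra k A] (n : ℕ)
    (N : Fin (n + 1) → Fin (n + 1) → A) (z w : Fin (n + 1) → Fin 2 → k) :
    (Matrix.of fun i j => biform n N (z i) (w j)) =
      (grbZ n z).map (algebraMap k A) * Matrix.of N *
        ((grbZ n w).map (algebraMap k A)).transpose := by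
  ext i j
  rw [Matrix.of_apply, Matrix.mul_apply]
  simp only [Matrix.mul_apply, Matrix.map_apply, Matrix.transpose_apply, Matrix.of_apply,
    grbZ_apply, Finset.sum_mul]
  rw [Finset.sum_comm]
  unfold biform
  refine Finset.sum_congr rfl fun a _ => Finset.sum_congr rfl fun b _ => ?_
  rw [Algebra.smul_def, map_mul]
  ring

/-- The `(n+1) × (n+1)` determinant of the values of a form of bidegree `(n, n)` at `n + 1` vectors
`z i` and `n + 1` vectors `w j` is unchanged if the same element of `SL_2` is applied to all these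
vectors.

Proof. The matrix is the product of `Z = (z i 0 ^ (n - a) * z i 1 ^ a)_{i,a}`, `(N a b)` and the
transpose of `W`. `Z` is `Matrix.projVandermonde (fun i => z i 1) (fun i => z i 0)`, its determinant
(`Matrix.det_projVandermonde`) is the product of the `z j 1 * z i 0 - z i 1 * z j 0`, which are
unchanged under `SL_2` (`det_eq`). -/
theorem det_biform_mulVec {k : Type} [Field k] {A : Type} [CommRing A] [Algebra k A] (n : ℕ)
    (N : Fin (n + 1) → Fin (n + 1) → A) (z w : Fin (n + 1) → Fin 2 → k) (h : SL(2, k)) :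
    (Matrix.of fun i j => biform n N (h.1.mulVec (z i)) (h.1.mulVec (w j))).det =
      (Matrix.of fun i j => biform n N (z i) (w j)).det := by
  have e : ∀ z : Fin (n + 1) → Fin 2 → k, ((grbZ n z).map (algebraMap k A)).det =
      algebraMap k A (grbZ n z).det := fun z => by
    rw [RingHom.map_det]
    rfl
  rw [grb_mul n N (fun i => h.1.mulVec (z i)) fun j => h.1.mulVec (w j), grb_mul n N z w]
  simp only [Matrix.det_mul, Matrix.det_transpose, e, grbZ_det]

/-- Homogeneity. -/
theorem biform_smul {k : Type} [Field k] {A : Type} [CommRing A] [Algebra k A] (n : ℕ)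
    (N : Fin (n + 1) → Fin (n + 1) → A) (z w : Fin 2 → k) (c : k) :
    biform n N (c • z) (c • w) = c ^ (2 * n) • biform n N z w := by
  unfold biform
  rw [Finset.smul_sum]
  refine Finset.sum_congr rfl fun a _ => ?_
  rw [Finset.smul_sum]
  refine Finset.sum_congr rfl fun b _ => ?_
  rw [smul_smul]
  congr 1
  simp only [Pi.smul_apply, smul_eq_mul, mul_pow]
  have ha : c ^ (n - (a : ℕ)) * c ^ (a : ℕ) = c ^ n := by
    rw [← pow_add]
    congr 1
    omega
  have hb : c ^ (n - (b : ℕ)) * c ^ (b : ℕ) = c ^ n := by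
    rw [← pow_add]
    congr 1
    omega
  have h2 : c ^ (2 * n) = c ^ n * c ^ n := by rw [two_mul, pow_add]
  rw [h2]
  calc c ^ (n - (a : ℕ)) * z 0 ^ (n - (a : ℕ)) * (c ^ (a : ℕ) * z 1 ^ (a : ℕ)) *
        (c ^ (n - (b : ℕ)) * w 0 ^ (n - (b : ℕ)) * (c ^ (b : ℕ) * w 1 ^ (b : ℕ)))
      = (c ^ (n - (a : ℕ)) * c ^ (a : ℕ)) * (c ^ (n - (b : ℕ)) * c ^ (b : ℕ)) *
        (z 0 ^ (n - (a : ℕ)) * z 1 ^ (a : ℕ) * (w 0 ^ (n - (b : ℕ)) * w 1 ^ (b : ℕ))) := by ring
    _ = c ^ n * c ^ n *
        (z 0 ^ (n - (a : ℕ)) * z 1 ^ (a : ℕ) * (w 0 ^ (n - (b : ℕ)) * w 1 ^ (b : ℕ))) := by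
        rw [ha, hb]

end Pool.Agent.MP_b525bf_ag_R
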