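import Pool.Agent.Lib.MP_b525bf_ag_R.Basic

/-!
# Row R04: a determinant modulo a subspace
-/

set_option autoImplicit false

namespace Pool.Agent.MP_b525bf_ag_R

private theorem GRC_prod_mem {k : Type} [Field k] {A : Type} [CommRing A] [Algebra k A]
    (G : Submodule k A) : ∀ (m : ℕ) (x : Fin m → A), (∀ i, x i ∈ G) → ∏ i, x i ∈ G ^ m := by
  intro m
  induction m with
  | zero =>
    intro x _
    simp only [Finset.univ_eq_empty, Finset.prod_empty, pow_zero]
    exact Submodule.one_le.1 le_rfl
  | succ m ih =>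
    intro x hx
    rw [Fin.prod_univ_succ, pow_succ']
    exact Submodule.mul_mem_mul (hx 0) (ih _ fun i => hx i.succ)

private theorem GRC_sub_mem {k : Type} [Field k] {A : Type} [CommRing A] [Algebra k A] (w : A)
    (E : Submodule k A) : ∀ (m : ℕ) (x : Fin (m + 1) → A) (c : Fin (m + 1) → k),
    (∀ i, x i - c i • w ∈ E) →
    ∏ i, x i - (∏ i, c i) • w ^ (m + 1) ∈ E * (Submodule.span k {w} ⊔ E) ^ m := by
  have hw : w ∈ Submodule.span k {w} ⊔ E :=
    Submodule.mem_sup_left (Submodule.mem_span_singleton_self w)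
  intro m
  induction m with
  | zero =>
    intro x c h
    have := h 0
    simpa using this
  | succ m ih =>
    intro x c h
    have hG : ∀ i : Fin (m + 1), x i.succ ∈ Submodule.span k {w} ⊔ E := by
      intro i
      have h1 : x i.succ = c i.succ • w + (x i.succ - c i.succ • w) := by abel
      rw [h1]
      exact Submodule.add_mem _ (Submodule.smul_mem _ _ hw) (Submodule.mem_sup_right (h i.succ))
    have h1 := GRC_prod_mem (Submodule.span k {w} ⊔ E) (m + 1) (fun i => x i.succ) hG
    have h2 := ih (fun i => x i.succ) (fun i => c i.succ) (fun i => h i.succ)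
    have h3 := Submodule.mul_mem_mul (h 0) h1
    have h4 := Submodule.mul_mem_mul (Submodule.smul_mem _ (c 0) hw) h2
    have h5 : (Submodule.span k {w} ⊔ E) * (E * (Submodule.span k {w} ⊔ E) ^ m) =
        E * (Submodule.span k {w} ⊔ E) ^ (m + 1) := by
      rw [pow_succ]
      ring
    rw [h5] at h4
    have h6 := Submodule.add_mem _ h3 h4
    rw [Fin.prod_univ_succ x, Fin.prod_univ_succ c]
    convert h6 using 1
    rw [mul_sub, sub_mul, smul_mul_smul_comm, ← pow_succ' w (m + 1)]
    ring

/-- Row R04. The determinant of a matrix with entries `c i j • w` up to elements of `E`.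

Proof. `Matrix.det_apply`; by induction on a finite set `s` of indices with `0 < s.card`: if
`x i - c i • w ∈ E` for `i ∈ s` then `∏ x i - (∏ c i) • w ^ s.card ∈ E * (k w + E)^(s.card - 1)`,
and `∏ x i ∈ (k w + E) ^ s.card`. -/
theorem det_sub_mem {k : Type} [Field k] {A : Type} [CommRing A] [Algebra k A] {n : ℕ}
    (M : Matrix (Fin (n + 1)) (Fin (n + 1)) A) (c : Matrix (Fin (n + 1)) (Fin (n + 1)) k) (w : A)
    (E : Submodule k A) (h : ∀ i j, M i j - c i j • w ∈ E) :
    M.det - c.det • w ^ (n + 1) ∈ E * (Submodule.span k {w} ⊔ E) ^ n := by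
  rw [Matrix.det_apply, Matrix.det_apply, Finset.sum_smul, ← Finset.sum_sub_distrib]
  apply Submodule.sum_mem
  intro σ _
  have h1 := GRC_sub_mem w E n (fun i => M (σ i) i) (fun i => c (σ i) i) (fun i => h (σ i) i)
  rcases Int.units_eq_one_or (Equiv.Perm.sign σ) with h2 | h2
  · rw [h2, one_smul, one_smul]
    exact h1
  · rw [h2]
    have h3 := Submodule.neg_mem _ h1
    simp only [Units.neg_smul, one_smul, neg_smul]
    convert h3 using 1
    abel

end Pool.Agent.MP_b525bf_ag_R
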