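import Pool.Agent.Lib.MP_b525bf_ag_R.Basic

/-!
# Row R05: a determinant
-/

set_option autoImplicit false

namespace Pool.Agent.MP_b525bf_ag_R

/-- Row R05. The determinant of the matrix `(t j - s i)^(q-1)` for a power `q = n + 1` of the
characteristic.

Proof. `(t - s) * ∑ a, s^a t^(n-a) = t^q - s^q = (t - s)^q` (`Commute.mul_geom_sum₂`,
`sub_pow_char_pow`), so `(t j - s i)^(q-1) = ∑ a, s i ^ a * t j ^ (n - a)`: the matrix is the product
of a Vandermonde matrix and the transpose of a Vandermonde matrix with the columns in reverse order,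
which is `Matrix.projVandermonde 1 t`. -/
theorem det_pow_ne_zero {k : Type} [Field k] (p : ℕ) [Fact p.Prime] [CharP k p] (n e : ℕ)
    (hq : n + 1 = p ^ e) (s t : Fin (n + 1) → k) (hs : Function.Injective s)
    (ht : Function.Injective t) (hst : ∀ i j, t j ≠ s i) :
    (Matrix.of fun i j => (t j - s i) ^ n).det ≠ 0 := by
  have hentry : ∀ i j, (t j - s i) ^ n = ∑ a : Fin (n + 1), s i ^ (a : ℕ) * t j ^ (n - (a : ℕ)) := by
    intro i j
    have h0 : t j - s i ≠ 0 := sub_ne_zero.2 (hst i j)
    have h1 : (t j - s i) ^ (n + 1) = t j ^ (n + 1) - s i ^ (n + 1) := by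
      rw [hq]
      exact sub_pow_char_pow (t j) (s i) e
    have h2 : (∑ a ∈ Finset.range (n + 1), s i ^ a * t j ^ (n + 1 - 1 - a)) * (s i - t j) =
        s i ^ (n + 1) - t j ^ (n + 1) := (Commute.all (s i) (t j)).geom_sum₂_mul (n + 1)
    rw [Finset.sum_range, Nat.add_sub_cancel] at h2
    apply mul_right_cancel₀ h0
    rw [← pow_succ, h1]
    linear_combination h2
  have hmat : (Matrix.of fun i j => (t j - s i) ^ n) =
      Matrix.vandermonde s * (Matrix.projVandermonde 1 t).transpose := by
    ext i j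
    rw [Matrix.mul_apply, Matrix.of_apply, hentry]
    refine Finset.sum_congr rfl fun a _ => ?_
    rw [Matrix.vandermonde_apply, Matrix.transpose_apply, Matrix.projVandermonde_apply,
      Pi.one_apply, one_pow, one_mul, Fin.val_rev]
    congr 2
    omega
  rw [hmat, Matrix.det_mul, Matrix.det_transpose, Matrix.det_vandermonde,
    Matrix.det_projVandermonde]
  refine mul_ne_zero ?_ ?_
  · refine Finset.prod_ne_zero_iff.2 fun i _ => Finset.prod_ne_zero_iff.2 fun j hj => ?_
    rw [Finset.mem_Ioi] at hj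
    exact sub_ne_zero.2 (hs.ne hj.ne')
  · refine Finset.prod_ne_zero_iff.2 fun i _ => Finset.prod_ne_zero_iff.2 fun j hj => ?_
    rw [Finset.mem_Ioi] at hj
    simp only [Pi.one_apply, one_mul]
    exact sub_ne_zero.2 (ht.ne hj.ne)

end Pool.Agent.MP_b525bf_ag_R
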