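import Pool.Agent.Lib.MP_b525bf_ag_R.GRA
import Pool.Agent.Lib.MP_b525bf_ag_R.GRB
import Pool.Agent.Lib.MP_b525bf_ag_R.GRC
import Pool.Agent.Lib.MP_b525bf_ag_R.GRD

/-!
# Row R06: the core lemma (geometric reductivity of `SL_2`)
-/

set_option autoImplicit false

namespace Pool.Agent.MP_b525bf_ag_R

open Matrix.SpecialLinearGroup
open scoped MatrixGroups

section Aux

variable {k : Type} [Field k] {A : Type} [CommRing A] [Algebra k A]

private theorem col_mul (h g : SL(2, k)) (j : Fin 2) :
    (fun i => (h * g).1 i j) = h.1.mulVec (fun i => g.1 i j) := by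
  funext i
  rw [Matrix.SpecialLinearGroup.coe_mul, Matrix.mul_apply]
  rfl

/-- The matrix in `SL_2` with columns proportional to two given vectors. -/
private theorem exists_cols [IsAlgClosed k] (z w : Fin 2 → k) (hδ : z 0 * w 1 - z 1 * w 0 ≠ 0) :
    ∃ (σ : k) (g : SL(2, k)), σ ≠ 0 ∧ σ ^ 2 = z 0 * w 1 - z 1 * w 0 ∧
      z = σ • (fun i => g.1 i 0) ∧ w = σ • (fun i => g.1 i 1) := by
  obtain ⟨σ, hσ⟩ := IsAlgClosed.exists_pow_nat_eq (z 0 * w 1 - z 1 * w 0) (n := 2) two_pos
  have hσ0 : σ ≠ 0 := by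
    rintro rfl
    rw [zero_pow two_ne_zero] at hσ
    exact hδ hσ.symm
  refine ⟨σ, ⟨!![z 0 / σ, w 0 / σ; z 1 / σ, w 1 / σ], ?_⟩, hσ0, hσ, ?_, ?_⟩
  · rw [Matrix.det_fin_two_of]
    field_simp
    linear_combination -hσ
  · funext i
    fin_cases i <;> simp <;> field_simp
  · funext i
    fin_cases i <;> simp <;> field_simp

end Aux

/-- The core lemma. Let `F` be a polynomial function on `SL_2(k)` with values in `A` and in
`w + E`, for a subspace `E`. Then for some power `q` of `p` there is an element `l`, which is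
`w ^ q` up to an element of `E (k w + E)^(q-1)`, with the following property: if `φ` is an
automorphism of `A` with `φ (F g) = c F(h g)` for all `g`, then `φ l = c ^ q l`.

Proof. Take `N₀`, `b` from `exists_biform` for `F`, `q = p^e` with `n := q - 1 ≥ N₀`, `N` for this
`n`, `F₀(g) = b.sum fun t c => c • F (g * dg t)`. Then `F₀(g) - w ∈ E` (the sum of the coefficients
of `b` is `1`), and `φ (F g) = c F(h g)` for all `g` implies the same for `F₀`. Choose `2 q` distinct
elements `s i`, `t j` of `k`, `z i = ![1, s i]`, `w j = ![1, t j]`. For `z`, `w` with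
`δ = z 0 * w 1 - z 1 * w 0 ≠ 0` choose `σ` with `σ ^ 2 = δ` and let `g(z, w)` be the matrix with
columns `z / σ`, `w / σ`: `biform n N z w = δ ^ n • F₀(g(z, w))` (`biform_smul`). So
`φ (biform n N z w) = c • biform n N (h z) (h w)`, as `h g(z, w) = g(h z, h w)` for the same `σ`.
Let `l'` be the determinant of `biform n N (z i) (w j)`: `φ l' = c ^ q • l'` by
`det_biform_mulVec`, `l' - det((t j - s i)^n) • w ^ q ∈ E * (k w + E)^n` by `det_sub_mem`, and
`l = det(...)⁻¹ • l'`. -/
theorem gr_core (p : ℕ) [Fact p.Prime] {k : Type} [Field k] [IsAlgClosed k] [CharP k p] {A : Type}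
    [CommRing A] [Algebra k A] (F : SL(2, k) → A) (P : MvPolynomial (Fin 2 × Fin 2) A)
    (hF : ∀ g, F g = ev P g) (w : A) (E : Submodule k A) (hE : ∀ g, F g - w ∈ E) :
    ∃ (n : ℕ) (l : A), l - w ^ (n + 1) ∈ E * (Submodule.span k {w} ⊔ E) ^ n ∧
      ∀ (φ : A ≃ₐ[k] A) (h : SL(2, k)) (c : k), (∀ g, φ (F g) = c • F (h * g)) →
        φ l = c ^ (n + 1) • l := by
  classical
  have hinf : Infinite k := IsAlgClosed.instInfinite
  obtain ⟨N₀, b, hb1, hbN⟩ := exists_biform (k := k) P
  -- the power of `p`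
  have hp2 : 1 < p := (Fact.out : p.Prime).one_lt
  have hlt : N₀ < p ^ N₀ := Nat.lt_pow_self hp2
  obtain ⟨n, hn⟩ : ∃ n, n + 1 = p ^ N₀ := ⟨p ^ N₀ - 1, by omega⟩
  obtain ⟨N, hN⟩ := hbN n (by omega)
  -- the function of weight zero
  set F₀ : SL(2, k) → A := fun g => b.sum fun t c => c • F (g * dg t) with hF₀
  have hF₀N : ∀ g : SL(2, k), F₀ g = biform n N (fun i => g.1 i 0) (fun i => g.1 i 1) := by
    intro g
    rw [← hN g, hF₀]
    simp only [hF]
  have hF₀E : ∀ g, F₀ g - w ∈ E := by
    intro g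
    have h1 : F₀ g - w = b.sum fun t c => c • (F (g * dg t) - w) := by
      have h2 : w = b.sum fun _ c => c • w := by
        rw [Finsupp.sum, ← Finset.sum_smul]
        rw [Finsupp.sum] at hb1
        rw [hb1, one_smul]
      conv_lhs => rw [h2, hF₀]
      simp only [Finsupp.sum, ← Finset.sum_sub_distrib, ← smul_sub]
    rw [h1]
    exact Submodule.sum_mem _ fun t _ => E.smul_mem _ (hE _)
  -- the points
  let f := Infinite.natEmbedding k
  let s : Fin (n + 1) → k := fun i => f i
  let t : Fin (n + 1) → k := fun j => f (n + 1 + j)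
  have hs : Function.Injective s := fun i j hij => Fin.ext (f.injective hij)
  have ht : Function.Injective t := fun i j hij => by
    have := f.injective hij
    exact Fin.ext (by omega)
  have hst : ∀ i j, t j ≠ s i := by
    intro i j hij
    have := f.injective hij
    omega
  let z : Fin (n + 1) → Fin 2 → k := fun i => ![1, s i]
  let u : Fin (n + 1) → Fin 2 → k := fun j => ![1, t j]
  have hδ : ∀ i j, z i 0 * u j 1 - z i 1 * u j 0 = t j - s i := by
    intro i j
    simp [z, u]
  set M : Matrix (Fin (n + 1)) (Fin (n + 1)) A :=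
    Matrix.of fun i j => biform n N (z i) (u j) with hM
  set C : Matrix (Fin (n + 1)) (Fin (n + 1)) k := Matrix.of fun i j => (t j - s i) ^ n with hC
  have hCdet : C.det ≠ 0 := det_pow_ne_zero p n N₀ hn s t hs ht hst
  have hMC : ∀ i j, M i j - C i j • w ∈ E := by
    intro i j
    obtain ⟨σ, g, hσ0, hσ, hz, hu⟩ := exists_cols (z i) (u j) (by
      rw [hδ]
      exact sub_ne_zero.2 (hst i j))
    have h1 : M i j = C i j • F₀ g := by
      rw [hM, hC, Matrix.of_apply, Matrix.of_apply, hz, hu, biform_smul, ← hF₀N, pow_mul, hσ, hδ]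
    rw [h1, ← smul_sub]
    exact E.smul_mem _ (hF₀E g)
  refine ⟨n, C.det⁻¹ • M.det, ?_, ?_⟩
  · have h1 := det_sub_mem M C w E hMC
    have h2 : C.det⁻¹ • M.det - w ^ (n + 1) = C.det⁻¹ • (M.det - C.det • w ^ (n + 1)) := by
      rw [smul_sub, smul_smul, inv_mul_cancel₀ hCdet, one_smul]
    rw [h2]
    exact Submodule.smul_mem _ _ h1
  · intro φ h c hφ
    have hφ₀ : ∀ g, φ (F₀ g) = c • F₀ (h * g) := by
      intro g
      rw [hF₀]
      simp only [Finsupp.sum, map_sum, map_smul, hφ, Finset.smul_sum, mul_assoc]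
      exact Finset.sum_congr rfl fun x _ => smul_comm _ _ _
    have hφb : ∀ i j, φ (M i j) = c • biform n N (h.1.mulVec (z i)) (h.1.mulVec (u j)) := by
      intro i j
      obtain ⟨σ, g, hσ0, hσ, hz, hu⟩ := exists_cols (z i) (u j) (by
        rw [hδ]
        exact sub_ne_zero.2 (hst i j))
      have h1 : M i j = σ ^ (2 * n) • F₀ g := by
        rw [hM, Matrix.of_apply, hz, hu, biform_smul, ← hF₀N]
      rw [h1, map_smul, hφ₀, hz, hu, Matrix.mulVec_smul, Matrix.mulVec_smul, biform_smul,
        ← col_mul, ← col_mul, ← hF₀N, smul_comm]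
    have h2 : φ M.det = c ^ (n + 1) • M.det := by
      rw [AlgEquiv.map_det]
      have h3 : φ.mapMatrix M =
          c • (Matrix.of fun i j => biform n N (h.1.mulVec (z i)) (h.1.mulVec (u j))) := by
        ext i j
        rw [AlgEquiv.mapMatrix_apply, Matrix.map_apply, hφb, Matrix.smul_apply, Matrix.of_apply]
      rw [h3, Matrix.det_smul_of_tower, Fintype.card_fin, det_biform_mulVec]
    rw [map_smul, h2, smul_comm]

end Pool.Agent.MP_b525bf_ag_R
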