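import Pool.Agent.Lib.MP_b525bf_ag_ES.MAINS
import Pool.Agent.Lib.MP_b525bf_ag_ES.LOGT
import Pool.Agent.Lib.MP_b525bf_ag_R.CHN
import Pool.Agent.Lib.MP_b525bf_ag_R.CPX
import Pool.Agent.Lib.MP_b525bf_ag_R.GIX

/-!
# Resolution for rational actions of `SL_2(k)^m × (k^*)^r` of complexity at most one
-/

set_option autoImplicit false

namespace Pool.Agent.MP_b525bf_ag_R

open AlgebraicGeometry CategoryTheory
open Pool.Agent.LU2 Pool.Agent.MP_b525bf_ag Pool.Agent.MP_b525bf_ag_W Pool.Agent.MP_b525bf_ag_E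
  Pool.Agent.MPb525bf Pool.Agent.MP_b525bf_ag_ES
open scoped MatrixGroups

/-- The resolution. -/
theorem resolution_of_rational (p : ℕ) [Fact p.Prime] (k : Type) [Field k] [IsAlgClosed k]
    [CharP k p] (A : Type) [CommRing A] [IsDomain A] [Algebra k A] [Algebra.FiniteType k A]
    (m r : ℕ) (ρ : SLT k m r →* (A ≃ₐ[k] A)) (hρ : IsRational ρ)
    (hc : Algebra.trdeg k (invField ((borel k m r).map ρ)) ≤ 1) :
    HasResolution (Spec.map (CommRingCat.ofHom (algebraMap k A))) ∧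
      (∃ I : Ideal A, I ≠ ⊥ ∧ (∀ g, ∀ a ∈ I, ρ g a ∈ I) ∧
        ∀ b ∈ I, b ≠ 0 → Algebra.Smooth k (chart I b)) ∧
      ∀ (𝒜 : ℕ → Submodule k A) [GradedAlgebra 𝒜], Algebra.adjoin k (𝒜 1 : Set A) = ⊤ →
        𝒜 1 ≠ ⊥ → (∀ t : kˣ, ∃ g, ∀ (d : ℕ), ∀ a ∈ 𝒜 d, ρ g a = (t : k) ^ d • a) →
        HasResolution (projTo 𝒜) := by
  have hinf : Infinite k := IsAlgClosed.instInfinite
  have h1 : Algebra.EssFiniteType A (FractionRing A) :=
    Algebra.EssFiniteType.of_isLocalization _ (nonZeroDivisors A)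
  have h2 : Algebra.EssFiniteType k (FractionRing A) :=
    Algebra.EssFiniteType.comp k A (FractionRing A)
  have hG : ∀ H : Subgroup ρ.range, H.FiniteIndex → H = ⊤ :=
    fun H hH => range_eq_top_of_finiteIndex ρ H hH
  obtain ⟨h3, ⟨I, hI, hst, hsm⟩, h4⟩ := final_of_stk k A ρ.range
    (exists_stk_of_cx (realCaseR p Fact.out).realCase (hyp_liftG ρ.range hG)
      (fun V hV => defLE_of_rational ρ hρ hc V ((inv_iff ρ.range V).1 hV))
      (trdeg_lt_aleph0 k (FractionRing A))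
      (cx_of ρ.range ((borel k m r).map ρ) (complexityLeOne_of_rational p ρ hρ hc))
      (IntermediateField.fg_top k (FractionRing A)))
  refine ⟨h3, ⟨I, hI, fun g => hst _ ⟨g, rfl⟩, hsm⟩, ?_⟩
  intro 𝒜 _ hgen hne hT
  refine h4 𝒜 hgen hne fun t => ?_
  obtain ⟨g, hg⟩ := hT t
  exact ⟨ρ g, ⟨g, rfl⟩, hg⟩

/-- The logarithmic form. -/
theorem log_resolution_of_rational (p : ℕ) [Fact p.Prime] (k : Type) [Field k] [IsAlgClosed k]
    [CharP k p] (A : Type) [CommRing A] [IsDomain A] [Algebra k A] [Algebra.FiniteType k A]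
    (m r : ℕ) (ρ : SLT k m r →* (A ≃ₐ[k] A)) (hρ : IsRational ρ)
    (hc : Algebra.trdeg k (invField ((borel k m r).map ρ)) ≤ 1)
    (D J : Ideal A) (hD0 : D ≠ ⊥) (hDG : ∀ g, ∀ a ∈ D, ρ g a ∈ D) (hJ0 : J ≠ ⊥)
    (hJG : ∀ g, ∀ a ∈ J, ρ g a ∈ J) :
    ∃ I : Ideal A, I ≠ ⊥ ∧ (∀ g, ∀ a ∈ I, ρ g a ∈ I) ∧
      ∀ V : ValuationSubring (FractionRing A), (∀ a : A, algebraMap A (FractionRing A) a ∈ V) →
        MP_b525bf_ag_EL.IsLogDesing V D (J * I) := by
  have hinf : Infinite k := IsAlgClosed.instInfinite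
  have h1 : Algebra.EssFiniteType A (FractionRing A) :=
    Algebra.EssFiniteType.of_isLocalization _ (nonZeroDivisors A)
  have h2 : Algebra.EssFiniteType k (FractionRing A) :=
    Algebra.EssFiniteType.comp k A (FractionRing A)
  have hG : ∀ H : Subgroup ρ.range, H.FiniteIndex → H = ⊤ :=
    fun H hH => range_eq_top_of_finiteIndex ρ H hH
  have hDG' : ∀ g ∈ ρ.range, ∀ a ∈ D, g a ∈ D := by
    rintro _ ⟨g, rfl⟩
    exact hDG g
  have hJG' : ∀ g ∈ ρ.range, ∀ a ∈ J, g a ∈ J := by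
    rintro _ ⟨g, rfl⟩
    exact hJG g
  obtain ⟨I, hI, hIst, h⟩ := Pool.Agent.MP_b525bf_ag_GM.log_ideal_of_adapted k ρ.range hG D J (by
    have h3 := adapted_of_cx (realCaseR p Fact.out).realCase (hyp_liftG ρ.range hG)
      (fun V hV => defLE_of_rational ρ hρ hc V ((inv_iff ρ.range V).1 hV))
      (trdeg_lt_aleph0 k (FractionRing A))
      (cx_of ρ.range ((borel k m r).map ρ) (complexityLeOne_of_rational p ρ hρ hc))
      (IntermediateField.fg_top k (FractionRing A))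
      (r := 2) ![MP_b525bf_ag_EL.idT k D, MP_b525bf_ag_EL.idT k J] (fun t => by
        fin_cases t
        · exact stId_idT ρ.range D hD0 hDG'
        · exact stId_idT ρ.range J hJ0 hJG')
    have h4 : Set.range ![MP_b525bf_ag_EL.idT k D, MP_b525bf_ag_EL.idT k J] =
        {MP_b525bf_ag_EL.idT k D, MP_b525bf_ag_EL.idT k J} := by
      rw [Matrix.range_cons, Matrix.range_cons, Matrix.range_empty, Set.union_empty]
      rfl
    rwa [h4] at h3)
  exact ⟨I, hI, fun g => hIst _ ⟨g, rfl⟩, h⟩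

end Pool.Agent.MP_b525bf_ag_R
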